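import Pool.Agent.W745.Final

/-! The pointwise ergodic theorem for integrable functions. -/

open MeasureTheory Set Filter Topology Real
open scoped ENNReal NNReal

namespace Pool.Agent.W745

noncomputable section

variable {X : Type} [MeasurableSpace X] {μ : Measure X} [MulAction SL2 X]
variable {f : X → ℝ}
variable [MeasurableSpace SL2] [BorelSpace SL2]

/-- truncation -/
def tr (N : ℕ) (z : ℝ) : ℝ := max (min z N) (-N)

lemma tr_continuous (N : ℕ) : Continuous (tr N) := by unfold tr; fun_prop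

lemma tr_bdd (N : ℕ) (z : ℝ) : |tr N z| ≤ N := by
  have hN : (0 : ℝ) ≤ N := Nat.cast_nonneg N
  unfold tr
  rw [abs_le]
  exact ⟨le_max_right _ _, max_le (min_le_right _ _) (by linarith)⟩

lemma tr_sub_le (N : ℕ) (z : ℝ) : |z - tr N z| ≤ |z| := by
  have hN : (0 : ℝ) ≤ N := Nat.cast_nonneg N
  unfold tr
  rcases le_total z N with h | h
  · rw [min_eq_left h]
    rcases le_total (-(N : ℝ)) z with h2 | h2
    · rw [max_eq_left h2, sub_self, abs_zero]
      exact abs_nonneg z
    · rw [max_eq_right h2, abs_of_nonpos (by linarith : z - -(N : ℝ) ≤ 0),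
        abs_of_nonpos (by linarith : z ≤ 0)]
      linarith
  · rw [min_eq_right h, max_eq_left (by linarith), abs_of_nonneg (by linarith),
      abs_of_nonneg (by linarith)]
    linarith

lemma tr_eq {N : ℕ} {z : ℝ} (h : |z| ≤ N) : tr N z = z := by
  obtain ⟨h1, h2⟩ := abs_le.1 h
  unfold tr
  rw [min_eq_left h2, max_eq_left h1]

/-- the theorem for measurable integrable functions -/
theorem l1_case [IsProbabilityMeasure μ] (hG : GAct μ) {B ε0 : ℝ} (hgap : Gap μ B ε0)
    (hf : Measurable f) (hfi : Integrable f μ) {m : Measure SL2} {κ : ℝ} (hm : HM m κ) :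
    ∀ᵐ x ∂μ, Tendsto (fun R => AR m R f x) atTop (𝓝 (∫ y, f y ∂μ)) := by
  have := sfin hm
  have htm : ∀ N : ℕ, Measurable fun y => tr N (f y) := fun N =>
    (tr_continuous N).measurable.comp hf
  have h1 : ∀ᵐ x ∂μ, ∀ N : ℕ,
      Tendsto (fun R => AR m R (fun y => tr N (f y)) x) atTop (𝓝 (∫ y, tr N (f y) ∂μ)) := by
    rw [ae_all_iff]
    exact fun N => bdd_case hG hgap (htm N) (fun y => tr_bdd N _) hm
  have htmd : ∀ N : ℕ, Measurable fun y => |f y - tr N (f y)| := fun N =>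
    (hf.sub (htm N)).abs
  have htid : ∀ N : ℕ, Integrable (fun y => |f y - tr N (f y)|) μ := fun N => by
    refine hfi.mono (htmd N).aestronglyMeasurable (Filter.Eventually.of_forall fun y => ?_)
    rw [norm_eq_abs, norm_eq_abs, abs_abs]
    exact tr_sub_le N _
  have h2 : ∀ᵐ x ∂μ, ∀ N : ℕ, ∀ δ : ℝ, 0 < δ → ∀ᶠ R in atTop,
      AR m R (fun y => |f y - tr N (f y)|) x ≤ C4 m * ((∫ y, |f y - tr N (f y)| ∂μ) + δ) := by
    rw [ae_all_iff]
    exact fun N => max_ineq hG hgap (htmd N) (fun y => abs_nonneg _) (htid N) hm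
  have h3 : ∀ᵐ x ∂μ, ∀ n : ℕ, IntegrableOn (fun g : SL2 => f (g • x)) (FR n) m := by
    rw [ae_all_iff]
    intro n
    have hw : Measurable (indicator (FR n) fun _ : SL2 => (1 : ℝ)) :=
      measurable_const.indicator (FR_meas _)
    have hwi : Integrable (indicator (FR n) fun _ : SL2 => (1 : ℝ)) m := by
      rw [integrable_indicator_iff (FR_meas _)]
      exact integrableOn_const (FR_fin hm n)
    filter_upwards [(prodInt hG hf hfi hm hw hwi).prod_right_ae] with x hx
    rw [← integrable_indicator_iff (FR_meas _)]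
    refine hx.congr (Filter.Eventually.of_forall fun g => ?_)
    simp only [indicator]
    split_ifs <;> simp
  filter_upwards [h1, h2, h3] with x h1 h2 h3
  have h3' : ∀ R : ℝ, IntegrableOn (fun g : SL2 => f (g • x)) (FR R) m := by
    intro R
    obtain ⟨n, hn⟩ := exists_nat_ge R
    exact (h3 n).mono_set fun g (hg : NN g < R) => lt_of_lt_of_le hg hn
  -- convergence of the truncation error
  have hlim : Tendsto (fun N : ℕ => ∫ y, |f y - tr N (f y)| ∂μ) atTop (𝓝 0) := by
    have h4 : Tendsto (fun N : ℕ => ∫ y, |f y - tr N (f y)| ∂μ) atTop (𝓝 (∫ y, (0 : ℝ) ∂μ)) := by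
      refine tendsto_integral_of_dominated_convergence (fun y => |f y|)
        (fun N => (htmd N).aestronglyMeasurable) hfi.abs (fun N => ?_) ?_
      · refine Filter.Eventually.of_forall fun y => ?_
        rw [norm_eq_abs, abs_abs]
        exact tr_sub_le N _
      · refine Filter.Eventually.of_forall fun y => ?_
        obtain ⟨N0, hN0⟩ := exists_nat_ge |f y|
        refine tendsto_const_nhds.congr' ?_
        filter_upwards [eventually_ge_atTop N0] with N hN
        rw [tr_eq (hN0.trans (by exact_mod_cast hN)), sub_self, abs_zero]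
    rwa [integral_zero] at h4
  have hC := C4_nonneg hm
  rw [Metric.tendsto_nhds]
  intro ε hε
  obtain ⟨N, hN⟩ := (hlim.eventually (gt_mem_nhds
    (show (0 : ℝ) < ε / (4 * (C4 m + 1)) by positivity))).exists
  set d := ∫ y, |f y - tr N (f y)| ∂μ with hd
  set δ := ε / (4 * (C4 m + 1)) with hδd
  have hδ : 0 < δ := by positivity
  have hd0 : 0 ≤ d := integral_nonneg fun y => abs_nonneg _
  have hδC : (C4 m + 1) * δ = ε / 4 := by
    rw [hδd]; field_simp
  filter_upwards [Metric.tendsto_nhds.1 (h1 N) (ε / 4) (by positivity), h2 N δ hδ,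
    eventually_gt_atTop 2] with R hR1 hR2 hR
  rw [Real.dist_eq] at hR1 ⊢
  have hV0 : 0 < κ * (R - 2) := mul_pos hm.pos (by linarith)
  have hti : IntegrableOn (fun g : SL2 => tr N (f (g • x))) (FR R) m :=
    Measure.integrableOn_of_bounded (M := N) (FR_fin hm R)
      ((htm N).comp (hG.meas_orbit x)).aestronglyMeasurable
      (Filter.Eventually.of_forall fun g => tr_bdd N _)
  have h5 : |AR m R f x - AR m R (fun y => tr N (f y)) x| ≤
      AR m R (fun y => |f y - tr N (f y)|) x := by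
    unfold AR
    rw [← mul_sub, ← integral_sub (h3' R) hti, abs_mul, abs_of_nonneg (by positivity)]
    gcongr
    exact abs_integral_le_integral_abs
  have h6 : |(∫ y, tr N (f y) ∂μ) - ∫ y, f y ∂μ| ≤ d := by
    have hti' : Integrable (fun y => tr N (f y)) μ :=
      integrable_of_bdd' (htm N) fun y => tr_bdd N _
    rw [abs_sub_comm, ← integral_sub hfi hti']
    exact abs_integral_le_integral_abs
  have h7 : C4 m * (d + δ) + d ≤ 2 * ((C4 m + 1) * δ) := by nlinarith
  have h8 : |AR m R f x - ∫ y, f y ∂μ| ≤ |AR m R f x - AR m R (fun y => tr N (f y)) x| +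
      |AR m R (fun y => tr N (f y)) x - ∫ y, tr N (f y) ∂μ| +
      |(∫ y, tr N (f y) ∂μ) - ∫ y, f y ∂μ| := by
    have a1 := abs_sub_le (AR m R f x) (AR m R (fun y => tr N (f y)) x) (∫ y, f y ∂μ)
    have a2 := abs_sub_le (AR m R (fun y => tr N (f y)) x) (∫ y, tr N (f y) ∂μ) (∫ y, f y ∂μ)
    linarith
  linarith

/-- the theorem for integrable functions, in the form of the statement -/
theorem main_thm [IsProbabilityMeasure μ] (m : Measure SL2) [m.IsHaarMeasure]
    (hmeas : Measurable (fun p : SL2 × X => p.1 • p.2))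
    (hmp : ∀ g : SL2, MeasurePreserving (fun x : X => g • x) μ μ)
    (hgap : ∃ Q : Set SL2, IsCompact Q ∧ ∃ ε : ℝ, 0 < ε ∧
      ∀ f : X → ℝ, MemLp f 2 μ → ∫ y, f y ∂μ = 0 → eLpNorm f 2 μ = 1 →
        ∃ g ∈ Q, ENNReal.ofReal ε ≤ eLpNorm (fun y => f (g • y) - f y) 2 μ)
    (hfi : Integrable f μ) :
    ∀ᵐ x ∂μ, Tendsto (fun R : ℝ => (m {g : SL2 | ∑ i, ∑ j, ((g : Mt) i j) ^ 2 < R}).toReal⁻¹ *
      ∫ g in {g : SL2 | ∑ i, ∑ j, ((g : Mt) i j) ^ 2 < R}, f (g⁻¹ • x) ∂m) atTop
      (𝓝 (∫ y, f y ∂μ)) := by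
  obtain ⟨κ, hm⟩ := hm_of_haar m
  have := sfin hm
  have hG : GAct μ := ⟨hmeas, hmp⟩
  obtain ⟨Q, hQ, ε, hε, hgap⟩ := hgap
  obtain ⟨C, hC⟩ := (hQ.image NN_continuous).bddAbove
  have hgap' : Gap μ (max C 1) ε := by
    refine ⟨le_max_right _ _, hε, fun f h1 h2 h3 => ?_⟩
    obtain ⟨g, hg, hge⟩ := hgap f h1 h2 h3
    refine ⟨g, ?_, hge⟩
    have h4 : NN g ≤ C := hC ⟨g, hg, rfl⟩
    have h5 : ∀ z : ℝ, z ^ 2 ≤ NN g → |z| ≤ max C 1 := by
      intro z hz
      apply abs_le_of_sq_le_sq _ (le_trans zero_le_one (le_max_right _ _))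
      have h6 := le_max_left C 1
      have h7 := le_max_right C 1
      nlinarith
    rw [NN_eq] at h5
    refine ⟨h5 _ ?_, h5 _ ?_, h5 _ ?_, h5 _ ?_⟩ <;>
      nlinarith [sq_nonneg (g.1 0 0), sq_nonneg (g.1 0 1), sq_nonneg (g.1 1 0),
        sq_nonneg (g.1 1 1)]
  have hset : ∀ R : ℝ, {g : SL2 | ∑ i, ∑ j, ((g : Mt) i j) ^ 2 < R} = FR R := by
    intro R
    ext g
    simp only [FR, mem_ofPred_eq, Fin.sum_univ_two, NN_eq]
    constructor <;> intro h <;> linarith
  simp only [hset]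
  -- measurable representative
  obtain ⟨f', hf', hff'⟩ := hfi.1.aemeasurable
  have hfi' : Integrable f' μ := hfi.congr hff'
  have hint : ∫ y, f y ∂μ = ∫ y, f' y ∂μ := integral_congr_ae hff'
  have h1 := l1_case hG hgap' hf' hfi' hm
  have h2 : ∀ᵐ x ∂μ, ∀ᵐ g ∂m, f (g⁻¹ • x) = f' (g⁻¹ • x) := by
    refine qmp m (φ := fun p : SL2 × X => p.1⁻¹ • p.2) ?_ (fun t => hmp t⁻¹) hff'
    exact hmeas.comp (measurable_fst.inv.prodMk measurable_snd)
  rw [hint]
  filter_upwards [h1, h2] with x h1 h2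
  refine h1.congr fun R => ?_
  unfold AR
  congr 1
  have h3 : ∫ g in FR R, f (g⁻¹ • x) ∂m = ∫ g in FR R, f' (g⁻¹ • x) ∂m :=
    setIntegral_congr_ae (FR_meas R) (h2.mono fun g hg _ => hg)
  rw [h3]
  have h4 := hm.inv.setIntegral_preimage_emb (MeasurableEquiv.inv SL2).measurableEmbedding
    (fun g => f' (g • x)) (FR R)
  have h5 : (fun h : SL2 => h⁻¹) ⁻¹' (FR R) = FR R := by
    ext h
    simp only [FR, mem_preimage, mem_ofPred_eq, NN_inv]
  rw [h5] at h4
  exact h4.symm

end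

end Pool.Agent.W745
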