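import Pool.Agent.W745.L2

/-! Averages along the upper unipotent group. -/

open MeasureTheory Real Set
open scoped ENNReal

namespace Pool.Agent.W745

noncomputable section

variable {X : Type} [MeasurableSpace X] {μ : Measure X} [MulAction SL2 X]

/-- a probability measure preserving action -/
structure Act (μ : Measure X) : Prop where
  nnm : Measurable (fun p : ℝ × X => nn p.1 • p.2)
  kkm : Measurable (fun p : ℝ × X => kk p.1 • p.2)
  mp : ∀ g : SL2, MeasurePreserving (fun x : X => g • x) μ μ

/-- nonnegative functions with controlled growth along the one-parameter groups -/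
structure Reg (q : ℝ) (F : X → ℝ) : Prop where
  meas : Measurable F
  nonneg : ∀ y, 0 ≤ F y
  hdg : ∀ s y, F (dg s • y) ≤ exp (q * |s|) * F y
  hnm : ∀ v y, F (nm v • y) ≤ exp (q * |v|) * F y
  hnn : ∀ t y, F (nn t • y) ≤ exp (q * |t|) * F y

/-- the tent function -/
def tent (t : ℝ) : ℝ := max (1 - |t|) 0

lemma tent_nonneg (t : ℝ) : 0 ≤ tent t := le_max_right _ _
lemma tent_le_one (t : ℝ) : tent t ≤ 1 := max_le (by linarith [abs_nonneg t]) zero_le_one
lemma tent_zero_of {t : ℝ} (h : 1 ≤ |t|) : tent t = 0 := max_eq_right (by linarith)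
lemma tent_continuous : Continuous tent := by unfold tent; fun_prop
lemma tent_neg (t : ℝ) : tent (-t) = tent t := by simp [tent]

lemma tent_lip (s t : ℝ) : |tent s - tent t| ≤ |s - t| := by
  unfold tent
  refine (abs_max_sub_max_le_max _ _ _ _).trans (max_le ?_ (by simp))
  rw [sub_sub_sub_cancel_left, abs_sub_comm]
  exact abs_abs_sub_abs_le_abs_sub s t

lemma tent_refine (x : ℝ) : 2 * tent (x / 2) = tent (x + 1) + 2 * tent x + tent (x - 1) := by
  unfold tent
  rw [abs_div, abs_two]
  rcases le_total 0 x with h0 | h0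
  · rw [abs_of_nonneg h0, abs_of_nonneg (by linarith : 0 ≤ x + 1), max_eq_right (by linarith : 1 - (x + 1) ≤ 0)]
    rcases le_total x 1 with h1 | h1
    · rw [abs_of_nonpos (by linarith : x - 1 ≤ 0), max_eq_left (by linarith), max_eq_left (by linarith),
        max_eq_left (by linarith)]
      ring
    · rw [abs_of_nonneg (by linarith : 0 ≤ x - 1), max_eq_right (by linarith : 1 - x ≤ 0)]
      rcases le_total x 2 with h2 | h2
      · rw [max_eq_left (by linarith), max_eq_left (by linarith)]; ring
      · rw [max_eq_right (by linarith), max_eq_right (by linarith)]; ring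
  · rw [abs_of_nonpos h0, abs_of_nonpos (by linarith : x - 1 ≤ 0), max_eq_right (by linarith : 1 - -(x - 1) ≤ 0)]
    rcases le_total (-1) x with h1 | h1
    · rw [abs_of_nonneg (by linarith : 0 ≤ x + 1), max_eq_left (by linarith), max_eq_left (by linarith),
        max_eq_left (by linarith)]
      ring
    · rw [abs_of_nonpos (by linarith : x + 1 ≤ 0), max_eq_right (by linarith : 1 - -x ≤ 0)]
      rcases le_total (-2) x with h2 | h2
      · rw [max_eq_left (by linarith), max_eq_left (by linarith)]; ring
      · rw [max_eq_right (by linarith), max_eq_right (by linarith)]; ring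

/-- a bounded measurable function with bounded support is integrable -/
lemma integrable_of_bdd_supp {f : ℝ → ℝ} (hf : Measurable f) {R C : ℝ}
    (h0 : ∀ t, R < |t| → f t = 0) (hC : ∀ t, |t| ≤ R → |f t| ≤ C) : Integrable f := by
  have h1 : f = indicator (Icc (-R) R) f := by
    ext t
    by_cases ht : t ∈ Icc (-R) R
    · rw [indicator_of_mem ht]
    · rw [indicator_of_notMem ht]
      apply h0
      rw [mem_Icc, ← abs_le] at ht
      exact not_le.1 ht
  rw [h1, integrable_indicator_iff measurableSet_Icc]
  refine Measure.integrableOn_of_bounded (M := C) (by simp) hf.aestronglyMeasurable ?_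
  refine (ae_restrict_iff' measurableSet_Icc).2 (Filter.Eventually.of_forall fun t ht => ?_)
  exact hC t (abs_le.2 ht)

lemma tent_integrable : Integrable tent :=
  integrable_of_bdd_supp tent_continuous.measurable (R := 1) (C := 1)
    (fun t ht => tent_zero_of ht.le) (fun t _ => by
      rw [abs_of_nonneg (tent_nonneg t)]; exact tent_le_one t)

lemma integral_tent : ∫ t, tent t = 1 := by
  have h1 : ∫ t, tent t = ∫ t in Icc (-1 : ℝ) 1, tent t := by
    rw [eq_comm]
    apply setIntegral_eq_integral_of_forall_compl_eq_zero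
    intro t ht
    rw [mem_Icc, ← abs_le] at ht
    exact tent_zero_of (not_le.1 ht).le
  rw [h1, integral_Icc_eq_integral_Ioc, ← intervalIntegral.integral_of_le (by norm_num)]
  rw [← intervalIntegral.integral_add_adjacent_intervals (b := 0)
    (tent_continuous.intervalIntegrable _ _) (tent_continuous.intervalIntegrable _ _)]
  have h2 : ∫ t in (-1 : ℝ)..0, tent t = ∫ t in (-1 : ℝ)..0, (1 + t) := by
    apply intervalIntegral.integral_congr
    intro t ht
    rw [uIcc_of_le (by norm_num)] at ht
    simp only [tent]
    rw [abs_of_nonpos ht.2, max_eq_left (by linarith [ht.1])]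
    ring
  have h3 : ∫ t in (0 : ℝ)..1, tent t = ∫ t in (0 : ℝ)..1, (1 - t) := by
    apply intervalIntegral.integral_congr
    intro t ht
    rw [uIcc_of_le (by norm_num)] at ht
    simp only [tent]
    rw [abs_of_nonneg ht.1, max_eq_left (by linarith [ht.2])]
  rw [h2, h3]
  have h4 : ∫ t in (-1 : ℝ)..0, (1 + t) = 1 / 2 := by
    rw [intervalIntegral.integral_add intervalIntegrable_const intervalIntegral.intervalIntegrable_id]
    simp only [integral_id, intervalIntegral.integral_const, smul_eq_mul]
    norm_num
  have h5 : ∫ t in (0 : ℝ)..1, (1 - t) = 1 / 2 := by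
    rw [intervalIntegral.integral_sub intervalIntegrable_const intervalIntegral.intervalIntegrable_id]
    simp only [integral_id, intervalIntegral.integral_const, smul_eq_mul]
    norm_num
  rw [h4, h5]
  norm_num

/-- the average along the upper unipotent group at scale `L` -/
def MM (L : ℝ) (F : X → ℝ) (y : X) : ℝ := ∫ t, tent (t / L) / L * F (nn t • y)

/-- the renormalised average -/
def PP (s : ℝ) (F : X → ℝ) (y : X) : ℝ := ∫ t, tent t * F (dg s • nn t • y)

variable {q : ℝ} {F : X → ℝ}

lemma Act.meas_nn (hA : Act μ) (y : X) : Measurable fun t : ℝ => nn t • y := by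
  have h : Measurable fun t : ℝ => (t, y) := measurable_id.prodMk measurable_const
  exact hA.nnm.comp h

lemma Act.meas_kk (hA : Act μ) (y : X) : Measurable fun t : ℝ => kk t • y := by
  have h : Measurable fun t : ℝ => (t, y) := measurable_id.prodMk measurable_const
  exact hA.kkm.comp h

lemma Act.meas_g (hA : Act μ) (g : SL2) : Measurable fun y : X => g • y := (hA.mp g).measurable

lemma Reg.int_MM (hA : Act μ) (hF : Reg q F) (hq : 0 ≤ q) {L : ℝ} (hL : 0 < L) (y : X) :
    Integrable fun t => tent (t / L) / L * F (nn t • y) := by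
  refine integrable_of_bdd_supp (R := L) (C := 1 / L * (exp (q * L) * F y)) ?_ ?_ ?_
  · have := hF.meas.comp (hA.meas_nn y)
    have h2 : Measurable fun t : ℝ => tent (t / L) / L :=
      (tent_continuous.measurable.comp (measurable_id.div_const L)).div_const L
    exact h2.mul this
  · intro t ht
    rw [tent_zero_of]
    · simp
    · rw [abs_div, abs_of_pos hL, le_div_iff₀ hL]; linarith
  · intro t ht
    rw [abs_mul, abs_of_nonneg (div_nonneg (tent_nonneg _) hL.le), abs_of_nonneg (hF.nonneg _)]
    have h1 : F (nn t • y) ≤ exp (q * L) * F y := by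
      refine (hF.hnn t y).trans ?_
      have := hF.nonneg y
      gcongr
    have h2 : tent (t / L) / L ≤ 1 / L := by
      gcongr
      exact tent_le_one _
    exact mul_le_mul h2 h1 (hF.nonneg _) (by positivity)

lemma Reg.int_PP (hA : Act μ) (hF : Reg q F) (hq : 0 ≤ q) (s : ℝ) (y : X) :
    Integrable fun t => tent t * F (dg s • nn t • y) := by
  refine integrable_of_bdd_supp (R := 1) (C := 1 * (exp (q * |s|) * (exp (q * 1) * F y))) ?_ ?_ ?_
  · exact tent_continuous.measurable.mul (hF.meas.comp ((hA.meas_g _).comp (hA.meas_nn y)))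
  · intro t ht
    rw [tent_zero_of ht.le]
    simp
  · intro t ht
    rw [abs_mul, abs_of_nonneg (tent_nonneg _), abs_of_nonneg (hF.nonneg _)]
    have h1 : F (dg s • nn t • y) ≤ exp (q * |s|) * (exp (q * 1) * F y) := by
      refine (hF.hdg s _).trans ?_
      refine mul_le_mul_of_nonneg_left ?_ (exp_pos _).le
      refine (hF.hnn t y).trans ?_
      have := hF.nonneg y
      gcongr
    exact mul_le_mul (tent_le_one _) h1 (hF.nonneg _) zero_le_one

lemma Reg.MM_nonneg (hF : Reg q F) {L : ℝ} (hL : 0 < L) (y : X) : 0 ≤ MM L F y :=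
  integral_nonneg fun t => mul_nonneg (div_nonneg (tent_nonneg _) hL.le) (hF.nonneg _)

lemma Reg.PP_nonneg (hF : Reg q F) (s : ℝ) (y : X) : 0 ≤ PP s F y :=
  integral_nonneg fun t => mul_nonneg (tent_nonneg _) (hF.nonneg _)

/-- relation between the two averages -/
lemma PP_eq (s : ℝ) (F : X → ℝ) (y : X) : PP s F y = MM (exp (2 * s)) F (dg s • y) := by
  unfold PP MM
  have hL : (0 : ℝ) < exp (2 * s) := exp_pos _
  have h := Measure.integral_comp_mul_left
    (fun u => tent (u / exp (2 * s)) / exp (2 * s) * F (nn u • dg s • y)) (exp (2 * s))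
  have h2 : ∫ u, tent (u / exp (2 * s)) / exp (2 * s) * F (nn u • dg s • y) =
      exp (2 * s) * ∫ x, tent (exp (2 * s) * x / exp (2 * s)) / exp (2 * s) *
        F (nn (exp (2 * s) * x) • dg s • y) := by
    rw [h, abs_of_pos (by positivity), smul_eq_mul, ← mul_assoc, mul_inv_cancel₀ hL.ne', one_mul]
  rw [h2, ← integral_const_mul]
  congr 1
  ext t
  rw [mul_div_cancel_left₀ _ hL.ne', smul_smul, smul_smul, dg_nn]
  field_simp

/-- the doubling identity -/
lemma MM_double (hA : Act μ) (hF : Reg q F) (hq : 0 ≤ q) {L : ℝ} (hL : 0 < L) (y : X) :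
    MM (2 * L) F y = (MM L F (nn (-L) • y) + 2 * MM L F y + MM L F (nn L • y)) / 4 := by
  have e1 : MM L F (nn (-L) • y) = ∫ t, tent ((t + L) / L) / L * F (nn t • y) := by
    unfold MM
    rw [← integral_add_right_eq_self _ L]
    congr 1
    ext t
    rw [smul_smul, ← nn_add]
    congr 4
    ring
  have e2 : MM L F (nn L • y) = ∫ t, tent ((t - L) / L) / L * F (nn t • y) := by
    unfold MM
    rw [← integral_sub_right_eq_self _ L]
    congr 1
    ext t
    rw [smul_smul, ← nn_add]
    congr 4
    ring
  have i1 : Integrable fun t => tent ((t + L) / L) / L * F (nn t • y) := by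
    have := (hF.int_MM hA hq hL (nn (-L) • y)).comp_add_right L
    refine this.congr (Filter.Eventually.of_forall fun t => ?_)
    simp only
    rw [smul_smul, ← nn_add]
    congr 4
    ring
  have i2 : Integrable fun t => tent ((t - L) / L) / L * F (nn t • y) := by
    have := (hF.int_MM hA hq hL (nn L • y)).comp_sub_right L
    refine this.congr (Filter.Eventually.of_forall fun t => ?_)
    simp only
    rw [smul_smul, ← nn_add]
    congr 4
    ring
  have i0 := hF.int_MM hA hq hL y
  rw [e1, e2]
  unfold MM
  have e3 : (∫ t, tent ((t + L) / L) / L * F (nn t • y)) + 2 * (∫ t, tent (t / L) / L * F (nn t • y))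
      + (∫ t, tent ((t - L) / L) / L * F (nn t • y)) = ∫ t, (tent ((t + L) / L) / L * F (nn t • y) +
        2 * (tent (t / L) / L * F (nn t • y)) + tent ((t - L) / L) / L * F (nn t • y)) := by
    have i3 := i1.add (i0.const_mul 2)
    rw [← integral_const_mul, ← integral_add i1 (i0.const_mul 2)]
    exact (integral_add i3 i2).symm
  rw [e3, ← integral_div]
  congr 1
  ext t
  have h := tent_refine (t / L)
  have h1 : t / (2 * L) = t / L / 2 := by field_simp
  have h2 : (t + L) / L = t / L + 1 := by field_simp
  have h3 : (t - L) / L = t / L - 1 := by field_simp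
  rw [h1, h2, h3]
  have h4 : tent (t / L / 2) = (tent (t / L + 1) + 2 * tent (t / L) + tent (t / L - 1)) / 2 := by
    linarith
  rw [h4]
  field_simp
  ring

lemma meas_MM (hA : Act μ) (hFm : Measurable F) (L : ℝ) : Measurable (MM L F) := by
  have h : Measurable fun p : X × ℝ => tent (p.2 / L) / L * F (nn p.2 • p.1) := by
    have h1 : Measurable fun p : X × ℝ => tent (p.2 / L) / L :=
      (tent_continuous.measurable.comp (measurable_snd.div_const L)).div_const L
    exact h1.mul (hFm.comp (hA.nnm.comp (measurable_snd.prodMk measurable_fst)))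
  exact (h.stronglyMeasurable.integral_prod_right (ν := volume)).measurable

lemma meas_PP (hA : Act μ) (hFm : Measurable F) (s : ℝ) : Measurable (PP s F) := by
  have h : PP s F = fun y => MM (exp (2 * s)) F (dg s • y) := funext fun y => PP_eq s F y
  rw [h]
  exact (meas_MM hA hFm _).comp (hA.meas_g _)

lemma int_comp (hA : Act μ) (g : SL2) (hFi : Integrable F μ) :
    Integrable (fun y => F (g • y)) μ := (hA.mp g).integrable_comp_of_integrable hFi

lemma integral_comp_g (hA : Act μ) (g : SL2) (hFi : AEStronglyMeasurable F μ) :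
    ∫ y, F (g • y) ∂μ = ∫ y, F y ∂μ := by
  have h := (hA.mp g).map_eq
  conv_rhs => rw [← h]
  rw [integral_map (hA.meas_g g).aemeasurable]
  rwa [h]

lemma prod_int [IsProbabilityMeasure μ] (hA : Act μ) (hF : Reg q F) (hFi : Integrable F μ) {L : ℝ}
    (hL : 0 < L) :
    Integrable (fun p : X × ℝ => tent (p.2 / L) / L * F (nn p.2 • p.1)) (μ.prod volume) := by
  have h : Measurable fun p : X × ℝ => tent (p.2 / L) / L * F (nn p.2 • p.1) := by
    have h1 : Measurable fun p : X × ℝ => tent (p.2 / L) / L :=
      (tent_continuous.measurable.comp (measurable_snd.div_const L)).div_const L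
    exact h1.mul (hF.meas.comp (hA.nnm.comp (measurable_snd.prodMk measurable_fst)))
  rw [integrable_prod_iff' h.aestronglyMeasurable]
  constructor
  · refine Filter.Eventually.of_forall fun t => ?_
    exact (int_comp hA (nn t) hFi).const_mul (tent (t / L) / L)
  · have h2 : (fun t : ℝ => ∫ y, ‖tent (t / L) / L * F (nn t • y)‖ ∂μ) =
        fun t => tent (t / L) / L * ∫ y, F y ∂μ := by
      ext t
      rw [← integral_comp_g hA (nn t) hFi.1, ← integral_const_mul]
      congr 1
      ext y
      rw [norm_eq_abs, abs_of_nonneg (mul_nonneg (div_nonneg (tent_nonneg _) hL.le) (hF.nonneg _))]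
    simp only [h2]
    refine Integrable.mul_const ?_ _
    refine (Integrable.comp_div tent_integrable hL.ne').div_const L

lemma MM_integrable [IsProbabilityMeasure μ] (hA : Act μ) (hF : Reg q F) (hFi : Integrable F μ)
    {L : ℝ} (hL : 0 < L) : Integrable (MM L F) μ :=
  (prod_int hA hF hFi hL).integral_prod_left

lemma integral_ker {L : ℝ} (hL : 0 < L) : ∫ t, tent (t / L) / L = 1 := by
  rw [integral_div, Measure.integral_comp_div, integral_tent, abs_of_pos hL]
  simp [hL.ne']

lemma MM_integral [IsProbabilityMeasure μ] (hA : Act μ) (hF : Reg q F) (hFi : Integrable F μ)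
    {L : ℝ} (hL : 0 < L) : ∫ y, MM L F y ∂μ = ∫ y, F y ∂μ := by
  unfold MM
  rw [integral_integral_swap (prod_int hA hF hFi hL)]
  have h2 : (fun t : ℝ => ∫ y, tent (t / L) / L * F (nn t • y) ∂μ) =
        fun t => tent (t / L) / L * ∫ y, F y ∂μ := by
      ext t
      rw [← integral_comp_g hA (nn t) hFi.1, ← integral_const_mul]
  simp only [h2]
  rw [integral_mul_const, integral_ker hL, one_mul]

lemma PP_integrable [IsProbabilityMeasure μ] (hA : Act μ) (hF : Reg q F) (hFi : Integrable F μ)
    (s : ℝ) : Integrable (PP s F) μ := by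
  have h : PP s F = fun y => MM (exp (2 * s)) F (dg s • y) := funext fun y => PP_eq s F y
  rw [h]
  exact int_comp hA _ (MM_integrable hA hF hFi (exp_pos _))

lemma PP_integral [IsProbabilityMeasure μ] (hA : Act μ) (hF : Reg q F) (hFi : Integrable F μ)
    (s : ℝ) : ∫ y, PP s F y ∂μ = ∫ y, F y ∂μ := by
  have h : PP s F = fun y => MM (exp (2 * s)) F (dg s • y) := funext fun y => PP_eq s F y
  rw [h, integral_comp_g hA _ (MM_integrable hA hF hFi (exp_pos _)).1,
    MM_integral hA hF hFi (exp_pos _)]

end

end Pool.Agent.W745
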