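import Pool.Agent.W745.Conv

/-! Averages over the rotation group. -/

open MeasureTheory Real Set Filter Topology
open scoped ENNReal

namespace Pool.Agent.W745

noncomputable section

variable {X : Type} [MeasurableSpace X] {μ : Measure X} [MulAction SL2 X]
variable {q : ℝ} {F : X → ℝ}

/-- invariance under rotations -/
def KI (F : X → ℝ) : Prop := ∀ θ y, F (kk θ • y) = F y

/-- the average over rotations -/
def SS (s : ℝ) (F : X → ℝ) (y : X) : ℝ := (2 * π)⁻¹ * ∫ θ in (0 : ℝ)..(2 * π), F (dg s • kk θ • y)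

lemma Reg.two_le (hF : Reg q F) (hq : 0 ≤ q) (a b : ℝ) (z : X) {d : ℝ} (hd : |a| + |b| ≤ d) :
    F (nm a • dg b • z) ≤ exp (q * d) * F z ∧ F z ≤ exp (q * d) * F (nm a • dg b • z) := by
  have h0 := hF.nonneg z
  constructor
  · refine (hF.hnm a _).trans ?_
    have h2 := mul_le_mul_of_nonneg_left (hF.hdg b z) (exp_pos (q * |a|)).le
    refine h2.trans ?_
    rw [← mul_assoc, ← Real.exp_add]
    gcongr
    nlinarith
  · have e : z = dg (-b) • nm (-a) • nm a • dg b • z := by
      rw [nm_neg, dg_neg, inv_smul_smul, inv_smul_smul]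
    conv_lhs => rw [e]
    refine (hF.hdg _ _).trans ?_
    have h2 := mul_le_mul_of_nonneg_left (hF.hnm (-a) (nm a • dg b • z)) (exp_pos (q * |(-b)|)).le
    refine h2.trans ?_
    rw [← mul_assoc, ← Real.exp_add, abs_neg, abs_neg]
    have := hF.nonneg (nm a • dg b • z)
    gcongr
    nlinarith

lemma arc_le (hF : Reg q F) (hq : 0 ≤ q) {s : ℝ} (hs : 0 ≤ s) {t : ℝ} (ht : |t| ≤ 1) (y : X) :
    F (dg s • nn t • y) ≤ exp (q * (2 * |t|)) * F (dg s • kk (arctan t) • y) ∧
    F (dg s • kk (arctan t) • y) ≤ exp (q * (2 * |t|)) * F (dg s • nn t • y) := by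
  set φ := arctan t with hφ
  have hcos := Real.cos_arctan_pos t
  rw [← hφ] at hcos
  have e1 : dg s • nn t • y = nm (exp (-2 * s) * (sin φ * cos φ)) • dg (-log (cos φ)) •
      (dg s • kk φ • y) := by
    have h1 : t = tan φ := (Real.tan_arctan t).symm
    conv_lhs => rw [h1]
    rw [nn_tan hcos, smul_smul, smul_smul, smul_smul, smul_smul]
    congr 1
    rw [← mul_assoc, ← mul_assoc, dg_nm, mul_assoc (nm _) (dg s), ← dg_add, add_comm s, dg_add]
    simp only [mul_assoc]
  have h1t : 0 < 1 + t ^ 2 := by positivity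
  have ha : |exp (-2 * s) * (sin φ * cos φ)| ≤ |t| := by
    have h2 : sin φ * cos φ = t / (1 + t ^ 2) := by
      rw [hφ, Real.sin_arctan, Real.cos_arctan, div_mul_div_comm, Real.mul_self_sqrt h1t.le, mul_one]
    rw [h2, abs_mul, abs_of_pos (exp_pos _), abs_div, abs_of_pos h1t]
    have h3 : exp (-2 * s) ≤ 1 := Real.exp_le_one_iff.2 (by linarith)
    have h4 : |t| / (1 + t ^ 2) ≤ |t| := div_le_self (abs_nonneg t) (by nlinarith)
    have h5 : 0 ≤ |t| / (1 + t ^ 2) := by positivity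
    nlinarith
  have hb : |-log (cos φ)| ≤ |t| := by
    have h2 : -log (cos φ) = log (1 + t ^ 2) / 2 := by
      rw [hφ, Real.cos_arctan, Real.log_div one_ne_zero (by positivity), Real.log_one,
        Real.log_sqrt h1t.le]
      ring
    rw [h2]
    have h3 := Real.log_le_sub_one_of_pos h1t
    have h4 : 0 ≤ log (1 + t ^ 2) := Real.log_nonneg (by nlinarith)
    rw [abs_of_nonneg (by positivity)]
    have h5 : t ^ 2 ≤ |t| := by
      rw [← sq_abs]
      nlinarith [abs_nonneg t]
    linarith [abs_nonneg t]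
  have h := hF.two_le hq (exp (-2 * s) * (sin φ * cos φ)) (-log (cos φ)) (dg s • kk φ • y)
    (show _ ≤ 2 * |t| by linarith)
  rw [← e1] at h
  exact h

lemma Act.meas_dk (hA : Act μ) (hFm : Measurable F) (s : ℝ) (y : X) :
    Measurable fun θ : ℝ => F (dg s • kk θ • y) :=
  hFm.comp ((hA.meas_g _).comp (hA.meas_kk y))

lemma KI.bd (hF : Reg q F) (hK : KI F) (s θ : ℝ) (y : X) :
    |F (dg s • kk θ • y)| ≤ exp (q * |s|) * F y := by
  rw [abs_of_nonneg (hF.nonneg _)]
  have := hF.hdg s (kk θ • y)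
  rwa [hK θ y] at this

lemma KI.ii (hA : Act μ) (hF : Reg q F) (hK : KI F) (s : ℝ) (y : X) (a b : ℝ) :
    IntervalIntegrable (fun θ => F (dg s • kk θ • y)) volume a b := by
  rw [intervalIntegrable_iff]
  refine Measure.integrableOn_of_bounded (M := exp (q * |s|) * F y) (by simp)
    (hA.meas_dk hF.meas s y).aestronglyMeasurable ?_
  exact Filter.Eventually.of_forall fun θ => hK.bd hF s θ y

lemma arc_int (hA : Act μ) (hF : Reg q F) (hq : 0 ≤ q) (hK : KI F) {s : ℝ} (hs : 0 ≤ s) (y : X) :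
    ∫ φ in (-(π / 4))..(π / 4), F (dg s • kk φ • y) ≤ exp (2 * q) * Pt s F y := by
  have hpi := Real.pi_pos
  have himg : arctan '' Icc (-1) 1 = Icc (-(π / 4)) (π / 4) := by
    apply Subset.antisymm
    · rintro _ ⟨t, ht, rfl⟩
      rw [← Real.arctan_one, ← Real.arctan_neg]
      exact ⟨Real.arctan_mono ht.1, Real.arctan_mono ht.2⟩
    · have := intermediate_value_Icc (show (-1 : ℝ) ≤ 1 by norm_num)
        (Real.continuous_arctan.continuousOn (s := Icc (-1) 1))
      rw [Real.arctan_neg, Real.arctan_one] at this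
      exact this
  rw [intervalIntegral.integral_of_le (by linarith), ← integral_Icc_eq_integral_Ioc, ← himg]
  rw [integral_image_eq_integral_abs_deriv_smul measurableSet_Icc
    (fun x _ => (Real.hasDerivAt_arctan x).hasDerivWithinAt) Real.arctan_injective.injOn
    (fun φ => F (dg s • kk φ • y)), ← integral_indicator measurableSet_Icc]
  refine (le_abs_self _).trans ?_
  refine kernel_bound hA hF hq s y (exp_pos _).le (fun t ht => ?_) fun t ht => ?_
  · by_cases h : t ∈ Icc (-1 : ℝ) 1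
    · rw [indicator_of_mem h]
      have h1 : |t| ≤ 1 := abs_le.2 h
      have h2 := (arc_le hF hq hs h1 y).2
      have h3 := hF.nonneg (dg s • kk (arctan t) • y)
      have h4 := hF.nonneg (dg s • nn t • y)
      have h5 : |1 / (1 + t ^ 2)| ≤ 1 := by
        rw [abs_of_pos (by positivity), div_le_one (by positivity)]
        nlinarith
      rw [smul_eq_mul, abs_mul, abs_abs, abs_of_nonneg h3]
      have h6 : exp (q * (2 * |t|)) ≤ exp (2 * q) := Real.exp_le_exp.2 (by nlinarith)
      calc |1 / (1 + t ^ 2)| * F (dg s • kk (arctan t) • y) ≤ 1 * F (dg s • kk (arctan t) • y) := by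
            gcongr
        _ ≤ exp (q * (2 * |t|)) * F (dg s • nn t • y) := by rw [one_mul]; exact h2
        _ ≤ _ := by gcongr
    · rw [indicator_of_notMem h, abs_zero]
      have h4 := hF.nonneg (dg s • nn t • y)
      positivity
  · apply indicator_of_notMem
    intro h
    have : |t| ≤ 1 := abs_le.2 h
    linarith

lemma periodic_dk (s : ℝ) (F : X → ℝ) (y : X) :
    Function.Periodic (fun θ => F (dg s • kk θ • y)) (2 * π) := fun θ => by
  simp only [kk_periodic]

lemma SS_shift (s : ℝ) (F : X → ℝ) (y : X) (a : ℝ) :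
    ∫ θ in (0 : ℝ)..(2 * π), F (dg s • kk (a + θ) • y) =
      ∫ θ in (0 : ℝ)..(2 * π), F (dg s • kk θ • y) := by
  have h1 := intervalIntegral.integral_comp_add_left (a := 0) (b := 2 * π)
    (fun θ => F (dg s • kk θ • y)) a
  rw [h1, add_zero]
  have h2 := (periodic_dk s F y).intervalIntegral_add_eq a 0
  rw [h2, zero_add]

lemma SS_le (hA : Act μ) (hF : Reg q F) (hq : 0 ≤ q) (hK : KI F) {s : ℝ} (hs : 0 ≤ s) (y : X) :
    ∫ θ in (0 : ℝ)..(2 * π), F (dg s • kk θ • y) ≤ exp (2 * q) *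
      (Pt s F (kk 0 • y) + Pt s F (kk (π / 2) • y) + Pt s F (kk (2 * (π / 2)) • y) +
        Pt s F (kk (3 * (π / 2)) • y)) := by
  have hii := fun a b => hK.ii hA hF s y a b
  have h2 := (periodic_dk s F y).intervalIntegral_add_eq 0 (-(π / 4))
  rw [zero_add] at h2
  rw [h2]
  have e1 := intervalIntegral.integral_add_adjacent_intervals (hii (-(π / 4)) (π / 4))
    (hii (π / 4) (3 * (π / 4)))
  have e2 := intervalIntegral.integral_add_adjacent_intervals (hii (-(π / 4)) (3 * (π / 4)))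
    (hii (3 * (π / 4)) (5 * (π / 4)))
  have e3 := intervalIntegral.integral_add_adjacent_intervals (hii (-(π / 4)) (5 * (π / 4)))
    (hii (5 * (π / 4)) (7 * (π / 4)))
  have e4 : -(π / 4) + 2 * π = 7 * (π / 4) := by ring
  have harc : ∀ a : ℝ, ∫ φ in (-(π / 4) + a)..(π / 4 + a), F (dg s • kk φ • y) ≤
      exp (2 * q) * Pt s F (kk a • y) := by
    intro a
    have h3 := intervalIntegral.integral_comp_add_right (a := -(π / 4)) (b := π / 4)
      (fun θ => F (dg s • kk θ • y)) a
    rw [← h3]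
    have h4 := arc_int hA hF hq hK hs (kk a • y)
    refine le_of_eq_of_le ?_ h4
    congr 1
    ext θ
    rw [kk_add, mul_smul]
  have a0 := harc 0
  have a1 := harc (π / 2)
  have a2 := harc (2 * (π / 2))
  have a3 := harc (3 * (π / 2))
  have t0 : -(π / 4) + 0 = -(π / 4) := by ring
  have t0' : π / 4 + 0 = π / 4 := by ring
  have t1 : -(π / 4) + π / 2 = π / 4 := by ring
  have t1' : π / 4 + π / 2 = 3 * (π / 4) := by ring
  have t2 : -(π / 4) + 2 * (π / 2) = 3 * (π / 4) := by ring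
  have t2' : π / 4 + 2 * (π / 2) = 5 * (π / 4) := by ring
  have t3 : -(π / 4) + 3 * (π / 2) = 5 * (π / 4) := by ring
  have t3' : π / 4 + 3 * (π / 2) = 7 * (π / 4) := by ring
  rw [t0, t0'] at a0
  rw [t1, t1'] at a1
  rw [t2, t2'] at a2
  rw [t3, t3'] at a3
  rw [e4, ← e3, ← e2, ← e1]
  linarith

/-- the maximal bound for the averages over rotations -/
theorem limsup_SS [IsProbabilityMeasure μ] (hA : Act μ) {B ε0 : ℝ} (hG : Gap μ B ε0)
    (hF : Reg q F) (hq : 0 ≤ q) (hK : KI F) (hFi : Integrable F μ) :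
    ∀ᵐ y ∂μ, ∀ δ : ℝ, 0 < δ → ∀ᶠ s : ℝ in atTop,
      SS s F y ≤ 4 * exp (2 * q) * ((∫ x, F x ∂μ) + δ) := by
  set c := ∫ x, F x ∂μ with hc
  have hbase := limsup_real hA hG hF hq hFi
  have h1 : ∀ g : SL2, ∀ᵐ y ∂μ, ∀ δ : ℝ, 0 < δ → ∀ᶠ s : ℝ in atTop,
      PP s F (g • y) < c + δ := fun g => (hA.mp g).quasiMeasurePreserving.ae hbase
  have h2 : ∀ g : SL2, ∀ᵐ y ∂μ, ∀ δ : ℝ, 0 < δ → ∀ᶠ s : ℝ in atTop,
      Pt s F (g • y) ≤ 5 * (c + δ) := by
    intro g
    filter_upwards [h1 (nn (-2) * g), h1 (nn (-1) * g), h1 (nn 0 * g), h1 (nn 1 * g),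
      h1 (nn 2 * g)] with y a b c' d e δ hδ
    filter_upwards [a δ hδ, b δ hδ, c' δ hδ, d δ hδ, e δ hδ] with s a b c' d e
    rw [mul_smul] at a b c' d e
    unfold Pt
    linarith
  filter_upwards [h2 (kk 0), h2 (kk (π / 2)), h2 (kk (2 * (π / 2))), h2 (kk (3 * (π / 2)))]
    with y a b c' d δ hδ
  filter_upwards [a δ hδ, b δ hδ, c' δ hδ, d δ hδ, eventually_ge_atTop 0] with s a b c' d hs
  have h3 := SS_le hA hF hq hK hs y
  have hc0 : 0 ≤ c := integral_nonneg fun y => hF.nonneg y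
  have hpi := Real.pi_gt_three
  unfold SS
  rw [inv_mul_le_iff₀ (by positivity)]
  refine h3.trans ?_
  have h4 : Pt s F (kk 0 • y) + Pt s F (kk (π / 2) • y) + Pt s F (kk (2 * (π / 2)) • y) +
        Pt s F (kk (3 * (π / 2)) • y) ≤ 20 * (c + δ) := by linarith
  have h5 : exp (2 * q) * (Pt s F (kk 0 • y) + Pt s F (kk (π / 2) • y) +
      Pt s F (kk (2 * (π / 2)) • y) + Pt s F (kk (3 * (π / 2)) • y)) ≤
      exp (2 * q) * (20 * (c + δ)) := by gcongr
  refine h5.trans ?_
  have h6 : 0 < exp (2 * q) * (c + δ) := by positivity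
  nlinarith

/-- Fubini for null sets of the action -/
lemma qmp {T : Type} [MeasurableSpace T] (ν : Measure T) [SFinite ν] [SFinite μ] {φ : T × X → X}
    (hφ : Measurable φ) (hmp : ∀ t, MeasurePreserving (fun y => φ (t, y)) μ μ) {p : X → Prop}
    (hp : ∀ᵐ y ∂μ, p y) : ∀ᵐ y ∂μ, ∀ᵐ t ∂ν, p (φ (t, y)) := by
  have h1 : Measure.QuasiMeasurePreserving φ (ν.prod μ) μ := by
    refine ⟨hφ, Measure.AbsolutelyContinuous.mk fun s hs h0 => ?_⟩
    rw [Measure.map_apply hφ hs, Measure.measure_prod_null (hφ hs)]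
    refine Filter.Eventually.of_forall fun t => ?_
    have := (hmp t).measure_preimage hs.nullMeasurableSet
    rw [h0] at this
    exact this
  have h2 := h1.ae hp
  have h3 : ∀ᵐ z ∂(μ.prod ν), p (φ z.swap) :=
    (Measure.measurePreserving_swap (μ := μ) (ν := ν)).quasiMeasurePreserving.ae h2
  exact Measure.ae_ae_of_ae_prod h3

/-- the average along short horocycles -/
def PPk (κ s : ℝ) (F : X → ℝ) (y : X) : ℝ := ∫ u, tent u * F (dg s • nn (κ * u) • y)

lemma PPk_eq {κ : ℝ} (hκ : 0 < κ) (s : ℝ) (F : X → ℝ) (y : X) :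
    PPk κ s F y = PP (s + log κ / 2) F (dg (-(log κ / 2)) • y) := by
  have hg : ∀ u : ℝ, nn (κ * u) = dg (log κ / 2) * (nn u * dg (-(log κ / 2))) := by
    intro u
    have : exp (2 * (log κ / 2)) = κ := by
      rw [show 2 * (log κ / 2) = log κ by ring]
      exact Real.exp_log hκ
    rw [← mul_assoc, dg_nn, this, mul_assoc, ← dg_add, add_neg_cancel, dg_zero, mul_one]
  unfold PPk PP
  congr 1
  ext u
  rw [hg]
  simp only [mul_smul, dg_add]

lemma PPk_compare (hA : Act μ) (hF : Reg q F) (hq : 0 ≤ q) {N : ℝ} (hN : ∀ y, F y ≤ N)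
    {κ : ℝ} (hκ : 0 < κ) (hκ1 : κ ≤ 1) {s : ℝ} (hs : 0 ≤ s) (y : X) :
    |(2 * π)⁻¹ * (∫ θ in (0 : ℝ)..(2 * π), PPk κ s F (kk θ • y)) - SS s F y| ≤
      (exp (q * (2 * κ)) - 1) * N := by
  have hpi := Real.pi_pos
  have h2pi : (0 : ℝ) < 2 * π := by positivity
  have hN0 : 0 ≤ N := (hF.nonneg y).trans (hN y)
  set ν : Measure ℝ := volume.restrict (Ioc 0 (2 * π)) with hν
  -- joint integrability
  have hm1 : Measurable fun p : ℝ × ℝ => tent p.2 * F (dg s • nn (κ * p.2) • kk p.1 • y) := by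
    refine (tent_continuous.measurable.comp measurable_snd).mul (hF.meas.comp
      ((hA.meas_g _).comp ?_))
    exact hA.nnm.comp ((measurable_snd.const_mul κ).prodMk ((hA.meas_kk y).comp measurable_fst))
  have hm2 : Measurable fun p : ℝ × ℝ => tent p.2 * F (dg s • kk (arctan (κ * p.2) + p.1) • y) := by
    refine (tent_continuous.measurable.comp measurable_snd).mul (hF.meas.comp
      ((hA.meas_g _).comp ((hA.meas_kk y).comp ?_)))
    exact (Real.continuous_arctan.measurable.comp (measurable_snd.const_mul κ)).add measurable_fst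
  have hdom : Integrable (fun p : ℝ × ℝ => N * tent p.2) (ν.prod volume) :=
    (integrable_const N).mul_prod tent_integrable
  have hi1 : Integrable (fun p : ℝ × ℝ => tent p.2 * F (dg s • nn (κ * p.2) • kk p.1 • y))
      (ν.prod volume) := by
    refine hdom.mono' hm1.aestronglyMeasurable (Filter.Eventually.of_forall fun p => ?_)
    rw [norm_eq_abs, abs_of_nonneg (mul_nonneg (tent_nonneg _) (hF.nonneg _)), mul_comm]
    exact mul_le_mul_of_nonneg_right (hN _) (tent_nonneg _)
  have hi2 : Integrable (fun p : ℝ × ℝ => tent p.2 * F (dg s • kk (arctan (κ * p.2) + p.1) • y))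
      (ν.prod volume) := by
    refine hdom.mono' hm2.aestronglyMeasurable (Filter.Eventually.of_forall fun p => ?_)
    rw [norm_eq_abs, abs_of_nonneg (mul_nonneg (tent_nonneg _) (hF.nonneg _)), mul_comm]
    exact mul_le_mul_of_nonneg_right (hN _) (tent_nonneg _)
  have e1 : ∫ θ in (0 : ℝ)..(2 * π), PPk κ s F (kk θ • y) =
      ∫ p, tent p.2 * F (dg s • nn (κ * p.2) • kk p.1 • y) ∂(ν.prod volume) := by
    rw [integral_prod _ hi1, intervalIntegral.integral_of_le h2pi.le]
    rfl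
  have e2 : ∫ θ in (0 : ℝ)..(2 * π), F (dg s • kk θ • y) =
      ∫ p, tent p.2 * F (dg s • kk (arctan (κ * p.2) + p.1) • y) ∂(ν.prod volume) := by
    rw [integral_prod_symm _ hi2]
    have h3 : (fun u : ℝ => ∫ θ, tent u * F (dg s • kk (arctan (κ * u) + θ) • y) ∂ν) =
        fun u => tent u * ∫ θ in (0 : ℝ)..(2 * π), F (dg s • kk θ • y) := by
      ext u
      rw [integral_const_mul, ← SS_shift s F y (arctan (κ * u)),
        intervalIntegral.integral_of_le h2pi.le]
    simp only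
    rw [h3, integral_mul_const, integral_tent, one_mul]
  unfold SS
  rw [← mul_sub, e1, e2, ← integral_sub hi1 hi2, abs_mul, abs_of_pos (by positivity),
    inv_mul_le_iff₀ h2pi, ← norm_eq_abs]
  set E := exp (q * (2 * κ)) - 1 with hE
  have hbd : ∀ p : ℝ × ℝ, ‖tent p.2 * F (dg s • nn (κ * p.2) • kk p.1 • y) -
      tent p.2 * F (dg s • kk (arctan (κ * p.2) + p.1) • y)‖ ≤ E * (N * tent p.2) := by
    intro p
    rw [← mul_sub, norm_mul, norm_eq_abs, norm_eq_abs, abs_of_nonneg (tent_nonneg _)]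
    rcases le_or_gt 1 |p.2| with h | h
    · rw [tent_zero_of h]
      simp
    · have hk : |κ * p.2| ≤ κ := by
        rw [abs_mul, abs_of_pos hκ]
        nlinarith
      have h4 := arc_le hF hq hs (hk.trans hκ1) (kk p.1 • y)
      rw [← mul_smul (kk _) (kk _), ← kk_add] at h4
      have h5 : exp (q * (2 * |κ * p.2|)) ≤ exp (q * (2 * κ)) :=
        Real.exp_le_exp.2 (by gcongr)
      set a := F (dg s • nn (κ * p.2) • kk p.1 • y)
      set b := F (dg s • kk (arctan (κ * p.2) + p.1) • y)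
      have ha0 : 0 ≤ a := hF.nonneg _
      have hb0 : 0 ≤ b := hF.nonneg _
      have haN : a ≤ N := hN _
      have hbN : b ≤ N := hN _
      have h1 : a ≤ (E + 1) * b := h4.1.trans (by rw [hE]; nlinarith)
      have h2 : b ≤ (E + 1) * a := h4.2.trans (by rw [hE]; nlinarith)
      have hE0 : 0 ≤ E := by
        have : 1 ≤ exp (q * (2 * κ)) := Real.one_le_exp (by positivity)
        linarith
      have h6 : |a - b| ≤ E * N := by
        rw [abs_le]
        constructor
        · nlinarith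
        · nlinarith
      have h7 := tent_nonneg p.2
      calc tent p.2 * |a - b| ≤ tent p.2 * (E * N) := by gcongr
        _ = _ := by ring
  refine (norm_integral_le_of_norm_le (hdom.const_mul E) (Filter.Eventually.of_forall hbd)).trans
    (le_of_eq ?_)
  rw [integral_const_mul]
  have h8 : ∫ p : ℝ × ℝ, N * tent p.2 ∂(ν.prod volume) = (2 * π * N) * 1 := by
    rw [integral_prod_mul (fun _ : ℝ => N) tent, integral_tent]
    congr 1
    rw [hν, integral_const]
    simp [Measure.real, hpi.le]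
  rw [h8]
  ring

/-- convergence of the averages over rotations for bounded functions -/
theorem tendsto_SS [IsProbabilityMeasure μ] (hA : Act μ) {B ε0 : ℝ} (hG : Gap μ B ε0)
    (hF : Reg q F) (hq : 0 ≤ q) (hK : KI F) {N : ℝ} (hN : ∀ y, F y ≤ N) :
    ∀ᵐ y ∂μ, Tendsto (fun s : ℝ => SS s F y) atTop (𝓝 (∫ x, F x ∂μ)) := by
  set c := ∫ x, F x ∂μ with hc
  have hpi := Real.pi_pos
  have h2pi : (0 : ℝ) < 2 * π := by positivity
  have hbase := tendsto_PP hA hG hF hq hN
  have h1 : ∀ n : ℕ, ∀ᵐ y ∂μ, ∀ᵐ θ ∂(volume : Measure ℝ),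
      Tendsto (fun s : ℝ => PPk (1 / ((n : ℝ) + 1)) s F (kk θ • y)) atTop (𝓝 c) := by
    intro n
    have hκ : (0 : ℝ) < 1 / ((n : ℝ) + 1) := by positivity
    have h2 : ∀ᵐ y ∂μ, Tendsto (fun s : ℝ => PPk (1 / ((n : ℝ) + 1)) s F y) atTop (𝓝 c) := by
      have h3 := (hA.mp (dg (-(log (1 / ((n : ℝ) + 1)) / 2)))).quasiMeasurePreserving.ae hbase
      filter_upwards [h3] with y hy
      simp only [PPk_eq hκ]
      exact hy.comp (tendsto_atTop_add_const_right _ _ tendsto_id)
    exact qmp volume (φ := fun p : ℝ × X => kk p.1 • p.2) hA.kkm (fun t => hA.mp (kk t)) h2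
  rw [← ae_all_iff] at h1
  filter_upwards [h1] with y hy
  -- convergence of the smoothed averages
  have hT : ∀ n : ℕ, Tendsto (fun s : ℝ => (2 * π)⁻¹ * ∫ θ in (0 : ℝ)..(2 * π),
      PPk (1 / ((n : ℝ) + 1)) s F (kk θ • y)) atTop (𝓝 c) := by
    intro n
    have hκ : (0 : ℝ) < 1 / ((n : ℝ) + 1) := by positivity
    have h4 : Tendsto (fun s : ℝ => ∫ θ in (0 : ℝ)..(2 * π),
        PPk (1 / ((n : ℝ) + 1)) s F (kk θ • y)) atTop (𝓝 (∫ θ in (0 : ℝ)..(2 * π), c)) := by
      refine intervalIntegral.tendsto_integral_filter_of_dominated_convergence (fun _ => N)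
        (Filter.Eventually.of_forall fun s => ?_) (Filter.Eventually.of_forall fun s => ?_)
        intervalIntegrable_const ?_
      · have h5 : Measurable fun θ : ℝ => PPk (1 / ((n : ℝ) + 1)) s F (kk θ • y) := by
          simp only [PPk_eq hκ]
          exact (meas_PP hA hF.meas _).comp ((hA.meas_g _).comp (hA.meas_kk y))
        exact h5.aestronglyMeasurable
      · refine Filter.Eventually.of_forall fun θ _ => ?_
        rw [PPk_eq hκ, norm_eq_abs, abs_of_nonneg (hF.PP_nonneg _ _)]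
        have h6 := PP_const_sub hA hF hq (s + log (1 / ((n : ℝ) + 1)) / 2) N
          (dg (-(log (1 / ((n : ℝ) + 1)) / 2)) • kk θ • y)
        have h7 : 0 ≤ PP (s + log (1 / ((n : ℝ) + 1)) / 2) (fun x => N - F x)
          (dg (-(log (1 / ((n : ℝ) + 1)) / 2)) • kk θ • y) :=
          integral_nonneg fun t => mul_nonneg (tent_nonneg _) (sub_nonneg.2 (hN _))
        linarith
      · filter_upwards [hy n] with θ hθ _
        exact hθ
    have h8 := h4.const_mul (2 * π)⁻¹
    rw [intervalIntegral.integral_const, smul_eq_mul, sub_zero, ← mul_assoc,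
      inv_mul_cancel₀ h2pi.ne', one_mul] at h8
    exact h8
  rw [Metric.tendsto_nhds]
  intro ε hε
  -- choice of n
  have hlim : Tendsto (fun n : ℕ => (exp (q * (2 * (1 / ((n : ℝ) + 1)))) - 1) * N) atTop
      (𝓝 ((exp (q * (2 * 0)) - 1) * N)) := by
    refine Tendsto.mul_const _ (Tendsto.sub_const ?_ 1)
    refine (Real.continuous_exp.tendsto _).comp ?_
    exact (tendsto_one_div_add_atTop_nhds_zero_nat.const_mul 2).const_mul q
  have hz : (exp (q * (2 * 0)) - 1) * N = 0 := by simp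
  rw [hz] at hlim
  obtain ⟨n, hn⟩ := (hlim.eventually (gt_mem_nhds (show (0 : ℝ) < ε / 2 by positivity))).exists
  filter_upwards [Metric.tendsto_nhds.1 (hT n) (ε / 2) (by positivity), eventually_ge_atTop 0]
    with s hs hs0
  have hκ : (0 : ℝ) < 1 / ((n : ℝ) + 1) := by positivity
  have hκ1 : 1 / ((n : ℝ) + 1) ≤ 1 := by
    rw [div_le_one (by positivity)]
    linarith [(Nat.cast_nonneg n : (0 : ℝ) ≤ n)]
  have h9 := PPk_compare hA hF hq hN hκ hκ1 hs0 y
  rw [Real.dist_eq] at hs ⊢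
  rw [abs_lt] at hs ⊢
  rw [abs_le] at h9
  constructor <;> linarith [h9.1, h9.2, hs.1, hs.2]

end

end Pool.Agent.W745
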