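import Pool.Agent.W745.Cartan
import Pool.Agent.W745.KAvg

/-! Averages over norm balls of regular functions. -/

open MeasureTheory Set Filter Topology Real
open scoped ENNReal NNReal

namespace Pool.Agent.W745

noncomputable section

variable {X : Type} [MeasurableSpace X] {μ : Measure X} [MulAction SL2 X]
variable {q : ℝ} {F : X → ℝ}
variable [MeasurableSpace SL2] [BorelSpace SL2]

/-- a jointly measurable measure preserving action -/
structure GAct (μ : Measure X) : Prop where
  meas : Measurable (fun p : SL2 × X => p.1 • p.2)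
  mp : ∀ g : SL2, MeasurePreserving (fun x : X => g • x) μ μ

omit [MeasurableSpace SL2] [BorelSpace SL2] in
lemma cont_of_entries {f : ℝ → SL2} (h : ∀ i j, Continuous fun t => (f t).1 i j) :
    Continuous f := by
  rw [closedEmb.isInducing.continuous_iff]
  exact continuous_matrix h

omit [MeasurableSpace SL2] [BorelSpace SL2] in
lemma nn_continuous : Continuous nn := by
  apply cont_of_entries
  intro i j
  fin_cases i <;> fin_cases j
  · simpa using continuous_const
  · simpa using continuous_id'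
  · simpa using continuous_const
  · simpa using continuous_const

omit [MeasurableSpace SL2] [BorelSpace SL2] in
lemma kk_continuous : Continuous kk := by
  apply cont_of_entries
  intro i j
  fin_cases i <;> fin_cases j
  · simpa using Real.continuous_cos
  · simpa using Real.continuous_sin
  · refine (Real.continuous_sin.neg).congr fun t => ?_
    simp
  · simpa using Real.continuous_cos

lemma GAct.act (h : GAct μ) : Act μ where
  nnm := h.meas.comp ((nn_continuous.measurable.comp measurable_fst).prodMk measurable_snd)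
  kkm := h.meas.comp ((kk_continuous.measurable.comp measurable_fst).prodMk measurable_snd)
  mp := h.mp

lemma GAct.meas_orbit (h : GAct μ) (x : X) : Measurable fun g : SL2 => g • x :=
  h.meas.comp (measurable_id.prodMk measurable_const)

/-- the ball averages -/
def AR (m : Measure SL2) (R : ℝ) (f : X → ℝ) (x : X) : ℝ :=
  (m (FR R)).toReal⁻¹ * ∫ g in FR R, f (g • x) ∂m

omit [MeasurableSpace SL2] [BorelSpace SL2] in
lemma orbit_bd (hF : Reg q F) (hq : 0 ≤ q) (hK : KI F) {R : ℝ} {h : SL2} (hh : h ∈ FR R) (y : X) :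
    F (h • y) ≤ exp (q * (Real.log R / 2)) * F y := by
  obtain ⟨θ₁, s, θ₂, hs, rfl⟩ := cartan h
  have h1 : rr s < R := by
    have : NN (kk θ₁ * dg s * kk θ₂) < R := hh
    rwa [NN_kdk] at this
  have h2 : exp (2 * s) < R := by
    have : exp (2 * s) < rr s := by
      unfold rr
      linarith [Real.exp_pos (-(2 * s))]
    linarith
  have h3 : 2 * s < Real.log R := by
    rw [← Real.log_exp (2 * s)]
    exact Real.log_lt_log (Real.exp_pos _) h2
  rw [mul_smul, mul_smul, hK]
  refine (hF.hdg s _).trans ?_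
  rw [hK, abs_of_nonneg hs]
  have := hF.nonneg y
  gcongr
  linarith

/-- average of `F (h k x)` over rotations `k` -/
def Sh (F : X → ℝ) (x : X) (h : SL2) : ℝ :=
  (2 * π)⁻¹ * ∫ θ in (0 : ℝ)..(2 * π), F (h • kk θ • x)

omit [MeasurableSpace SL2] [BorelSpace SL2] in
lemma Sh_eq (hK : KI F) (x : X) (h : SL2) : ∃ s : ℝ, 0 ≤ s ∧ NN h = rr s ∧ Sh F x h = SS s F x := by
  obtain ⟨θ₁, s, θ₂, hs, rfl⟩ := cartan h
  refine ⟨s, hs, NN_kdk _ _ _, ?_⟩
  unfold Sh SS
  congr 1
  rw [← SS_shift s F x θ₂]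
  congr 1
  ext θ
  rw [mul_smul, mul_smul, hK, kk_add, mul_smul]

lemma FR_fin {m : Measure SL2} {κ : ℝ} (hm : HM m κ) (R : ℝ) : m (FR R) ≠ ⊤ := by
  have h1 : FR R ⊆ FR (max R 3) := fun g (hg : NN g < R) => lt_of_lt_of_le hg (le_max_left _ _)
  refine ne_top_of_le_ne_top ?_ (measure_mono h1)
  rw [hm.vol _ (by linarith [le_max_right R 3])]
  exact ENNReal.ofReal_ne_top

lemma FR_real {m : Measure SL2} {κ : ℝ} (hm : HM m κ) {R : ℝ} (hR : 2 < R) :
    (m (FR R)).toReal = κ * (R - 2) := by
  rw [hm.vol R hR, ENNReal.toReal_ofReal]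
  have := hm.pos
  have : 0 ≤ R - 2 := by linarith
  positivity

lemma sfin {m : Measure SL2} {κ : ℝ} (hm : HM m κ) : SigmaFinite m := by
  refine ⟨⟨⟨fun n => FR n, fun n => trivial, fun n => lt_top_iff_ne_top.2 (FR_fin hm _), ?_⟩⟩⟩
  rw [eq_univ_iff_forall]
  intro g
  obtain ⟨n, hn⟩ := exists_nat_gt (NN g)
  exact mem_iUnion.2 ⟨n, hn⟩

lemma ioF (hG : GAct μ) (hF : Reg q F) (hq : 0 ≤ q) (hK : KI F) {m : Measure SL2} {κ : ℝ}
    (hm : HM m κ) (R : ℝ) (x : X) : IntegrableOn (fun g : SL2 => F (g • x)) (FR R) m := by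
  refine Measure.integrableOn_of_bounded (M := exp (q * (Real.log R / 2)) * F x) (FR_fin hm R)
    (hF.meas.comp (hG.meas_orbit x)).aestronglyMeasurable ?_
  rw [ae_restrict_iff' (FR_meas R)]
  refine Filter.Eventually.of_forall fun h hh => ?_
  rw [norm_eq_abs, abs_of_nonneg (hF.nonneg _)]
  exact orbit_bd hF hq hK hh x

lemma Sh_int (hG : GAct μ) (hF : Reg q F) (hq : 0 ≤ q) (hK : KI F) {m : Measure SL2} {κ : ℝ}
    (hm : HM m κ) (R : ℝ) (x : X) :
    IntegrableOn (Sh F x) (FR R) m ∧ ∫ g in FR R, F (g • x) ∂m = ∫ g in FR R, Sh F x g ∂m := by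
  have := sfin hm
  have hpi := Real.pi_pos
  have h2pi : (0 : ℝ) < 2 * π := by positivity
  set ν : Measure ℝ := volume.restrict (Ioc 0 (2 * π)) with hν
  set mR := m.restrict (FR R) with hmR
  have : IsFiniteMeasure mR := ⟨by
    rw [hmR, Measure.restrict_apply_univ]
    exact lt_top_iff_ne_top.2 (FR_fin hm R)⟩
  have hjm : Measurable fun p : ℝ × SL2 => F (p.2 • kk p.1 • x) := by
    refine hF.meas.comp (hG.meas.comp (measurable_snd.prodMk ?_))
    exact (hG.act.meas_kk x).comp measurable_fst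
  have hji : Integrable (fun p : ℝ × SL2 => F (p.2 • kk p.1 • x)) (ν.prod mR) := by
    refine Integrable.of_bound hjm.aestronglyMeasurable (exp (q * (Real.log R / 2)) * F x) ?_
    have h1 : ∀ᵐ p ∂(ν.prod mR), p.2 ∈ FR R := by
      have h2 : ∀ᵐ g ∂mR, g ∈ FR R := ae_restrict_mem (FR_meas R)
      exact (Measure.quasiMeasurePreserving_snd (μ := ν) (ν := mR)).ae h2
    filter_upwards [h1] with p hp
    rw [norm_eq_abs, abs_of_nonneg (hF.nonneg _)]
    have := orbit_bd hF hq hK hp (kk p.1 • x)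
    rwa [hK] at this
  have hswap := integral_integral_swap (f := fun (θ : ℝ) (g : SL2) => F (g • kk θ • x)) hji
  have e1 : ∀ θ : ℝ, ∫ g, F (g • kk θ • x) ∂mR = ∫ g, F (g • x) ∂mR := by
    intro θ
    have h3 := (hm.right (kk θ)).setIntegral_preimage_emb
      (MeasurableEquiv.mulRight (kk θ)).measurableEmbedding (fun g => F (g • x)) (FR R)
    have h4 : (fun h : SL2 => h * kk θ) ⁻¹' (FR R) = FR R := by
      ext h
      simp only [FR, mem_preimage, mem_ofPred_eq, NN_mul_kk]
    rw [h4] at h3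
    rw [hmR, ← h3]
    congr 1
    ext g
    rw [mul_smul]
  constructor
  · have h5 := (hji.integral_prod_right).const_mul (2 * π)⁻¹
    refine h5.congr (Filter.Eventually.of_forall fun g => ?_)
    simp only [Sh]
    rw [intervalIntegral.integral_of_le h2pi.le]
  · have h6 : ∫ g in FR R, Sh F x g ∂m = (2 * π)⁻¹ * ∫ θ, ∫ g, F (g • kk θ • x) ∂mR ∂ν := by
      rw [hswap, ← integral_const_mul]
      congr 1
      ext g
      simp only [Sh]
      rw [intervalIntegral.integral_of_le h2pi.le]
    rw [h6]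
    simp only [e1]
    rw [integral_const]
    have h7 : ν.real univ = 2 * π := by
      rw [hν]
      simp [Measure.real, hpi.le]
    rw [h7, smul_eq_mul, ← mul_assoc, inv_mul_cancel₀ h2pi.ne', one_mul]

lemma avg_le {m : Measure SL2} {κ : ℝ} (hm : HM m κ) {u : SL2 → ℝ}
    (hu : ∀ R, IntegrableOn u (FR R) m) {b R0 C : ℝ} (h1 : ∀ h, R0 ≤ NN h → u h ≤ b)
    (h2 : ∀ h, NN h < R0 → u h ≤ C) {δ : ℝ} (hδ : 0 < δ) :
    ∀ᶠ R in atTop, (m (FR R)).toReal⁻¹ * ∫ g in FR R, u g ∂m ≤ b + δ := by
  set D := (|C| + |b|) * (m (FR R0)).toReal with hD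
  have hD0 : 0 ≤ D := by positivity
  have hκ := hm.pos
  have hlim : Tendsto (fun R : ℝ => κ * (R - 2)) atTop atTop :=
    Tendsto.const_mul_atTop hκ (tendsto_atTop_add_const_right _ _ tendsto_id)
  filter_upwards [eventually_gt_atTop 2, eventually_ge_atTop R0,
    hlim.eventually_ge_atTop (D / δ), hlim.eventually_gt_atTop 0] with R hR hR0 hRD hpos
  rw [FR_real hm hR, inv_mul_le_iff₀ hpos]
  have hconst : IntegrableOn (fun _ : SL2 => b) (FR R) m :=
    integrableOn_const (FR_fin hm R)
  have hind : IntegrableOn (indicator (FR R0) fun _ : SL2 => |C| + |b|) (FR R) m :=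
    (integrableOn_const (FR_fin hm R)).indicator (FR_meas R0)
  have hle : ∫ g in FR R, u g ∂m ≤
      ∫ g in FR R, (b + indicator (FR R0) (fun _ => |C| + |b|) g) ∂m := by
    refine setIntegral_mono (hu R) (hconst.add hind) fun g => ?_
    simp only [indicator]
    split_ifs with h
    · have := h2 g h
      linarith [le_abs_self C, neg_abs_le b]
    · have := h1 g (not_lt.1 h)
      linarith
  refine hle.trans ?_
  have e1 := integral_add hconst hind
  rw [e1]
  have e2 : ∫ g in FR R, indicator (FR R0) (fun _ => |C| + |b|) g ∂m = D := by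
    rw [setIntegral_indicator (FR_meas R0)]
    have : FR R ∩ FR R0 = FR R0 := by
      apply inter_eq_right.2
      intro g (hg : NN g < R0)
      exact lt_of_lt_of_le hg hR0
    rw [this, setIntegral_const, smul_eq_mul, hD, Measure.real]
    ring
  have e3 : ∫ g in FR R, b ∂m = κ * (R - 2) * b := by
    rw [setIntegral_const, smul_eq_mul, Measure.real, FR_real hm hR]
  rw [e2, e3]
  rw [div_le_iff₀ hδ] at hRD
  linarith

lemma limsup_AR (hG : GAct μ) (hF : Reg q F) (hq : 0 ≤ q) (hK : KI F) {m : Measure SL2} {κ : ℝ}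
    (hm : HM m κ) {x : X} {b : ℝ} (hb : ∀ᶠ s : ℝ in atTop, SS s F x ≤ b) {δ : ℝ} (hδ : 0 < δ) :
    ∀ᶠ R in atTop, AR m R F x ≤ b + δ := by
  obtain ⟨s0, hs0⟩ := eventually_atTop.1 hb
  set s1 := max s0 0 with hs1
  have hpi := Real.pi_pos
  have key := avg_le hm (u := Sh F x) (fun R => (Sh_int hG hF hq hK hm R x).1)
    (b := b) (R0 := rr s1 + 1) (C := exp (q * (Real.log (rr s1 + 1) / 2)) * F x) (fun h hh => by
      obtain ⟨s, hs, h1, h2⟩ := Sh_eq hK x h
      rw [h2]
      apply hs0
      rw [h1] at hh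
      have := rr_lt (le_max_right s0 0) hs (show rr s1 < rr s by linarith)
      exact (le_max_left s0 0).trans this.le) (fun h hh => by
      unfold Sh
      rw [inv_mul_le_iff₀ (by positivity)]
      have h3 : ‖∫ θ in (0 : ℝ)..(2 * π), F (h • kk θ • x)‖ ≤
          (exp (q * (Real.log (rr s1 + 1) / 2)) * F x) * |2 * π - 0| := by
        apply intervalIntegral.norm_integral_le_of_norm_le_const
        intro θ _
        rw [norm_eq_abs, abs_of_nonneg (hF.nonneg _)]
        have := orbit_bd hF hq hK hh (kk θ • x)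
        rwa [hK] at this
      rw [sub_zero, abs_of_pos (by positivity), norm_eq_abs] at h3
      calc _ ≤ _ := le_abs_self _
        _ ≤ _ := h3
        _ = _ := by ring) hδ
  filter_upwards [key] with R hR
  unfold AR
  rw [(Sh_int hG hF hq hK hm R x).2]
  exact hR

lemma liminf_AR (hG : GAct μ) (hF : Reg q F) (hq : 0 ≤ q) (hK : KI F) {m : Measure SL2} {κ : ℝ}
    (hm : HM m κ) {x : X} {b : ℝ} (hb : ∀ᶠ s : ℝ in atTop, b ≤ SS s F x) {δ : ℝ} (hδ : 0 < δ) :
    ∀ᶠ R in atTop, b - δ ≤ AR m R F x := by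
  obtain ⟨s0, hs0⟩ := eventually_atTop.1 hb
  set s1 := max s0 0 with hs1
  have hpi := Real.pi_pos
  have key := avg_le hm (u := fun g => -Sh F x g) (fun R => (Sh_int hG hF hq hK hm R x).1.neg)
    (b := -b) (R0 := rr s1 + 1) (C := 0) (fun h hh => by
      obtain ⟨s, hs, h1, h2⟩ := Sh_eq hK x h
      rw [h2]
      apply neg_le_neg
      apply hs0
      rw [h1] at hh
      have := rr_lt (le_max_right s0 0) hs (show rr s1 < rr s by linarith)
      exact (le_max_left s0 0).trans this.le) (fun h hh => by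
      rw [neg_nonpos]
      unfold Sh
      refine mul_nonneg (by positivity) ?_
      exact intervalIntegral.integral_nonneg (by positivity) fun θ _ => hF.nonneg _) hδ
  filter_upwards [key] with R hR
  unfold AR
  rw [(Sh_int hG hF hq hK hm R x).2]
  rw [integral_neg] at hR
  linarith

lemma tendsto_AR (hG : GAct μ) (hF : Reg q F) (hq : 0 ≤ q) (hK : KI F) {m : Measure SL2} {κ : ℝ}
    (hm : HM m κ) {x : X} {c : ℝ} (hc : Tendsto (fun s : ℝ => SS s F x) atTop (𝓝 c)) :
    Tendsto (fun R => AR m R F x) atTop (𝓝 c) := by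
  rw [Metric.tendsto_nhds] at hc ⊢
  intro ε hε
  have h1 := hc (ε / 3) (by positivity)
  have h2 := limsup_AR hG hF hq hK hm (x := x) (b := c + ε / 3) (by
    filter_upwards [h1] with s hs
    rw [Real.dist_eq, abs_lt] at hs
    linarith) (δ := ε / 3) (by positivity)
  have h3 := liminf_AR hG hF hq hK hm (x := x) (b := c - ε / 3) (by
    filter_upwards [h1] with s hs
    rw [Real.dist_eq, abs_lt] at hs
    linarith) (δ := ε / 3) (by positivity)
  filter_upwards [h2, h3] with R a b
  rw [Real.dist_eq, abs_lt]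
  constructor <;> linarith

end

end Pool.Agent.W745
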