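import Mathlib

/-! One-parameter subgroups of `SL(2,ℝ)` and identities between them. -/

open Real

namespace Pool.Agent.W745

/-- the group `SL(2,ℝ)` -/
abbrev SL2 := Matrix.SpecialLinearGroup (Fin 2) ℝ

noncomputable section

/-- upper unipotent -/
def nn (t : ℝ) : SL2 := ⟨!![1, t; 0, 1], by simp [Matrix.det_fin_two]⟩

/-- lower unipotent -/
def nm (v : ℝ) : SL2 := ⟨!![1, 0; v, 1], by simp [Matrix.det_fin_two]⟩

/-- diagonal -/
def dg (s : ℝ) : SL2 := ⟨!![exp s, 0; 0, exp (-s)], by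
  simp [Matrix.det_fin_two, ← Real.exp_add]⟩

/-- rotation -/
def kk (θ : ℝ) : SL2 := ⟨!![cos θ, sin θ; -sin θ, cos θ], by
  simp only [Matrix.det_fin_two_of]; nlinarith [sin_sq_add_cos_sq θ]⟩

lemma sl2_ext {g h : SL2} (h00 : g.1 0 0 = h.1 0 0) (h01 : g.1 0 1 = h.1 0 1)
    (h10 : g.1 1 0 = h.1 1 0) (h11 : g.1 1 1 = h.1 1 1) : g = h := by
  apply Subtype.ext
  ext i j
  fin_cases i <;> fin_cases j <;> assumption

@[simp] lemma nn_00 (t : ℝ) : (nn t).1 0 0 = 1 := rfl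
@[simp] lemma nn_01 (t : ℝ) : (nn t).1 0 1 = t := rfl
@[simp] lemma nn_10 (t : ℝ) : (nn t).1 1 0 = 0 := rfl
@[simp] lemma nn_11 (t : ℝ) : (nn t).1 1 1 = 1 := rfl
@[simp] lemma nm_00 (t : ℝ) : (nm t).1 0 0 = 1 := rfl
@[simp] lemma nm_01 (t : ℝ) : (nm t).1 0 1 = 0 := rfl
@[simp] lemma nm_10 (t : ℝ) : (nm t).1 1 0 = t := rfl
@[simp] lemma nm_11 (t : ℝ) : (nm t).1 1 1 = 1 := rfl
@[simp] lemma dg_00 (t : ℝ) : (dg t).1 0 0 = exp t := rfl
@[simp] lemma dg_01 (t : ℝ) : (dg t).1 0 1 = 0 := rfl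
@[simp] lemma dg_10 (t : ℝ) : (dg t).1 1 0 = 0 := rfl
@[simp] lemma dg_11 (t : ℝ) : (dg t).1 1 1 = exp (-t) := rfl
@[simp] lemma kk_00 (t : ℝ) : (kk t).1 0 0 = cos t := rfl
@[simp] lemma kk_01 (t : ℝ) : (kk t).1 0 1 = sin t := rfl
@[simp] lemma kk_10 (t : ℝ) : (kk t).1 1 0 = -sin t := rfl
@[simp] lemma kk_11 (t : ℝ) : (kk t).1 1 1 = cos t := rfl

@[simp] lemma mul_00 (g h : SL2) : (g * h).1 0 0 = g.1 0 0 * h.1 0 0 + g.1 0 1 * h.1 1 0 := by
  simp [Matrix.SpecialLinearGroup.coe_mul, Matrix.mul_apply, Fin.sum_univ_two]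
@[simp] lemma mul_01 (g h : SL2) : (g * h).1 0 1 = g.1 0 0 * h.1 0 1 + g.1 0 1 * h.1 1 1 := by
  simp [Matrix.SpecialLinearGroup.coe_mul, Matrix.mul_apply, Fin.sum_univ_two]
@[simp] lemma mul_10 (g h : SL2) : (g * h).1 1 0 = g.1 1 0 * h.1 0 0 + g.1 1 1 * h.1 1 0 := by
  simp [Matrix.SpecialLinearGroup.coe_mul, Matrix.mul_apply, Fin.sum_univ_two]
@[simp] lemma mul_11 (g h : SL2) : (g * h).1 1 1 = g.1 1 0 * h.1 0 1 + g.1 1 1 * h.1 1 1 := by
  simp [Matrix.SpecialLinearGroup.coe_mul, Matrix.mul_apply, Fin.sum_univ_two]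
@[simp] lemma one_00 : (1 : SL2).1 0 0 = 1 := by simp
@[simp] lemma one_01 : (1 : SL2).1 0 1 = 0 := by simp
@[simp] lemma one_10 : (1 : SL2).1 1 0 = 0 := by simp
@[simp] lemma one_11 : (1 : SL2).1 1 1 = 1 := by simp
@[simp] lemma inv_00 (g : SL2) : (g⁻¹).1 0 0 = g.1 1 1 := by
  simp [Matrix.SpecialLinearGroup.coe_inv, Matrix.adjugate_fin_two]
@[simp] lemma inv_01 (g : SL2) : (g⁻¹).1 0 1 = -g.1 0 1 := by
  simp [Matrix.SpecialLinearGroup.coe_inv, Matrix.adjugate_fin_two]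
@[simp] lemma inv_10 (g : SL2) : (g⁻¹).1 1 0 = -g.1 1 0 := by
  simp [Matrix.SpecialLinearGroup.coe_inv, Matrix.adjugate_fin_two]
@[simp] lemma inv_11 (g : SL2) : (g⁻¹).1 1 1 = g.1 0 0 := by
  simp [Matrix.SpecialLinearGroup.coe_inv, Matrix.adjugate_fin_two]

lemma det_eq (g : SL2) : g.1 0 0 * g.1 1 1 - g.1 0 1 * g.1 1 0 = 1 := by
  have := g.2
  rwa [Matrix.det_fin_two] at this

lemma nn_add (s t : ℝ) : nn (s + t) = nn s * nn t := by
  apply sl2_ext <;> simp [add_comm]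
lemma nn_zero : nn 0 = 1 := by apply sl2_ext <;> simp
lemma nn_neg (t : ℝ) : nn (-t) = (nn t)⁻¹ := by apply sl2_ext <;> simp
lemma nm_add (s t : ℝ) : nm (s + t) = nm s * nm t := by
  apply sl2_ext <;> simp
lemma nm_zero : nm 0 = 1 := by apply sl2_ext <;> simp
lemma nm_neg (t : ℝ) : nm (-t) = (nm t)⁻¹ := by apply sl2_ext <;> simp
lemma dg_add (s t : ℝ) : dg (s + t) = dg s * dg t := by
  apply sl2_ext <;> simp [Real.exp_add]; ring
lemma dg_zero : dg 0 = 1 := by apply sl2_ext <;> simp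
lemma dg_neg (t : ℝ) : dg (-t) = (dg t)⁻¹ := by apply sl2_ext <;> simp
lemma kk_add (s t : ℝ) : kk (s + t) = kk s * kk t := by
  apply sl2_ext <;> simp [Real.cos_add, Real.sin_add] <;> ring
lemma kk_zero : kk 0 = 1 := by apply sl2_ext <;> simp
lemma kk_neg (t : ℝ) : kk (-t) = (kk t)⁻¹ := by apply sl2_ext <;> simp
lemma kk_two_pi : kk (2 * π) = 1 := by apply sl2_ext <;> simp
lemma kk_periodic (t : ℝ) : kk (t + 2 * π) = kk t := by rw [kk_add, kk_two_pi, mul_one]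

lemma dg_nn (s t : ℝ) : dg s * nn t = nn (exp (2 * s) * t) * dg s := by
  apply sl2_ext <;> simp
  rw [mul_assoc, mul_comm t, ← mul_assoc, ← Real.exp_add]
  congr 2; ring

lemma dg_nm (s v : ℝ) : dg s * nm v = nm (exp (-2 * s) * v) * dg s := by
  apply sl2_ext <;> simp
  rw [mul_assoc, mul_comm v, ← mul_assoc, ← Real.exp_add]
  congr 2; ring

lemma nn_nm {t v : ℝ} (h : 0 < 1 + t * v) :
    nn t * nm v = nm (v / (1 + t * v)) * dg (log (1 + t * v)) * nn (t / (1 + t * v)) := by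
  have hne : (1 + t * v) ≠ 0 := h.ne'
  apply sl2_ext <;> simp [Real.exp_neg, Real.exp_log h]
  · rw [mul_div_cancel₀ _ hne]
  · rw [div_mul_cancel₀ _ hne]
  · rw [div_mul_cancel₀ _ hne, eq_comm, mul_div_assoc', ← one_div, ← add_div, div_eq_iff hne]
    ring

lemma d2_eq {u : ℝ} (hu : u ≠ 0) :
    dg (log 2) = nn u * nm (1 / u) * nn (-(u / 2)) * nm (-(2 / u)) := by
  apply sl2_ext <;> simp [Real.exp_neg, Real.exp_log (show (0:ℝ) < 2 by norm_num)]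
  all_goals field_simp
  all_goals ring

lemma nn_tan {φ : ℝ} (h : 0 < cos φ) :
    nn (tan φ) = nm (sin φ * cos φ) * dg (-log (cos φ)) * kk φ := by
  have hne : cos φ ≠ 0 := h.ne'
  have h1 : exp (-log (cos φ)) = (cos φ)⁻¹ := by rw [Real.exp_neg, Real.exp_log h]
  apply sl2_ext <;> simp [Real.exp_neg, Real.exp_log h, Real.tan_eq_sin_div_cos]
  · field_simp
  · field_simp
  · field_simp
    ring
  · field_simp
    nlinarith [sin_sq_add_cos_sq φ]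

end

attribute [irreducible] nn nm dg kk

end Pool.Agent.W745
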