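import Pool.Agent.W745.HM

/-! Cartan decomposition and norm inequalities. -/

open MeasureTheory Set Filter Topology Real
open scoped ENNReal NNReal

namespace Pool.Agent.W745

noncomputable section

lemma NN_eq (g : SL2) : NN g = g.1 0 0 ^ 2 + g.1 0 1 ^ 2 + g.1 1 0 ^ 2 + g.1 1 1 ^ 2 := rfl

lemma NN_mul_kk (g : SL2) (θ : ℝ) : NN (g * kk θ) = NN g := by
  simp only [NN_eq, mul_00, mul_01, mul_10, mul_11, kk_00, kk_01, kk_10, kk_11]
  linear_combination (g.1 0 0 ^ 2 + g.1 0 1 ^ 2 + g.1 1 0 ^ 2 + g.1 1 1 ^ 2) * sin_sq_add_cos_sq θ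

lemma NN_kk_mul (g : SL2) (θ : ℝ) : NN (kk θ * g) = NN g := by
  simp only [NN_eq, mul_00, mul_01, mul_10, mul_11, kk_00, kk_01, kk_10, kk_11]
  linear_combination (g.1 0 0 ^ 2 + g.1 0 1 ^ 2 + g.1 1 0 ^ 2 + g.1 1 1 ^ 2) * sin_sq_add_cos_sq θ

lemma NN_inv (g : SL2) : NN g⁻¹ = NN g := by
  simp only [NN_eq, inv_00, inv_01, inv_10, inv_11]
  ring

lemma NN_dg (s : ℝ) : NN (dg s) = exp (2 * s) + exp (-(2 * s)) := by
  simp only [NN_eq, dg_00, dg_01, dg_10, dg_11]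
  rw [← Real.exp_nat_mul, ← Real.exp_nat_mul]
  simp

lemma NN_ge_two (g : SL2) : 2 ≤ NN g := by
  have := det_eq g
  rw [NN_eq]
  nlinarith [sq_nonneg (g.1 0 0 - g.1 1 1), sq_nonneg (g.1 0 1 + g.1 1 0)]

lemma two_abs_le {x y : ℝ} (h1 : -y ≤ 2 * x) (h2 : 2 * x ≤ y) : 2 * |x| ≤ y := by
  rcases abs_cases x with h | h <;> linarith [h.1]

lemma one_add_sq_le_exp {t : ℝ} (ht : 0 ≤ t) : 1 + t + t ^ 2 ≤ exp (2 * t) := by
  have h1 := Real.quadratic_le_exp_of_nonneg (show 0 ≤ 2 * t by linarith)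
  nlinarith

lemma NN_mul_nn (g : SL2) (t : ℝ) : NN (g * nn t) ≤ exp (2 * |t|) * NN g := by
  have h1 := one_add_sq_le_exp (abs_nonneg t)
  have h2 : NN (g * nn t) ≤ (1 + |t| + |t| ^ 2) * NN g := by
    simp only [NN_eq, mul_00, mul_01, mul_10, mul_11, nn_00, nn_01, nn_10, nn_11]
    rw [sq_abs]
    have e1 : 2 * t * (g.1 0 0 * g.1 0 1 + g.1 1 0 * g.1 1 1) ≤
        |t| * (g.1 0 0 ^ 2 + g.1 0 1 ^ 2 + g.1 1 0 ^ 2 + g.1 1 1 ^ 2) := by
      have : 2 * |g.1 0 0 * g.1 0 1 + g.1 1 0 * g.1 1 1| ≤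
          g.1 0 0 ^ 2 + g.1 0 1 ^ 2 + g.1 1 0 ^ 2 + g.1 1 1 ^ 2 := by
        apply two_abs_le
        · nlinarith [sq_nonneg (g.1 0 0 + g.1 0 1), sq_nonneg (g.1 1 0 + g.1 1 1)]
        · nlinarith [sq_nonneg (g.1 0 0 - g.1 0 1), sq_nonneg (g.1 1 0 - g.1 1 1)]
      calc 2 * t * (g.1 0 0 * g.1 0 1 + g.1 1 0 * g.1 1 1) ≤
            |2 * t * (g.1 0 0 * g.1 0 1 + g.1 1 0 * g.1 1 1)| := le_abs_self _
        _ = |t| * (2 * |g.1 0 0 * g.1 0 1 + g.1 1 0 * g.1 1 1|) := by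
            rw [abs_mul, abs_mul, abs_two]; ring
        _ ≤ _ := by gcongr
    nlinarith [mul_nonneg (sq_nonneg t) (sq_nonneg (g.1 0 1)),
      mul_nonneg (sq_nonneg t) (sq_nonneg (g.1 1 1))]
  have h3 : 0 ≤ NN g := by linarith [NN_ge_two g]
  refine h2.trans (mul_le_mul_of_nonneg_right h1 h3)

lemma NN_mul_nm (g : SL2) (t : ℝ) : NN (g * nm t) ≤ exp (2 * |t|) * NN g := by
  have h1 := one_add_sq_le_exp (abs_nonneg t)
  have h2 : NN (g * nm t) ≤ (1 + |t| + |t| ^ 2) * NN g := by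
    simp only [NN_eq, mul_00, mul_01, mul_10, mul_11, nm_00, nm_01, nm_10, nm_11]
    rw [sq_abs]
    have e1 : 2 * t * (g.1 0 0 * g.1 0 1 + g.1 1 0 * g.1 1 1) ≤
        |t| * (g.1 0 0 ^ 2 + g.1 0 1 ^ 2 + g.1 1 0 ^ 2 + g.1 1 1 ^ 2) := by
      have : 2 * |g.1 0 0 * g.1 0 1 + g.1 1 0 * g.1 1 1| ≤
          g.1 0 0 ^ 2 + g.1 0 1 ^ 2 + g.1 1 0 ^ 2 + g.1 1 1 ^ 2 := by
        apply two_abs_le
        · nlinarith [sq_nonneg (g.1 0 0 + g.1 0 1), sq_nonneg (g.1 1 0 + g.1 1 1)]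
        · nlinarith [sq_nonneg (g.1 0 0 - g.1 0 1), sq_nonneg (g.1 1 0 - g.1 1 1)]
      calc 2 * t * (g.1 0 0 * g.1 0 1 + g.1 1 0 * g.1 1 1) ≤
            |2 * t * (g.1 0 0 * g.1 0 1 + g.1 1 0 * g.1 1 1)| := le_abs_self _
        _ = |t| * (2 * |g.1 0 0 * g.1 0 1 + g.1 1 0 * g.1 1 1|) := by
            rw [abs_mul, abs_mul, abs_two]; ring
        _ ≤ _ := by gcongr
    nlinarith [mul_nonneg (sq_nonneg t) (sq_nonneg (g.1 0 0)),
      mul_nonneg (sq_nonneg t) (sq_nonneg (g.1 1 0))]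
  have h3 : 0 ≤ NN g := by linarith [NN_ge_two g]
  refine h2.trans (mul_le_mul_of_nonneg_right h1 h3)

lemma exp_sq_bounds (s : ℝ) : exp s ^ 2 ≤ exp (2 * |s|) ∧ exp (-s) ^ 2 ≤ exp (2 * |s|) := by
  rw [← Real.exp_nat_mul, ← Real.exp_nat_mul]
  constructor
  · apply Real.exp_le_exp.2
    push_cast
    nlinarith [le_abs_self s]
  · apply Real.exp_le_exp.2
    push_cast
    nlinarith [neg_abs_le s]

lemma NN_mul_dg (g : SL2) (s : ℝ) : NN (g * dg s) ≤ exp (2 * |s|) * NN g := by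
  obtain ⟨h1, h2⟩ := exp_sq_bounds s
  simp only [NN_eq, mul_00, mul_01, mul_10, mul_11, dg_00, dg_01, dg_10, dg_11]
  nlinarith [mul_le_mul_of_nonneg_right h1 (sq_nonneg (g.1 0 0)),
    mul_le_mul_of_nonneg_right h1 (sq_nonneg (g.1 1 0)),
    mul_le_mul_of_nonneg_right h2 (sq_nonneg (g.1 0 1)),
    mul_le_mul_of_nonneg_right h2 (sq_nonneg (g.1 1 1))]

lemma NN_dg_mul (g : SL2) (s : ℝ) : NN (dg s * g) ≤ exp (2 * |s|) * NN g := by
  obtain ⟨h1, h2⟩ := exp_sq_bounds s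
  simp only [NN_eq, mul_00, mul_01, mul_10, mul_11, dg_00, dg_01, dg_10, dg_11]
  nlinarith [mul_le_mul_of_nonneg_right h1 (sq_nonneg (g.1 0 0)),
    mul_le_mul_of_nonneg_right h2 (sq_nonneg (g.1 1 0)),
    mul_le_mul_of_nonneg_right h1 (sq_nonneg (g.1 0 1)),
    mul_le_mul_of_nonneg_right h2 (sq_nonneg (g.1 1 1))]

/-- Cartan decomposition -/
theorem cartan (g : SL2) : ∃ θ₁ s θ₂ : ℝ, 0 ≤ s ∧ g = kk θ₁ * dg s * kk θ₂ := by
  have hdet := det_eq g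
  set a := g.1 0 0
  set b := g.1 0 1
  set c := g.1 1 0
  set d := g.1 1 1
  set α : ℂ := ⟨(a + d) / 2, (b - c) / 2⟩ with hα
  set β : ℂ := ⟨(a - d) / 2, (b + c) / 2⟩ with hβ
  set s := Real.arsinh ‖β‖ with hs
  have hsinh : sinh s = ‖β‖ := Real.sinh_arsinh _
  have hs0 : 0 ≤ s := Real.arsinh_nonneg_iff.2 (norm_nonneg _)
  have hn : ‖α‖ ^ 2 = 1 + ‖β‖ ^ 2 := by
    rw [← Complex.normSq_eq_norm_sq, ← Complex.normSq_eq_norm_sq, Complex.normSq_apply,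
      Complex.normSq_apply, hα, hβ]
    simp only
    nlinarith
  have hcosh : cosh s = ‖α‖ := by
    have h1 : cosh s ^ 2 = ‖α‖ ^ 2 := by
      rw [hn, ← hsinh, Real.cosh_sq]; ring
    exact (pow_left_inj₀ (Real.cosh_pos s).le (norm_nonneg _) two_ne_zero).1 h1
  have e1 : cosh s * cos (Complex.arg α) = (a + d) / 2 := by
    rw [hcosh, Complex.norm_mul_cos_arg]
  have e2 : cosh s * sin (Complex.arg α) = (b - c) / 2 := by
    rw [hcosh, Complex.norm_mul_sin_arg]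
  have e3 : sinh s * cos (Complex.arg β) = (a - d) / 2 := by
    rw [hsinh, Complex.norm_mul_cos_arg]
  have e4 : sinh s * sin (Complex.arg β) = (b + c) / 2 := by
    rw [hsinh, Complex.norm_mul_sin_arg]
  set p := Complex.arg α
  set r := Complex.arg β
  refine ⟨(p - r) / 2, s, (p + r) / 2, hs0, ?_⟩
  have hexp : exp s = cosh s + sinh s := by rw [Real.cosh_add_sinh]
  have hexp' : exp (-s) = cosh s - sinh s := by rw [Real.cosh_sub_sinh]
  have c1 : cos p = cos ((p - r) / 2) * cos ((p + r) / 2) - sin ((p - r) / 2) * sin ((p + r) / 2) := by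
    rw [← Real.cos_add]; congr 1; ring
  have s1 : sin p = sin ((p - r) / 2) * cos ((p + r) / 2) + cos ((p - r) / 2) * sin ((p + r) / 2) := by
    rw [← Real.sin_add]; congr 1; ring
  have c2 : cos r = cos ((p + r) / 2) * cos ((p - r) / 2) + sin ((p + r) / 2) * sin ((p - r) / 2) := by
    rw [← Real.cos_sub]; congr 1; ring
  have s2 : sin r = sin ((p + r) / 2) * cos ((p - r) / 2) - cos ((p + r) / 2) * sin ((p - r) / 2) := by
    rw [← Real.sin_sub]; congr 1; ring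
  rw [c1] at e1
  rw [s1] at e2
  rw [c2] at e3
  rw [s2] at e4
  set x1 := cos ((p - r) / 2)
  set y1 := sin ((p - r) / 2)
  set x2 := cos ((p + r) / 2)
  set y2 := sin ((p + r) / 2)
  apply sl2_ext
  · simp only [mul_00, mul_01, mul_10, mul_11, kk_00, kk_01, kk_10, kk_11, dg_00, dg_01, dg_10,
      dg_11, hexp, hexp']
    change a = _
    linear_combination -e1 - e3
  · simp only [mul_00, mul_01, mul_10, mul_11, kk_00, kk_01, kk_10, kk_11, dg_00, dg_01, dg_10,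
      dg_11, hexp, hexp']
    change b = _
    linear_combination -e2 - e4
  · simp only [mul_00, mul_01, mul_10, mul_11, kk_00, kk_01, kk_10, kk_11, dg_00, dg_01, dg_10,
      dg_11, hexp, hexp']
    change c = _
    linear_combination e2 - e4
  · simp only [mul_00, mul_01, mul_10, mul_11, kk_00, kk_01, kk_10, kk_11, dg_00, dg_01, dg_10,
      dg_11, hexp, hexp']
    change d = _
    linear_combination -e1 + e3

lemma NN_kdk (θ₁ s θ₂ : ℝ) : NN (kk θ₁ * dg s * kk θ₂) = exp (2 * s) + exp (-(2 * s)) := by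
  rw [NN_mul_kk, NN_kk_mul, NN_dg]

lemma NN_kdk_mul (θ₁ : ℝ) {s : ℝ} (hs : 0 ≤ s) (θ₂ : ℝ) (h : SL2) :
    NN (kk θ₁ * dg s * kk θ₂ * h) ≤ exp (2 * s) * NN h := by
  rw [mul_assoc, mul_assoc, NN_kk_mul]
  refine (NN_dg_mul _ s).trans ?_
  rw [NN_kk_mul, abs_of_nonneg hs]

lemma NN_kdk_inv_mul (θ₁ : ℝ) {s : ℝ} (hs : 0 ≤ s) (θ₂ : ℝ) (h : SL2) :
    NN ((kk θ₁ * dg s * kk θ₂)⁻¹ * h) ≤ exp (2 * s) * NN h := by
  rw [mul_inv_rev, mul_inv_rev, ← kk_neg, ← kk_neg, ← dg_neg, mul_assoc, NN_kk_mul, mul_assoc]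
  refine (NN_dg_mul _ _).trans ?_
  rw [NN_kk_mul, abs_neg, abs_of_nonneg hs]

/-- the function `2 cosh (2 s)` -/
def rr (s : ℝ) : ℝ := exp (2 * s) + exp (-(2 * s))

lemma rr_gt {s : ℝ} (hs : 0 < s) : 2 < rr s := by
  unfold rr
  have h1 : exp (2 * s) * exp (-(2 * s)) = 1 := by rw [← Real.exp_add]; simp
  have h2 : 1 < exp (2 * s) := Real.one_lt_exp_iff.2 (by linarith)
  have h3 := Real.exp_pos (-(2 * s))
  nlinarith [sq_nonneg (exp (2 * s) - exp (-(2 * s)))]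

lemma rr_lt {s t : ℝ} (hs : 0 ≤ s) (ht : 0 ≤ t) (h : rr s < rr t) : s < t := by
  by_contra hlt
  push Not at hlt
  have h1 : exp (2 * t) ≤ exp (2 * s) := Real.exp_le_exp.2 (by linarith)
  have h2 : exp (2 * s) * exp (-(2 * s)) = 1 := by rw [← Real.exp_add]; simp
  have h3 : exp (2 * t) * exp (-(2 * t)) = 1 := by rw [← Real.exp_add]; simp
  have h4 : 1 ≤ exp (2 * t) := Real.one_le_exp (by linarith)
  unfold rr at h
  have p1 := Real.exp_pos (-(2 * s))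
  have p2 := Real.exp_pos (-(2 * t))
  set A := exp (2 * s)
  set B := exp (2 * t)
  set A' := exp (-(2 * s))
  set B' := exp (-(2 * t))
  -- A + 1/A < B + 1/B with A ≥ B ≥ 1 is impossible
  have h5 : (A - B) * (A * B - 1) ≥ 0 := mul_nonneg (by linarith) (by nlinarith)
  have h6 : A * B * (A + A') < A * B * (B + B') := by
    apply mul_lt_mul_of_pos_left h
    positivity
  nlinarith

end

end Pool.Agent.W745
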