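import Pool.Agent.W745.Rec

/-! Almost everywhere behaviour of the renormalised averages. -/

open MeasureTheory Real Set Filter Topology
open scoped ENNReal

namespace Pool.Agent.W745

noncomputable section

variable {X : Type} [MeasurableSpace X] {μ : Measure X} [MulAction SL2 X]
variable {q : ℝ} {F : X → ℝ}

lemma PP_const_mul (s c : ℝ) (F : X → ℝ) (y : X) :
    PP s (fun x => c * F x) y = c * PP s F y := by
  unfold PP
  rw [← integral_const_mul]
  congr 1
  ext t
  ring

lemma PP_add_const (hA : Act μ) (hF : Reg q F) (hq : 0 ≤ q) (s c : ℝ) (y : X) :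
    PP s (fun x => F x + c) y = PP s F y + c := by
  unfold PP
  have h1 := hF.int_PP hA hq s y
  have h2 : Integrable fun t => tent t * c := tent_integrable.mul_const c
  have h3 : ∫ t, tent t * c = c := by rw [integral_mul_const, integral_tent, one_mul]
  rw [← h3, ← integral_add h1 h2]
  congr 1
  ext t
  rw [h3]
  ring

lemma PP_const_sub (hA : Act μ) (hF : Reg q F) (hq : 0 ≤ q) (s c : ℝ) (y : X) :
    PP s (fun x => c - F x) y = c - PP s F y := by
  unfold PP
  have h1 := hF.int_PP hA hq s y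
  have h2 : Integrable fun t => tent t * c := tent_integrable.mul_const c
  have h3 : ∫ t, tent t * c = c := by rw [integral_mul_const, integral_tent, one_mul]
  rw [← h3, ← integral_sub h2 h1]
  congr 1
  ext t
  rw [h3]
  ring

lemma Reg.add_one_mul (hF : Reg q F) (hq : 0 ≤ q) {a : ℝ} (ha : 0 ≤ a) :
    Reg q (fun x => a * (F x + 1)) := by
  have key : ∀ z : ℝ, ∀ y y' : X, F y' ≤ exp (q * |z|) * F y →
      a * (F y' + 1) ≤ exp (q * |z|) * (a * (F y + 1)) := by
    intro z y y' h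
    have h1 : 1 ≤ exp (q * |z|) := Real.one_le_exp (by positivity)
    calc a * (F y' + 1) ≤ a * (exp (q * |z|) * F y + exp (q * |z|)) := by gcongr
      _ = _ := by ring
  exact ⟨(hF.meas.add_const 1).const_mul a, fun y => by have := hF.nonneg y; positivity,
    fun s y => key s y _ (hF.hdg s y), fun s y => key s y _ (hF.hnm s y),
    fun s y => key s y _ (hF.hnn s y)⟩

/-- the limsup along the scales `2 ^ j`, general normalisation -/
theorem limsup_gen [IsProbabilityMeasure μ] (hA : Act μ) {B ε0 : ℝ} (hG : Gap μ B ε0)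
    (hF : Reg q F) (hq : 0 ≤ q) (hFi : Integrable F μ) :
    ∀ᵐ y ∂μ, ∀ δ : ℝ, 0 < δ → ∀ᶠ j : ℕ in atTop, PP (sj j) F y < (∫ x, F x ∂μ) + δ := by
  set c := ∫ x, F x ∂μ with hc
  have hc0 : 0 ≤ c := integral_nonneg fun y => hF.nonneg y
  have hc1 : 0 < c + 1 := by linarith
  have hF' := hF.add_one_mul hq (a := (c + 1)⁻¹) (by positivity)
  have hi : Integrable (fun x => (c + 1)⁻¹ * (F x + 1)) μ :=
    (hFi.add (integrable_const 1)).const_mul _
  have h1 : ∫ x, (c + 1)⁻¹ * (F x + 1) ∂μ = 1 := by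
    rw [integral_const_mul, integral_add hFi (integrable_const 1), ← hc]
    simp [hc1.ne']
  filter_upwards [limsup_one hA hG hF' hq hi h1] with y hy δ hδ
  filter_upwards [hy (δ / (c + 1)) (by positivity)] with j hj
  rw [PP_const_mul, PP_add_const hA hF hq, inv_mul_lt_iff₀ hc1] at hj
  have : (c + 1) * (1 + δ / (c + 1)) = c + 1 + δ := by field_simp
  rw [this] at hj
  linarith

lemma Reg.comp_dg (hA : Act μ) (hF : Reg q F) (hq : 0 ≤ q) {s0 : ℝ} (h0 : 0 ≤ s0) (h1 : s0 ≤ log 2 / 2) :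
    Reg (2 * q) (fun y => F (dg s0 • y)) := by
  have hexp : exp (2 * s0) ≤ 2 := by
    calc exp (2 * s0) ≤ exp (log 2) := Real.exp_le_exp.2 (by linarith)
      _ = 2 := Real.exp_log (by norm_num)
  refine ⟨hF.meas.comp (hA.meas_g _), fun y => hF.nonneg _, fun s y => ?_, fun v y => ?_,
    fun t y => ?_⟩
  · rw [smul_smul, ← dg_add, add_comm, dg_add, mul_smul]
    refine (hF.hdg s _).trans ?_
    refine mul_le_mul_of_nonneg_right ?_ (hF.nonneg _)
    apply Real.exp_le_exp.2
    nlinarith [mul_nonneg hq (abs_nonneg s)]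
  · rw [smul_smul, dg_nm, mul_smul]
    refine (hF.hnm _ _).trans ?_
    refine mul_le_mul_of_nonneg_right ?_ (hF.nonneg _)
    apply Real.exp_le_exp.2
    rw [abs_mul, abs_of_pos (exp_pos _)]
    have h2 : exp (-2 * s0) ≤ 1 := Real.exp_le_one_iff.2 (by linarith)
    have h3 : exp (-2 * s0) * |v| ≤ |v| := by nlinarith [abs_nonneg v]
    nlinarith [mul_nonneg hq (abs_nonneg v), mul_le_mul_of_nonneg_left h3 hq]
  · rw [smul_smul, dg_nn, mul_smul]
    refine (hF.hnn _ _).trans ?_
    refine mul_le_mul_of_nonneg_right ?_ (hF.nonneg _)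
    apply Real.exp_le_exp.2
    rw [abs_mul, abs_of_pos (exp_pos _)]
    have h3 : exp (2 * s0) * |t| ≤ 2 * |t| := by gcongr
    nlinarith [mul_le_mul_of_nonneg_left h3 hq]

lemma PP_mono (hA : Act μ) (hF : Reg q F) (hq : 0 ≤ q) {q' : ℝ} {G : X → ℝ} (hG : Reg q' G)
    (hq' : 0 ≤ q') {s s' C : ℝ} {y : X} (h : ∀ z : X, F (dg s • z) ≤ C * G (dg s' • z)) :
    PP s F y ≤ C * PP s' G y := by
  unfold PP
  rw [← integral_const_mul]
  refine integral_mono (hF.int_PP hA hq s y) ((hG.int_PP hA hq' s' y).const_mul C) fun t => ?_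
  simp only
  have h1 := h (nn t • y)
  have h2 := tent_nonneg t
  calc tent t * F (dg s • nn t • y) ≤ tent t * (C * G (dg s' • nn t • y)) := by gcongr
    _ = _ := by ring

/-- the limsup over all scales -/
theorem limsup_real [IsProbabilityMeasure μ] (hA : Act μ) {B ε0 : ℝ} (hG : Gap μ B ε0)
    (hF : Reg q F) (hq : 0 ≤ q) (hFi : Integrable F μ) :
    ∀ᵐ y ∂μ, ∀ δ : ℝ, 0 < δ → ∀ᶠ s : ℝ in atTop, PP s F y < (∫ x, F x ∂μ) + δ := by
  set c := ∫ x, F x ∂μ with hc
  have hc0 : 0 ≤ c := integral_nonneg fun y => hF.nonneg y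
  have hl : 0 < log 2 / 2 := by
    have := Real.log_pos (show (1 : ℝ) < 2 by norm_num)
    linarith
  set ℓ := log 2 / 2 with hℓ
  -- the net of shifts
  have hs : ∀ n k : ℕ, k < n → 0 ≤ (k : ℝ) / n * ℓ ∧ (k : ℝ) / n * ℓ ≤ ℓ := by
    intro n k hk
    have hn : (0 : ℝ) < n := by exact_mod_cast (by omega : 0 < n)
    have h1 : (k : ℝ) / n ≤ 1 := by
      rw [div_le_one hn]
      exact_mod_cast hk.le
    have h2 : 0 ≤ (k : ℝ) / n := by positivity
    exact ⟨by positivity, by nlinarith⟩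
  have hall : ∀ᵐ y ∂μ, ∀ n k : ℕ, k < n → ∀ δ : ℝ, 0 < δ → ∀ᶠ j : ℕ in atTop,
      PP (sj j) (fun y => F (dg ((k : ℝ) / n * ℓ) • y)) y < c + δ := by
    rw [ae_all_iff]
    intro n
    rw [ae_all_iff]
    intro k
    by_cases hk : k < n
    · have hR := hF.comp_dg hA hq (hs n k hk).1 (hs n k hk).2
      have := limsup_gen hA hG hR (by positivity) (int_comp hA _ hFi)
      rw [integral_comp_g hA _ hFi.1] at this
      filter_upwards [this] with y hy _
      exact hy
    · filter_upwards with y hk'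
      exact absurd hk' hk
  filter_upwards [hall] with y hy δ hδ
  -- choose n
  have hlim : Tendsto (fun n : ℕ => exp (q * (ℓ / n)) * (c + δ / 2)) atTop
      (𝓝 (exp (q * 0) * (c + δ / 2))) := by
    refine Tendsto.mul_const _ ?_
    refine (Real.continuous_exp.tendsto _).comp ?_
    refine Tendsto.const_mul q ?_
    exact tendsto_const_div_atTop_nhds_zero_nat ℓ
  rw [mul_zero, Real.exp_zero, one_mul] at hlim
  obtain ⟨n, hn1, hn⟩ := ((eventually_ge_atTop 1).and
    (hlim.eventually (gt_mem_nhds (show c + δ / 2 < c + δ by linarith)))).exists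
  have hn0 : (0 : ℝ) < n := by exact_mod_cast hn1
  -- eventually in j for all k < n
  have hev : ∀ᶠ j : ℕ in atTop, ∀ k < n,
      PP (sj j) (fun y => F (dg ((k : ℝ) / n * ℓ) • y)) y < c + δ / 2 := by
    exact (eventually_all_finite (Set.finite_lt_nat n)).2 fun k hk =>
      hy n k hk (δ / 2) (by positivity)
  obtain ⟨j0, hj0⟩ := eventually_atTop.1 hev
  filter_upwards [eventually_ge_atTop (sj j0), eventually_ge_atTop 0] with s hs1 hs0
  -- decompose s
  set j := ⌊s / ℓ⌋₊ with hj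
  have hsl : 0 ≤ s / ℓ := by positivity
  have hjle : (j : ℝ) * ℓ ≤ s := by
    have := Nat.floor_le hsl
    rwa [le_div_iff₀ hl] at this
  have hjlt : s < (j + 1) * ℓ := by
    have := Nat.lt_floor_add_one (s / ℓ)
    rwa [div_lt_iff₀ hl] at this
  have hjj : j0 ≤ j := by
    apply Nat.le_floor
    rw [le_div_iff₀ hl]
    exact hs1
  set r := s - j * ℓ with hr
  have hr0 : 0 ≤ r := by linarith
  have hrl : r < ℓ := by linarith
  set k := ⌊r / ℓ * n⌋₊ with hk
  have hrn : 0 ≤ r / ℓ * n := by positivity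
  have hkn : k < n := by
    rw [hk, Nat.floor_lt hrn]
    have : r / ℓ < 1 := by rw [div_lt_one hl]; exact hrl
    nlinarith
  have hk1 : (k : ℝ) / n * ℓ ≤ r := by
    have := Nat.floor_le hrn
    have h2 : (k : ℝ) / n * ℓ = k * (ℓ / n) := by ring
    have h3 : r = (r / ℓ * n) * (ℓ / n) := by field_simp
    rw [h2, h3]
    gcongr
  have hk2 : r ≤ (k : ℝ) / n * ℓ + ℓ / n := by
    have := Nat.lt_floor_add_one (r / ℓ * n)
    have h2 : (k : ℝ) / n * ℓ + ℓ / n = (k + 1) * (ℓ / n) := by ring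
    have h3 : r = (r / ℓ * n) * (ℓ / n) := by field_simp
    rw [h2, h3]
    gcongr
  have hR := hF.comp_dg hA hq (hs n k hkn).1 (hs n k hkn).2
  have hcomp : PP s F y ≤ exp (q * (ℓ / n)) *
      PP (sj j) (fun y => F (dg ((k : ℝ) / n * ℓ) • y)) y := by
    refine PP_mono hA hF hq hR (by positivity) fun z => ?_
    have h4 : dg s • z = dg (r - (k : ℝ) / n * ℓ) • dg ((k : ℝ) / n * ℓ) • dg (sj j) • z := by
      rw [smul_smul, smul_smul, ← dg_add, ← dg_add]
      congr 2
      rw [sj, hr, hℓ]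
      ring
    rw [h4]
    refine (hF.hdg _ _).trans ?_
    refine mul_le_mul_of_nonneg_right ?_ (hF.nonneg _)
    apply Real.exp_le_exp.2
    rw [abs_of_nonneg (by linarith)]
    gcongr
    linarith
  refine hcomp.trans_lt (lt_of_le_of_lt ?_ hn)
  gcongr
  exact (hj0 j hjj k hkn).le

lemma Reg.const_sub (hF : Reg q F) (hq : 0 ≤ q) {N : ℝ} (hN : ∀ y, F y ≤ N) :
    Reg q (fun x => 2 * N - F x) := by
  have key : ∀ z : ℝ, ∀ y y' : X, F y ≤ exp (q * |z|) * F y' →
      2 * N - F y' ≤ exp (q * |z|) * (2 * N - F y) := by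
    intro z y y' h
    have h0 : 0 ≤ q * |z| := by positivity
    have h1 : 1 ≤ exp (q * |z|) := Real.one_le_exp h0
    set E := exp (q * |z|)
    have h2 := hF.nonneg y
    have h3 := hF.nonneg y'
    have h4 := hN y
    have h5 := hN y'
    have h6 : E⁻¹ * F y ≤ F y' := by
      rw [inv_mul_le_iff₀ (by linarith)]; exact h
    have h7 : (2 - E) * F y ≤ F y' := by
      refine le_trans ?_ h6
      gcongr
      rw [← one_div, le_div_iff₀ (by linarith)]
      nlinarith [sq_nonneg (E - 1)]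
    nlinarith
  refine ⟨measurable_const.sub hF.meas, fun y => by linarith [hN y, hF.nonneg y],
    fun s y => key s y _ ?_, fun s y => key s y _ ?_, fun s y => key s y _ ?_⟩
  · have := hF.hdg (-s) (dg s • y)
    rwa [dg_neg, inv_smul_smul, abs_neg] at this
  · have := hF.hnm (-s) (nm s • y)
    rwa [nm_neg, inv_smul_smul, abs_neg] at this
  · have := hF.hnn (-s) (nn s • y)
    rwa [nn_neg, inv_smul_smul, abs_neg] at this

/-- convergence for bounded functions -/
theorem tendsto_PP [IsProbabilityMeasure μ] (hA : Act μ) {B ε0 : ℝ} (hG : Gap μ B ε0)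
    (hF : Reg q F) (hq : 0 ≤ q) {N : ℝ} (hN : ∀ y, F y ≤ N) :
    ∀ᵐ y ∂μ, Tendsto (fun s : ℝ => PP s F y) atTop (𝓝 (∫ x, F x ∂μ)) := by
  have hFi : Integrable F μ := integrable_of_bdd' hF.meas (C := N) fun x => by
    rw [abs_of_nonneg (hF.nonneg x)]; exact hN x
  have hR := hF.const_sub hq hN
  have hRi : Integrable (fun x => 2 * N - F x) μ := (integrable_const _).sub hFi
  have hRe : ∫ x, (2 * N - F x) ∂μ = 2 * N - ∫ x, F x ∂μ := by
    rw [integral_sub (integrable_const _) hFi]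
    simp
  have h2 := limsup_real hA hG hR hq hRi
  rw [hRe] at h2
  filter_upwards [limsup_real hA hG hF hq hFi, h2] with y h1 h2
  rw [Metric.tendsto_nhds]
  intro ε hε
  filter_upwards [h1 ε hε, h2 ε hε] with s a b
  rw [PP_const_sub hA hF hq] at b
  rw [Real.dist_eq, abs_lt]
  constructor <;> linarith

end

end Pool.Agent.W745
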