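import Pool.Agent.W745.Basic

/-! An effective form of the Mautner phenomenon for `SL(2,ℝ)`. -/

open Real

namespace Pool.Agent.W745

/-- a symmetric subadditive function on the group -/
structure LenFn (E : SL2 → ℝ) : Prop where
  nonneg : ∀ g, 0 ≤ E g
  mul : ∀ g h, E (g * h) ≤ E g + E h
  inv : ∀ g, E g⁻¹ ≤ E g

namespace LenFn

variable {E : SL2 → ℝ} (hE : LenFn E)
include hE

lemma inv_eq (g : SL2) : E g⁻¹ = E g :=
  le_antisymm (hE.inv g) (by simpa using hE.inv g⁻¹)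

lemma nn_neg' (t : ℝ) : E (nn (-t)) = E (nn t) := by rw [nn_neg, hE.inv_eq]
lemma nm_neg' (t : ℝ) : E (nm (-t)) = E (nm t) := by rw [nm_neg, hE.inv_eq]

lemma dg_mul (i : ℕ) (s : ℝ) (h1 : E 1 ≤ 0) : E (dg (i * s)) ≤ i * E (dg s) := by
  induction i with
  | zero => simp [dg_zero, h1]
  | succ n ih =>
    have : dg ((n + 1 : ℕ) * s) = dg (n * s) * dg s := by
      rw [← dg_add]; congr 1; push_cast; ring
    rw [this]
    push_cast
    linarith [hE.mul (dg (n * s)) (dg s)]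

lemma conj_le (s : ℝ) (g : SL2) : E (dg (-s) * g * dg s) ≤ 2 * E (dg s) + E g := by
  have h1 := hE.mul (dg (-s) * g) (dg s)
  have h2 := hE.mul (dg (-s)) g
  have h3 : E (dg (-s)) = E (dg s) := by rw [dg_neg, hE.inv_eq]
  linarith

lemma nn_nat {δ : ℝ} (hδ : 0 ≤ δ) (h1 : E 1 ≤ 0) {m : ℕ} (h : ∀ i < m, E (nn (2 ^ i)) ≤ δ) :
    ∀ k : ℕ, k < 2 ^ m → E (nn k) ≤ m * δ := by
  induction m with
  | zero =>
    intro k hk
    have : k = 0 := by simpa using hk
    subst this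
    simp [nn_zero, h1]
  | succ n ih =>
    intro k hk
    have ih' := ih (fun i hi => h i (by omega))
    by_cases hkn : k < 2 ^ n
    · have := ih' k hkn
      push_cast
      linarith
    · obtain ⟨k', rfl⟩ := Nat.exists_eq_add_of_le (not_lt.1 hkn)
      have hk' : k' < 2 ^ n := by
        have : 2 ^ (n + 1) = 2 ^ n + 2 ^ n := by ring
        omega
      have h2 : nn ((2 ^ n + k' : ℕ) : ℝ) = nn (2 ^ n) * nn k' := by
        rw [← nn_add]; push_cast; rfl
      rw [h2]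
      have h3 := hE.mul (nn (2 ^ n)) (nn k')
      have h4 := h n (by omega)
      have h5 := ih' k' hk'
      push_cast
      linarith

lemma nn_int {δ : ℝ} (hδ : 0 ≤ δ) (h1 : E 1 ≤ 0) {m : ℕ} (h : ∀ i < m, E (nn (2 ^ i)) ≤ δ)
    (k : ℤ) (hk : |k| < 2 ^ m) : E (nn k) ≤ m * δ := by
  have h2 : E (nn k) = E (nn (k.natAbs : ℝ)) := by
    rcases Int.natAbs_eq k with h' | h'
    · conv_lhs => rw [h']
      simp
    · conv_lhs => rw [h']
      push_cast
      rw [hE.nn_neg']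
      simp
  rw [h2]
  refine hE.nn_nat hδ h1 h _ ?_
  zify
  exact hk

end LenFn

/-- the effective Mautner phenomenon -/
theorem mautner {E : SL2 → ℝ} (hE : LenFn E) (h1 : E 1 ≤ 0) {i0 c m : ℕ} (hc : 2 ≤ c)
    (hm : m = 2 * i0 + c) {δ1 δ2 : ℝ} (hδ1 : 0 ≤ δ1) (hδ2 : 0 ≤ δ2)
    (ha : ∀ i < m, E (nn (2 ^ i)) ≤ δ1)
    (hb : ∀ r : ℝ, |r| ≤ (1 / 4) ^ i0 → E (nn r) ≤ δ2)
    (hd : ∀ r : ℝ, |r| ≤ (1 / 4) ^ i0 → E (nm r) ≤ δ2) :
    (∀ t : ℝ, |t| ≤ 2 ^ (c - 1) → E (nn t) ≤ 5 * m * (δ1 + δ2)) ∧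
    (∀ t : ℝ, |t| ≤ 2 ^ (c - 1) → E (nm t) ≤ 5 * m * (δ1 + δ2)) := by
  have hm2 : 2 ≤ m := by omega
  have hmR : (2 : ℝ) ≤ m := by exact_mod_cast hm2
  -- the diagonal element
  have h4 : ((1 : ℝ) / 4) ^ i0 = (1 / 2) ^ (2 * i0) := by rw [pow_mul]; norm_num
  have hq : ∀ j : ℕ, 2 * i0 ≤ j → ((1 : ℝ) / 2) ^ j ≤ (1 / 4) ^ i0 := by
    intro j hj
    rw [h4]
    exact pow_le_pow_of_le_one (by norm_num) (by norm_num) hj
  have hD : E (dg (log 2)) ≤ 2 * δ1 + 2 * δ2 := by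
    have hu : (2 : ℝ) ^ (m - 1) ≠ 0 := by positivity
    rw [d2_eq hu]
    have e1 := hE.mul (nn (2 ^ (m - 1)) * nm (1 / 2 ^ (m - 1)) * nn (-(2 ^ (m - 1) / 2)))
      (nm (-(2 / 2 ^ (m - 1))))
    have e2 := hE.mul (nn (2 ^ (m - 1)) * nm (1 / 2 ^ (m - 1))) (nn (-(2 ^ (m - 1) / 2)))
    have e3 := hE.mul (nn (2 ^ (m - 1))) (nm (1 / 2 ^ (m - 1)))
    have e4 := ha (m - 1) (by omega)
    have e5 : E (nn (-(2 ^ (m - 1) / 2))) ≤ δ1 := by
      rw [hE.nn_neg']
      have : (2 : ℝ) ^ (m - 1) / 2 = 2 ^ (m - 2) := by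
        obtain ⟨n, rfl⟩ := Nat.exists_eq_add_of_le hm2
        have : 2 + n - 1 = n + 1 := by omega
        rw [this, show 2 + n - 2 = n by omega, pow_succ]
        field_simp
      rw [this]
      exact ha (m - 2) (by omega)
    have e6 : E (nm (1 / 2 ^ (m - 1))) ≤ δ2 := by
      apply hd
      rw [abs_of_nonneg (by positivity), ← one_div_pow]
      exact hq _ (by omega)
    have e7 : E (nm (-(2 / 2 ^ (m - 1)))) ≤ δ2 := by
      rw [hE.nm_neg']
      apply hd
      have : (2 : ℝ) / 2 ^ (m - 1) = (1 / 2) ^ (m - 2) := by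
        obtain ⟨n, rfl⟩ := Nat.exists_eq_add_of_le hm2
        have : 2 + n - 1 = n + 1 := by omega
        rw [this, show 2 + n - 2 = n by omega, pow_succ, one_div_pow]
        field_simp
      rw [this, abs_of_nonneg (by positivity)]
      exact hq _ (by omega)
    linarith
  have hDn := hE.nonneg (dg (log 2))
  have key : ∀ (i : ℕ) (g : SL2), i ≤ i0 + c → i ≤ m →
      E (dg (-(i * log 2)) * g * dg (i * log 2)) ≤ 2 * (i : ℝ) * (2 * δ1 + 2 * δ2) + E g := by
    intro i g _ _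
    have e1 := hE.conj_le (i * log 2) g
    have e2 := hE.dg_mul i (log 2) h1
    have e3 : (i : ℝ) * E (dg (log 2)) ≤ i * (2 * δ1 + 2 * δ2) :=
      mul_le_mul_of_nonneg_left hD (Nat.cast_nonneg i)
    linarith
  constructor
  · intro t ht
    set k : ℤ := ⌊4 ^ i0 * t⌋ with hk
    have hkk1 : (k : ℝ) ≤ 4 ^ i0 * t := Int.floor_le _
    have hkk2 : 4 ^ i0 * t < k + 1 := Int.lt_floor_add_one _
    have hc' : (2 : ℝ) ^ (c - 1) * 2 = 2 ^ c := by
      rw [← pow_succ]; congr 1; omega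
    have hpow : (4 : ℝ) ^ i0 * 2 ^ c = 2 ^ m := by
      rw [hm, pow_add, pow_mul]; norm_num
    have habs : |4 ^ i0 * t| * 2 ≤ 2 ^ m := by
      rw [abs_mul, abs_of_pos (by positivity : (0 : ℝ) < 4 ^ i0), ← hpow, ← hc']
      nlinarith [mul_le_mul_of_nonneg_left ht (by positivity : (0 : ℝ) ≤ 4 ^ i0)]
    have hm4 : (4 : ℝ) ≤ 2 ^ m := by
      calc (4 : ℝ) = 2 ^ 2 := by norm_num
        _ ≤ 2 ^ m := pow_le_pow_right₀ (by norm_num) hm2
    have hklt : |k| < 2 ^ m := by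
      have : |(k : ℝ)| < 2 ^ m := by
        rw [abs_lt]
        have := abs_le.1 (show |4 ^ i0 * t| ≤ 2 ^ m / 2 by linarith)
        constructor <;> linarith
      exact_mod_cast this
    have e1 := hE.nn_int hδ1 h1 ha k hklt
    have hi : (4 : ℝ) ^ i0 * (1 / 4) ^ i0 = 1 := by rw [← mul_pow]; norm_num
    have e2 : E (nn (t - k * (1 / 4) ^ i0)) ≤ δ2 := by
      apply hb
      rw [abs_le]
      have hp : (0 : ℝ) < (1 / 4) ^ i0 := by positivity
      have ht' : t = (4 ^ i0 * t) * (1 / 4) ^ i0 := by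
        rw [mul_right_comm, hi, one_mul]
      constructor
      · have := mul_le_mul_of_nonneg_right hkk1 hp.le
        linarith
      · have := mul_le_mul_of_nonneg_right hkk2.le hp.le
        linarith
    have e3 : nn t = nn (k * (1 / 4) ^ i0) * nn (t - k * (1 / 4) ^ i0) := by
      rw [← nn_add]; congr 1; ring
    have e4 : nn (k * (1 / 4) ^ i0) = dg (-(i0 * log 2)) * nn k * dg (i0 * log 2) := by
      rw [dg_nn, mul_assoc, ← dg_add, neg_add_cancel, dg_zero, mul_one]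
      congr 1
      rw [mul_comm]
      congr 1
      rw [show 2 * -((i0 : ℝ) * log 2) = (i0 : ℝ) * (-(2 * log 2)) by ring, Real.exp_nat_mul]
      congr 1
      rw [Real.exp_neg, show 2 * log 2 = ((2 : ℕ) : ℝ) * log 2 by norm_num, Real.exp_nat_mul,
        Real.exp_log (by norm_num)]
      norm_num
    have e5 := key i0 (nn k) (by omega) (by omega)
    rw [← e4] at e5
    have e6 := hE.mul (nn (k * (1 / 4) ^ i0)) (nn (t - k * (1 / 4) ^ i0))
    rw [← e3] at e6
    have hi0 : 2 * (i0 : ℝ) ≤ m := by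
      rw [hm]; push_cast; linarith [(Nat.cast_nonneg c : (0 : ℝ) ≤ c)]
    nlinarith [mul_le_mul_of_nonneg_right hi0 (show (0 : ℝ) ≤ 2 * δ1 + 2 * δ2 by linarith),
      mul_nonneg (show (0 : ℝ) ≤ m by linarith) hδ1, mul_le_mul_of_nonneg_right hmR hδ2]
  · intro t ht
    have hi : (4 : ℝ) ^ (i0 + c) * (1 / 4) ^ (i0 + c) = 1 := by rw [← mul_pow]; norm_num
    have e1 : E (nm (t * (1 / 4) ^ (i0 + c))) ≤ δ2 := by
      apply hd
      rw [abs_mul, abs_of_pos (by positivity : (0 : ℝ) < (1 / 4) ^ (i0 + c)), pow_add]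
      have : |t| * (1 / 4) ^ c ≤ 1 := by
        calc |t| * (1 / 4) ^ c ≤ 2 ^ (c - 1) * (1 / 4) ^ c := by gcongr
          _ ≤ 2 ^ c * (1 / 4) ^ c := by
            gcongr
            · norm_num
            · omega
          _ = (1 / 2) ^ c := by rw [← mul_pow]; norm_num
          _ ≤ 1 := pow_le_one₀ (by norm_num) (by norm_num)
      calc |t| * ((1 / 4) ^ i0 * (1 / 4) ^ c) = (|t| * (1 / 4) ^ c) * (1 / 4) ^ i0 := by ring
        _ ≤ 1 * (1 / 4) ^ i0 := by gcongr
        _ = _ := one_mul _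
    have e4 : nm t = dg (-((i0 + c : ℕ) * log 2)) * nm (t * (1 / 4) ^ (i0 + c)) *
        dg ((i0 + c : ℕ) * log 2) := by
      rw [dg_nm, mul_assoc, ← dg_add, neg_add_cancel, dg_zero, mul_one]
      congr 1
      rw [show -2 * -(((i0 + c : ℕ) : ℝ) * log 2) = ((i0 + c : ℕ) : ℝ) * (2 * log 2) by ring,
        Real.exp_nat_mul, show 2 * log 2 = ((2 : ℕ) : ℝ) * log 2 by norm_num, Real.exp_nat_mul,
        Real.exp_log (by norm_num)]
      rw [show ((2 : ℝ) ^ 2) = 4 by norm_num, mul_left_comm, hi, mul_one]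
    have e5 := key (i0 + c) (nm (t * (1 / 4) ^ (i0 + c))) le_rfl (by omega)
    rw [← e4] at e5
    have hi0 : ((i0 + c : ℕ) : ℝ) ≤ m := by
      rw [hm]; push_cast; linarith [(Nat.cast_nonneg i0 : (0 : ℝ) ≤ i0)]
    nlinarith [mul_le_mul_of_nonneg_right hi0 (show (0 : ℝ) ≤ 2 * δ1 + 2 * δ2 by linarith),
      mul_nonneg (show (0 : ℝ) ≤ m by linarith) hδ1, mul_le_mul_of_nonneg_right hmR hδ2]

/-- every element of a compact set is a product of four bounded unipotent elements -/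
lemma exists_decomp {B : ℝ} (hB : 1 ≤ B) (h : SL2) (h00 : |h.1 0 0| ≤ B) (h01 : |h.1 0 1| ≤ B)
    (h10 : |h.1 1 0| ≤ B) (h11 : |h.1 1 1| ≤ B) :
    ∃ x v y s : ℝ, |x| ≤ 12 * B ^ 2 ∧ |v| ≤ 12 * B ^ 2 ∧ |y| ≤ 12 * B ^ 2 ∧ |s| ≤ 12 * B ^ 2 ∧
      h = nn x * nm v * nn y * nm s := by
  have hdet := det_eq h
  set a := h.1 0 0
  set b := h.1 0 1
  set c := h.1 1 0
  set d := h.1 1 1
  have hB0 : 0 < B := by linarith
  have hB2 : B ≤ B ^ 2 := by nlinarith
  have hB3 : 1 ≤ B ^ 2 := by nlinarith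
  -- choice of s
  obtain ⟨s, hs, hc⟩ : ∃ s : ℝ, |s| ≤ 1 ∧ 1 ≤ 4 * B * |c - d * s| := by
    by_cases hcc : 1 ≤ 4 * B * |c|
    · exact ⟨0, by simp, by simpa using hcc⟩
    · push Not at hcc
      refine ⟨1, by simp, ?_⟩
      have e1 : (1 : ℝ) ≤ |a * d| + |b * c| := by
        calc (1 : ℝ) = |a * d - b * c| := by rw [hdet]; simp
          _ ≤ _ := abs_sub _ _
      rw [abs_mul, abs_mul] at e1
      have e2 : |a| * |d| ≤ B * |d| := by gcongr
      have e3 : |b| * |c| ≤ B * |c| := by gcongr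
      have e4 : |d| - |c| ≤ |c - d * 1| := by
        have := abs_sub_abs_le_abs_sub d c
        rw [abs_sub_comm] at this
        simpa using this
      nlinarith
  set c' := c - d * s with hc'
  have hc'0 : c' ≠ 0 := by
    intro h0
    rw [h0] at hc
    simp at hc
    linarith
  have hinv : |1 / c'| ≤ 4 * B := by
    rw [abs_div, abs_one, div_le_iff₀ (abs_pos.2 hc'0)]
    exact hc
  refine ⟨(a - b * s - 1) / c', c', (d - 1) / c', s, ?_, ?_, ?_, ?_, ?_⟩
  · rw [div_eq_mul_one_div, abs_mul]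
    have : |a - b * s - 1| ≤ 3 * B := by
      have e1 : |a - b * s - 1| ≤ |a| + |b * s| + 1 := by
        have := abs_sub (a - b * s) 1
        have := abs_sub a (b * s)
        simp at *
        linarith
      rw [abs_mul] at e1
      have : |b| * |s| ≤ B * 1 := by gcongr
      linarith
    calc |a - b * s - 1| * |1 / c'| ≤ (3 * B) * (4 * B) := by gcongr
      _ = 12 * B ^ 2 := by ring
  · have e1 : |c'| ≤ |c| + |d * s| := abs_sub _ _
    rw [abs_mul] at e1
    have : |d| * |s| ≤ B * 1 := by gcongr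
    linarith
  · rw [div_eq_mul_one_div, abs_mul]
    have : |d - 1| ≤ 3 * B := by
      have := abs_sub d 1
      simp at this
      linarith
    calc |d - 1| * |1 / c'| ≤ (3 * B) * (4 * B) := by gcongr
      _ = 12 * B ^ 2 := by ring
  · linarith
  · apply sl2_ext
    · simp only [mul_00, mul_01, nn_00, nn_01, nn_10, nn_11, nm_00, nm_01, nm_10, nm_11]
      change a = _
      field_simp
      linear_combination (-s) * hdet + b * s * hc'
    · simp only [mul_00, mul_01, nn_00, nn_01, nn_10, nn_11, nm_00, nm_01, nm_10, nm_11]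
      change b = _
      field_simp
      rw [hc']
      linear_combination (-1) * hdet
    · simp only [mul_10, mul_11, nn_00, nn_01, nn_10, nn_11, nm_00, nm_01, nm_10, nm_11]
      change c = _
      field_simp
      rw [hc']
      ring
    · simp only [mul_10, mul_11, nn_00, nn_01, nn_10, nn_11, nm_00, nm_01, nm_10, nm_11]
      change d = _
      field_simp
      ring

end Pool.Agent.W745
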