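import Pool.Agent.W745.Avg
import Pool.Agent.W745.Mautner

/-! The energy decrement. -/

open MeasureTheory Real Set
open scoped ENNReal

namespace Pool.Agent.W745

noncomputable section

variable {X : Type} [MeasurableSpace X] {μ : Measure X} [MulAction SL2 X]
variable {q : ℝ} {F : X → ℝ}

/-- the displacement function of `g` -/
def disp (μ : Measure X) (g : X → ℝ) (h : SL2) : ℝ := nr μ (fun y => g (h • y) - g y)

lemma disp_lenFn [IsProbabilityMeasure μ] (hA : Act μ) {g : X → ℝ} (hg : Measurable g) {C : ℝ}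
    (hC : ∀ x, |g x| ≤ C) : LenFn (disp μ g) where
  nonneg h := nr_nonneg _
  mul a b := by
    unfold disp
    have m1 : MemLp (fun y => g ((a * b) • y)) 2 μ :=
      memLp_of_bdd (hg.comp (hA.meas_g _)) fun y => hC _
    have m2 : MemLp (fun y => g (b • y)) 2 μ :=
      memLp_of_bdd (hg.comp (hA.meas_g _)) fun y => hC _
    have m3 : MemLp g 2 μ := memLp_of_bdd hg hC
    have h1 := nr_tri m1 m2 m3
    have h2 : nr μ (fun y => g ((a * b) • y) - g (b • y)) = nr μ (fun y => g (a • y) - g y) := by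
      have h3 := nr_comp (μ := μ) (f := fun y => g (a • y) - g y)
        ((hg.comp (hA.meas_g a)).sub hg).aestronglyMeasurable (hA.mp b)
      rw [← h3]
      congr 1
      ext y
      rw [mul_smul]
    linarith
  inv a := by
    unfold disp
    have h3 := nr_comp (μ := μ) (f := fun y => g (a • y) - g y)
      ((hg.comp (hA.meas_g a)).sub hg).aestronglyMeasurable (hA.mp a⁻¹)
    rw [← h3]
    apply le_of_eq
    rw [nr_sub_comm]
    congr 1
    ext y
    rw [smul_inv_smul]

lemma disp_one {g : X → ℝ} : disp μ g 1 ≤ 0 := by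
  unfold disp nr
  have : (fun y => g ((1 : SL2) • y) - g y) = fun _ => (0 : ℝ) := by
    ext y; rw [one_smul, sub_self]
  rw [this]
  simp

section energy

variable [IsProbabilityMeasure μ] (hA : Act μ) (hF : Reg q F) (hq : 0 ≤ q) (hFi : Integrable F μ)
  {α β : ℝ} (hα : 0 ≤ α) (hβ : 0 ≤ β)

/-- the truncated average -/
def gg (α β L : ℝ) (F : X → ℝ) (y : X) : ℝ := psi α β (MM L F y)

/-- the energy -/
def en (μ : Measure X) (α β L : ℝ) (F : X → ℝ) : ℝ := ∫ y, Phi α β (MM L F y) ∂μ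

include hA hF in
lemma gg_meas (L : ℝ) : Measurable (gg α β L F) :=
  (psi_continuous α β).measurable.comp (meas_MM hA hF.meas L)

include hβ in
lemma gg_bdd (L : ℝ) (y : X) : |gg α β L F y| ≤ β := abs_psi_le hβ _

include hA hF hFi hα hβ in
lemma en_int {L : ℝ} (hL : 0 < L) : Integrable (fun y => Phi α β (MM L F y)) μ := by
  refine ((MM_integrable hA hF hFi hL).const_mul β).mono
    ((Phi_continuous α β).measurable.comp (meas_MM hA hF.meas L)).aestronglyMeasurable ?_
  refine Filter.Eventually.of_forall fun y => ?_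
  have h1 := hF.MM_nonneg hL y
  rw [norm_eq_abs, norm_eq_abs, abs_of_nonneg (Phi_nonneg hβ _), abs_of_nonneg (by positivity)]
  exact Phi_le hα hβ h1

include hβ in
lemma en_nonneg (L : ℝ) : 0 ≤ en μ α β L F := integral_nonneg fun y => Phi_nonneg hβ _

include hA hF hFi hα hβ in
lemma en_le {L : ℝ} (hL : 0 < L) : en μ α β L F ≤ β * ∫ y, F y ∂μ := by
  rw [← MM_integral hA hF hFi hL, ← integral_const_mul]
  exact integral_mono (en_int hA hF hFi hα hβ hL) ((MM_integrable hA hF hFi hL).const_mul β)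
    fun y => Phi_le hα hβ (hF.MM_nonneg hL y)

include hA hF hq hFi hα hβ in
/-- one step of the energy decrement -/
lemma step {L : ℝ} (hL : 0 < L) :
    nr μ (fun y => gg α β L F y - gg α β (2 * L) F y) ^ 2 ≤
      4 * (en μ α β L F - en μ α β (2 * L) F) ∧
    nr μ (fun y => gg α β L F (nn L • y) - gg α β (2 * L) F y) ^ 2 ≤
      8 * (en μ α β L F - en μ α β (2 * L) F) := by
  have h2L : 0 < 2 * L := by linarith
  have mg := gg_meas hA hF (α := α) (β := β) L
  have mg2 := gg_meas hA hF (α := α) (β := β) (2 * L)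
  have sqint : ∀ u v : X → ℝ, Measurable u → Measurable v → (∀ y, |u y| ≤ β) → (∀ y, |v y| ≤ β) →
      Integrable (fun y => (u y - v y) ^ 2) μ ∧ MemLp (fun y => u y - v y) 2 μ := by
    intro u v hu hv hub hvb
    have hb : ∀ y, |u y - v y| ≤ 2 * β := fun y => by
      have := abs_sub (u y) (v y)
      linarith [hub y, hvb y]
    refine ⟨integrable_of_bdd' ((hu.sub hv).pow_const 2) (C := (2 * β) ^ 2) fun y => ?_,
      memLp_of_bdd (hu.sub hv) hb⟩
    rw [abs_pow]
    exact pow_le_pow_left₀ (abs_nonneg _) (hb y) 2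
  have mgm : Measurable fun y => gg α β L F (nn (-L) • y) := mg.comp (hA.meas_g _)
  have mgp : Measurable fun y => gg α β L F (nn L • y) := mg.comp (hA.meas_g _)
  obtain ⟨i1, l1⟩ := sqint _ _ mgm mg2 (fun y => gg_bdd hβ L _) (fun y => gg_bdd hβ _ y)
  obtain ⟨i2, l2⟩ := sqint _ _ mg mg2 (fun y => gg_bdd hβ L _) (fun y => gg_bdd hβ _ y)
  obtain ⟨i3, l3⟩ := sqint _ _ mgp mg2 (fun y => gg_bdd hβ L _) (fun y => gg_bdd hβ _ y)
  have j0 := en_int hA hF hFi hα hβ hL
  have j1 : Integrable (fun y => Phi α β (MM L F (nn (-L) • y))) μ := int_comp hA _ j0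
  have j3 : Integrable (fun y => Phi α β (MM L F (nn L • y))) μ := int_comp hA _ j0
  have j2 := en_int hA hF hFi hα hβ h2L
  have k1 : ∫ y, Phi α β (MM L F (nn (-L) • y)) ∂μ = en μ α β L F :=
    integral_comp_g (F := fun y => Phi α β (MM L F y)) hA _ j0.1
  have k3 : ∫ y, Phi α β (MM L F (nn L • y)) ∂μ = en μ α β L F :=
    integral_comp_g (F := fun y => Phi α β (MM L F y)) hA _ j0.1
  have main : ∫ y, ((gg α β L F (nn (-L) • y) - gg α β (2 * L) F y) ^ 2
      + 2 * (gg α β L F y - gg α β (2 * L) F y) ^ 2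
      + (gg α β L F (nn L • y) - gg α β (2 * L) F y) ^ 2) / 8 ∂μ ≤
      ∫ y, ((Phi α β (MM L F (nn (-L) • y)) + 2 * Phi α β (MM L F y) +
        Phi α β (MM L F (nn L • y))) / 4 - Phi α β (MM (2 * L) F y)) ∂μ := by
    refine integral_mono (((i1.add (i2.const_mul 2)).add i3).div_const 8)
      ((((j1.add (j0.const_mul 2)).add j3).div_const 4).sub j2) fun y => ?_
    have h := jensen3 (α := α) hβ (MM L F (nn (-L) • y)) (MM L F y) (MM L F (nn L • y))
    rw [← MM_double hA hF hq hL y] at h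
    exact h
  have e1 : ∫ y, ((gg α β L F (nn (-L) • y) - gg α β (2 * L) F y) ^ 2
      + 2 * (gg α β L F y - gg α β (2 * L) F y) ^ 2
      + (gg α β L F (nn L • y) - gg α β (2 * L) F y) ^ 2) / 8 ∂μ =
      (nr μ (fun y => gg α β L F (nn (-L) • y) - gg α β (2 * L) F y) ^ 2 +
       2 * nr μ (fun y => gg α β L F y - gg α β (2 * L) F y) ^ 2 +
       nr μ (fun y => gg α β L F (nn L • y) - gg α β (2 * L) F y) ^ 2) / 8 := by
    rw [nr_sq l1, nr_sq l2, nr_sq l3, integral_div, ← integral_const_mul,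
      ← integral_add i1 (i2.const_mul 2)]
    congr 1
    exact integral_add (i1.add (i2.const_mul 2)) i3
  have e2 : ∫ y, ((Phi α β (MM L F (nn (-L) • y)) + 2 * Phi α β (MM L F y) +
        Phi α β (MM L F (nn L • y))) / 4 - Phi α β (MM (2 * L) F y)) ∂μ =
        en μ α β L F - en μ α β (2 * L) F := by
    have t1 : ∫ y, ((Phi α β (MM L F (nn (-L) • y)) + 2 * Phi α β (MM L F y) +
        Phi α β (MM L F (nn L • y))) / 4 - Phi α β (MM (2 * L) F y)) ∂μ =
        (∫ y, (Phi α β (MM L F (nn (-L) • y)) + 2 * Phi α β (MM L F y) +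
        Phi α β (MM L F (nn L • y))) / 4 ∂μ) - ∫ y, Phi α β (MM (2 * L) F y) ∂μ :=
      integral_sub (((j1.add (j0.const_mul 2)).add j3).div_const 4) j2
    have t2 : ∫ y, (Phi α β (MM L F (nn (-L) • y)) + 2 * Phi α β (MM L F y) +
        Phi α β (MM L F (nn L • y))) ∂μ = (∫ y, (Phi α β (MM L F (nn (-L) • y)) +
          2 * Phi α β (MM L F y)) ∂μ) + ∫ y, Phi α β (MM L F (nn L • y)) ∂μ :=
      integral_add (j1.add (j0.const_mul 2)) j3
    have t3 : (∫ y, (Phi α β (MM L F (nn (-L) • y)) +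
          2 * Phi α β (MM L F y)) ∂μ) = (∫ y, Phi α β (MM L F (nn (-L) • y)) ∂μ) +
          ∫ y, 2 * Phi α β (MM L F y) ∂μ := integral_add j1 (j0.const_mul 2)
    rw [t1, integral_div, t2, t3, integral_const_mul, k1, k3]
    unfold en
    ring
  rw [e1, e2] at main
  have n1 := sq_nonneg (nr μ (fun y => gg α β L F (nn (-L) • y) - gg α β (2 * L) F y))
  have n2 := sq_nonneg (nr μ (fun y => gg α β L F y - gg α β (2 * L) F y))
  have n3 := sq_nonneg (nr μ (fun y => gg α β L F (nn L • y) - gg α β (2 * L) F y))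
  constructor <;> linarith

include hA hF hq hFi hα hβ in
lemma en_anti {L : ℝ} (hL : 0 < L) : en μ α β (2 * L) F ≤ en μ α β L F := by
  have h := (step hA hF hq hFi hα hβ hL).1
  have n2 := sq_nonneg (nr μ (fun y => gg α β L F y - gg α β (2 * L) F y))
  linarith

include hA hF hq hFi hα hβ in
lemma en_anti_pow {L : ℝ} (hL : 0 < L) : Antitone fun i : ℕ => en μ α β (2 ^ i * L) F := by
  apply antitone_nat_of_succ_le
  intro n
  have := en_anti hA hF hq hFi hα hβ (L := 2 ^ n * L) (by positivity)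
  rwa [← mul_assoc, ← pow_succ'] at this

include hA hF hq hFi hα hβ in
/-- the energy decrement controls the displacement by long horocyclic translations -/
lemma chain {L : ℝ} (hL : 0 < L) {m : ℕ} {D : ℝ}
    (hD : en μ α β L F - en μ α β (2 ^ m * L) F ≤ D) (i : ℕ) (hi : i < m) :
    nr μ (fun y => gg α β L F (nn (2 ^ i * L) • y) - gg α β L F y) ≤ 9 * m * √D := by
  have hanti := en_anti_pow hA hF hq hFi hα hβ hL
  have hG : ∀ j < m, en μ α β (2 ^ j * L) F - en μ α β (2 ^ (j + 1) * L) F ≤ D := by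
    intro j hj
    have h1 := hanti (Nat.zero_le j)
    have h2 := hanti (show j + 1 ≤ m by omega)
    simp only [pow_zero, one_mul] at h1
    simp only at h2
    linarith
  have hD0 : 0 ≤ D := by
    have h1 := hanti (Nat.zero_le m)
    simp only [pow_zero, one_mul] at h1
    linarith
  have hst : ∀ j < m,
      nr μ (fun y => gg α β (2 ^ j * L) F y - gg α β (2 ^ (j + 1) * L) F y) ≤ 2 * √D ∧
      nr μ (fun y => gg α β (2 ^ j * L) F (nn (2 ^ j * L) • y) - gg α β (2 ^ (j + 1) * L) F y) ≤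
        3 * √D := by
    intro j hj
    have h := step hA hF hq hFi hα hβ (L := 2 ^ j * L) (by positivity)
    rw [← mul_assoc, ← pow_succ'] at h
    have h3 := hG j hj
    constructor
    · refine abs_le_of_sq_le_sq' ?_ (by positivity) |>.2
      rw [mul_pow, Real.sq_sqrt hD0]
      linarith [h.1]
    · refine abs_le_of_sq_le_sq' ?_ (by positivity) |>.2
      rw [mul_pow, Real.sq_sqrt hD0]
      linarith [h.2]
  have ml : ∀ L' : ℝ, MemLp (gg α β L' F) 2 μ := fun L' =>
    memLp_of_bdd (gg_meas hA hF L') fun y => gg_bdd hβ L' y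
  have mlc : ∀ (L' : ℝ) (h : SL2), MemLp (fun y => gg α β L' F (h • y)) 2 μ := fun L' h =>
    memLp_of_bdd ((gg_meas hA hF L').comp (hA.meas_g h)) fun y => gg_bdd hβ L' _
  have h0 : ∀ j ≤ m, nr μ (fun y => gg α β L F y - gg α β (2 ^ j * L) F y) ≤ 2 * j * √D := by
    intro j
    induction j with
    | zero =>
      intro _
      simp [nr]
    | succ n ih =>
      intro hn
      have h1 := ih (by omega)
      have h2 := (hst n (by omega)).1
      have h3 := nr_tri (ml L) (ml (2 ^ n * L)) (ml (2 ^ (n + 1) * L))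
      push_cast
      linarith
  have a1 := h0 i hi.le
  have a2 := hst i hi
  have a3 : nr μ (fun y => gg α β L F (nn (2 ^ i * L) • y) -
      gg α β (2 ^ i * L) F (nn (2 ^ i * L) • y)) ≤ 2 * i * √D := by
    have := nr_comp (μ := μ) (f := fun y => gg α β L F y - gg α β (2 ^ i * L) F y)
      ((gg_meas hA hF _).sub (gg_meas hA hF _)).aestronglyMeasurable (hA.mp (nn (2 ^ i * L)))
    rw [this]
    exact a1
  have b1 := nr_tri (mlc L (nn (2 ^ i * L))) (mlc (2 ^ i * L) (nn (2 ^ i * L))) (ml L)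
  have b2 := nr_tri (mlc (2 ^ i * L) (nn (2 ^ i * L))) (ml (2 ^ (i + 1) * L)) (ml L)
  have b3 := nr_tri (ml (2 ^ (i + 1) * L)) (ml (2 ^ i * L)) (ml L)
  rw [nr_sub_comm (gg α β (2 ^ (i + 1) * L) F) (gg α β (2 ^ i * L) F),
    nr_sub_comm (gg α β (2 ^ i * L) F) (gg α β L F)] at b3
  have him : ((i : ℝ) + 1) ≤ m := by exact_mod_cast hi
  have hs : 0 ≤ √D := Real.sqrt_nonneg _
  have c1 : ((i : ℝ) + 1) * √D ≤ m * √D := by gcongr
  nlinarith [a2.1, a2.2]

include hA hF hq hFi hα hβ in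
/-- the same in renormalised coordinates -/
lemma chain' (s : ℝ) {m : ℕ} {D : ℝ}
    (hD : en μ α β (exp (2 * s)) F - en μ α β (2 ^ m * exp (2 * s)) F ≤ D) (i : ℕ) (hi : i < m) :
    disp μ (fun y => psi α β (PP s F y)) (nn (2 ^ i)) ≤ 9 * m * √D := by
  have h := chain hA hF hq hFi hα hβ (exp_pos (2 * s)) hD i hi
  unfold disp
  have h2 := nr_comp (μ := μ) (f := fun y => gg α β (exp (2 * s)) F (nn (2 ^ i * exp (2 * s)) • y) -
    gg α β (exp (2 * s)) F y)
      (((gg_meas hA hF _).comp (hA.meas_g _)).sub (gg_meas hA hF _)).aestronglyMeasurable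
      (hA.mp (dg s))
  rw [← h2] at h
  refine le_of_eq_of_le ?_ h
  congr 1
  ext y
  show psi α β (PP s F (nn (2 ^ i) • y)) - psi α β (PP s F y) = _
  rw [PP_eq, PP_eq, smul_smul, dg_nn, mul_comm (exp (2 * s)), mul_smul]
  rfl

end energy

end

end Pool.Agent.W745
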