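import Pool.Agent.W745.Smooth

/-! Assembly of the ergodic theorem. -/

open MeasureTheory Set Filter Topology Real
open scoped ENNReal NNReal

namespace Pool.Agent.W745

noncomputable section

variable {X : Type} [MeasurableSpace X] {μ : Measure X} [MulAction SL2 X]
variable {q : ℝ} {f : X → ℝ}
variable [MeasurableSpace SL2] [BorelSpace SL2]

lemma ann_le {m : Measure SL2} {κ : ℝ} (hm : HM m κ) {u : SL2 → ℝ} (hu : Measurable u) {N : ℝ}
    (h0 : ∀ g, 0 ≤ u g) (hN : ∀ g, u g ≤ N) {R l : ℝ} (hR : 2 < R) (hl : 1 ≤ l) :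
    ∫ g in FR (l * R), u g ∂m ≤ ∫ g in FR R, u g ∂m + N * (κ * (l - 1) * R) := by
  have hκ := hm.pos
  have hlR : R ≤ l * R := by nlinarith
  have hsub : FR R ⊆ FR (l * R) := fun g (hg : NN g < R) => lt_of_lt_of_le hg hlR
  have hint : ∀ r : ℝ, IntegrableOn u (FR r) m := fun r => by
    refine Measure.integrableOn_of_bounded (M := N) (FR_fin hm r) hu.aestronglyMeasurable ?_
    exact Filter.Eventually.of_forall fun g => by
      rw [norm_eq_abs, abs_of_nonneg (h0 g)]; exact hN g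
  have e1 : ∫ g in FR (l * R), u g ∂m = ∫ g in FR R, u g ∂m + ∫ g in FR (l * R) \ FR R, u g ∂m := by
    rw [← setIntegral_union disjoint_sdiff_right ((FR_meas _).diff (FR_meas _)) (hint R)
      ((hint (l * R)).mono_set sdiff_subset), union_sdiff_cancel hsub]
  have hfin : m (FR (l * R) \ FR R) ≠ ⊤ :=
    ne_top_of_le_ne_top (FR_fin hm (l * R)) (measure_mono sdiff_subset)
  have e2 : ∫ g in FR (l * R) \ FR R, u g ∂m ≤ ∫ g in FR (l * R) \ FR R, N ∂m :=
    setIntegral_mono ((hint (l * R)).mono_set sdiff_subset) (integrableOn_const hfin) hN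
  have e3 : ∫ g in FR (l * R) \ FR R, N ∂m = N * (κ * (l - 1) * R) := by
    rw [setIntegral_const, smul_eq_mul, measureReal_sdiff hsub (FR_meas R) (FR_fin hm (l * R)),
      Measure.real, Measure.real, FR_real hm (by linarith), FR_real hm hR]
    ring
  rw [e1]
  linarith

lemma Q_bound (hG : GAct μ) (hf : Measurable f) (hf0 : ∀ y, 0 ≤ f y) {N : ℝ}
    (hN : ∀ y, f y ≤ N) {m : Measure SL2} {κ : ℝ} (hm : HM m κ) {R l : ℝ} (hR : 2 < R)
    (hl : 1 ≤ l) {g : SL2} (h1 : ∀ h, NN (g * h) ≤ l * NN h) (h2 : ∀ h, NN (g⁻¹ * h) ≤ l * NN h)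
    (x : X) : |∫ h in FR R, f (g • h • x) ∂m - ∫ h in FR R, f (h • x) ∂m| ≤
      N * (κ * (l - 1) * R) := by
  have hl0 : 0 < l := by linarith
  have hu : Measurable fun h : SL2 => f (h • x) := hf.comp (hG.meas_orbit x)
  have hug : Measurable fun h : SL2 => f (g • h • x) :=
    hf.comp ((hG.act.meas_g g).comp (hG.meas_orbit x))
  have hint : ∀ (v : SL2 → ℝ), Measurable v → (∀ h, 0 ≤ v h) → (∀ h, v h ≤ N) → ∀ r : ℝ,
      IntegrableOn v (FR r) m := fun v hv hv0 hvN r => by
    refine Measure.integrableOn_of_bounded (M := N) (FR_fin hm r) hv.aestronglyMeasurable ?_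
    exact Filter.Eventually.of_forall fun g => by
      rw [norm_eq_abs, abs_of_nonneg (hv0 g)]; exact hvN g
  have emb := (MeasurableEquiv.mulLeft g).measurableEmbedding
  -- first inequality
  have a1 := (hm.left g).setIntegral_preimage_emb emb (fun h => f (h • x))
    ((fun h => g⁻¹ * h) ⁻¹' FR R)
  have a2 : (fun h : SL2 => g * h) ⁻¹' ((fun h => g⁻¹ * h) ⁻¹' FR R) = FR R := by
    ext h
    simp
  rw [a2] at a1
  have a3 : ∫ h in FR R, f ((g * h) • x) ∂m = ∫ h in FR R, f (g • h • x) ∂m := by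
    simp only [mul_smul]
  rw [a3] at a1
  have a4 : (fun h : SL2 => g⁻¹ * h) ⁻¹' FR R ⊆ FR (l * R) := by
    intro h (hh : NN (g⁻¹ * h) < R)
    have := h1 (g⁻¹ * h)
    rw [mul_inv_cancel_left] at this
    show NN h < l * R
    nlinarith
  have a5 : ∫ h in (fun h : SL2 => g⁻¹ * h) ⁻¹' FR R, f (h • x) ∂m ≤
      ∫ h in FR (l * R), f (h • x) ∂m :=
    setIntegral_mono_set (hint _ hu (fun _ => hf0 _) (fun _ => hN _) _)
      (Filter.Eventually.of_forall fun _ => hf0 _) (Filter.Eventually.of_forall a4)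
  have a6 := ann_le hm hu (fun _ => hf0 _) (fun _ => hN _) hR hl
  -- second inequality
  have b1 := (hm.left g).setIntegral_preimage_emb emb (fun h => f (h • x)) (FR R)
  have b3 : ∫ h in (fun h : SL2 => g * h) ⁻¹' FR R, f ((g * h) • x) ∂m =
      ∫ h in (fun h : SL2 => g * h) ⁻¹' FR R, f (g • h • x) ∂m := by
    simp only [mul_smul]
  rw [b3] at b1
  have b4 : (fun h : SL2 => g * h) ⁻¹' FR R ⊆ FR (l * R) := by
    intro h (hh : NN (g * h) < R)
    have := h2 (g * h)
    rw [inv_mul_cancel_left] at this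
    show NN h < l * R
    nlinarith
  have b5 : ∫ h in (fun h : SL2 => g * h) ⁻¹' FR R, f (g • h • x) ∂m ≤
      ∫ h in FR (l * R), f (g • h • x) ∂m :=
    setIntegral_mono_set (hint _ hug (fun _ => hf0 _) (fun _ => hN _) _)
      (Filter.Eventually.of_forall fun _ => hf0 _) (Filter.Eventually.of_forall b4)
  have b6 := ann_le hm hug (fun _ => hf0 _) (fun _ => hN _) hR hl
  rw [abs_le]
  constructor <;> linarith

lemma AR_FF_close (hG : GAct μ) (hf : Measurable f) (hf0 : ∀ y, 0 ≤ f y) {N : ℝ}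
    (hN : ∀ y, f y ≤ N) {m : Measure SL2} {κ : ℝ} (hm : HM m κ) {n : ℕ} (hn : 2 ≤ n) {η : ℝ}
    (hη : 0 < η) {R : ℝ} (hR : 4 ≤ R) (x : X) :
    |AR m R (FF m n f) x - cn m n * AR m R f x| ≤
      2 * N * (exp (2 * η) - 1) * cn m n + N * Tn m n (rr η) := by
  have := sfin hm
  have hκ := hm.pos
  have hN0 : 0 ≤ N := (hf0 x).trans (hN x)
  have hV : (m (FR R)).toReal = κ * (R - 2) := FR_real hm (by linarith)
  have hV0 : 0 < κ * (R - 2) := mul_pos hκ (by linarith)
  set mR := m.restrict (FR R) with hmR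
  have : IsFiniteMeasure mR := ⟨by
    rw [hmR, Measure.restrict_apply_univ]
    exact lt_top_iff_ne_top.2 (FR_fin hm R)⟩
  set Q : SL2 → ℝ := fun g => ∫ h in FR R, f (g • h • x) ∂m with hQ
  set Q1 : ℝ := ∫ h in FR R, f (h • x) ∂m with hQ1
  have hwi := wt_int hm hn
  have hjm : Measurable fun p : SL2 × SL2 => wt n p.2 * f (p.2 • p.1 • x) := by
    refine ((wt_meas n).comp measurable_snd).mul (hf.comp (hG.meas.comp (measurable_snd.prodMk ?_)))
    exact (hG.meas_orbit x).comp measurable_fst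
  have hji : Integrable (fun p : SL2 × SL2 => wt n p.2 * f (p.2 • p.1 • x)) (mR.prod m) := by
    have hdom : Integrable (fun p : SL2 × SL2 => N * wt n p.2) (mR.prod m) :=
      (integrable_const N).mul_prod hwi
    refine hdom.mono' hjm.aestronglyMeasurable (Filter.Eventually.of_forall fun p => ?_)
    rw [norm_eq_abs, abs_of_nonneg (mul_nonneg (wt_pos _ _).le (hf0 _)), mul_comm]
    exact mul_le_mul_of_nonneg_right (hN _) (wt_pos _ _).le
  have hswap := integral_integral_swap (f := fun (h g : SL2) => wt n g * f (g • h • x)) hji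
  have e1 : ∫ h in FR R, FF m n f (h • x) ∂m = ∫ g, wt n g * Q g ∂m := by
    unfold FF
    rw [← hmR, hswap]
    congr 1
    ext g
    rw [integral_const_mul]
  have hiQ : Integrable (fun g => wt n g * Q g) m := by
    refine hji.integral_prod_right.congr (Filter.Eventually.of_forall fun g => ?_)
    simp only [hQ]
    rw [integral_const_mul]
  have e2 : cn m n * Q1 = ∫ g, wt n g * Q1 ∂m := by
    rw [integral_mul_const]
    rfl
  have e3 : AR m R (FF m n f) x - cn m n * AR m R f x =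
      (κ * (R - 2))⁻¹ * ∫ g, wt n g * (Q g - Q1) ∂m := by
    unfold AR
    rw [hV, e1]
    have h1 : ∫ g, wt n g * (Q g - Q1) ∂m = ∫ g, wt n g * Q g ∂m - ∫ g, wt n g * Q1 ∂m := by
      rw [← integral_sub hiQ (hwi.mul_const Q1)]
      congr 1
      ext g
      ring
    rw [h1, ← e2]
    ring
  rw [e3, abs_mul, abs_of_pos (by positivity), inv_mul_le_iff₀ hV0]
  -- pointwise bounds
  have huni : ∀ v : SL2 → ℝ, (∀ h, 0 ≤ v h) → (∀ h, v h ≤ N) →
      0 ≤ ∫ h in FR R, v h ∂m ∧ ∫ h in FR R, v h ∂m ≤ N * (κ * (R - 2)) := by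
    intro v hv0 hvN
    refine ⟨integral_nonneg fun h => hv0 h, ?_⟩
    have h1 : ∫ h in FR R, v h ∂m ≤ ∫ h in FR R, N ∂m := by
      refine integral_mono_of_nonneg (Filter.Eventually.of_forall hv0)
        (integrableOn_const (FR_fin hm R)) (Filter.Eventually.of_forall hvN)
    rw [setIntegral_const, smul_eq_mul, Measure.real, hV] at h1
    linarith
  have hl1 : 1 ≤ exp (2 * η) := Real.one_le_exp (by linarith)
  have hpt : ∀ g, ‖wt n g * (Q g - Q1)‖ ≤ N * (κ * (exp (2 * η) - 1) * R) * wt n g +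
      N * (κ * (R - 2)) * indicator (FR (rr η))ᶜ (wt n) g := by
    intro g
    rw [norm_mul, norm_eq_abs, norm_eq_abs, abs_of_pos (wt_pos n g)]
    have hw := wt_pos n g
    have hp0 : 0 ≤ κ * (exp (2 * η) - 1) * R := by
      have : 0 ≤ exp (2 * η) - 1 := by linarith
      have : 0 ≤ R := by linarith
      positivity
    by_cases hg : g ∈ FR (rr η)
    · rw [indicator_of_notMem (by simpa using hg), mul_zero, add_zero, mul_comm]
      refine mul_le_mul_of_nonneg_right ?_ hw.le
      obtain ⟨θ₁, s, θ₂, hs, rfl⟩ := cartan g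
      have h1 : rr s < rr η := by
        have : NN (kk θ₁ * dg s * kk θ₂) < rr η := hg
        rwa [NN_kdk] at this
      have h2 := rr_lt hs hη.le h1
      have h3 : exp (2 * s) ≤ exp (2 * η) := Real.exp_le_exp.2 (by linarith)
      refine Q_bound hG hf hf0 hN hm (by linarith) hl1 (fun h => ?_) (fun h => ?_) x
      · refine (NN_kdk_mul θ₁ hs θ₂ h).trans ?_
        have := NN_pos h
        gcongr
      · refine (NN_kdk_inv_mul θ₁ hs θ₂ h).trans ?_
        have := NN_pos h
        gcongr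
    · rw [indicator_of_mem (show g ∈ (FR (rr η))ᶜ from hg)]
      obtain ⟨h1, h2⟩ := huni (fun h => f (g • h • x)) (fun _ => hf0 _) (fun _ => hN _)
      obtain ⟨h3, h4⟩ := huni (fun h => f (h • x)) (fun _ => hf0 _) (fun _ => hN _)
      have h5 : |Q g - Q1| ≤ N * (κ * (R - 2)) := by
        rw [abs_le]
        constructor <;> linarith
      have h6 : wt n g * |Q g - Q1| ≤ wt n g * (N * (κ * (R - 2))) := by gcongr
      have h7 : 0 ≤ N * (κ * (exp (2 * η) - 1) * R) * wt n g := by positivity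
      linarith
  have hTi : Integrable (indicator (FR (rr η))ᶜ (wt n)) m := hwi.indicator (FR_meas _).compl
  have hb1 : Integrable (fun g => N * (κ * (exp (2 * η) - 1) * R) * wt n g) m := hwi.const_mul _
  have hb2 : Integrable (fun g => N * (κ * (R - 2)) * indicator (FR (rr η))ᶜ (wt n) g) m :=
    hTi.const_mul _
  have hfin := norm_integral_le_of_norm_le (hb1.add hb2) (Filter.Eventually.of_forall hpt)
  rw [norm_eq_abs] at hfin
  refine hfin.trans ?_
  have e4 := integral_add hb1 hb2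
  have e5 : ∫ g, indicator (FR (rr η))ᶜ (wt n) g ∂m = Tn m n (rr η) :=
    integral_indicator (FR_meas _).compl
  simp only [Pi.add_apply]
  rw [e4, integral_const_mul, integral_const_mul, e5]
  have e6 : ∫ g, wt n g ∂m = cn m n := rfl
  rw [e6]
  have hcn := cn_pos hm hn
  have h8 : N * (κ * (exp (2 * η) - 1) * R) * cn m n ≤
      κ * (R - 2) * (2 * N * (exp (2 * η) - 1) * cn m n) := by
    have h9 : 0 ≤ N * κ * (exp (2 * η) - 1) * cn m n := by
      have : 0 ≤ exp (2 * η) - 1 := by linarith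
      positivity
    nlinarith
  nlinarith

/-- the theorem for bounded nonnegative functions -/
theorem bdd_nonneg [IsProbabilityMeasure μ] (hG : GAct μ) {B ε0 : ℝ} (hgap : Gap μ B ε0)
    (hf : Measurable f) (hf0 : ∀ y, 0 ≤ f y) {N : ℝ} (hN : ∀ y, f y ≤ N) {m : Measure SL2}
    {κ : ℝ} (hm : HM m κ) :
    ∀ᵐ x ∂μ, Tendsto (fun R => AR m R f x) atTop (𝓝 (∫ y, f y ∂μ)) := by
  have hfi : Integrable f μ := integrable_of_bdd' hf (C := N) fun x => by
    rw [abs_of_nonneg (hf0 x)]; exact hN x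
  have hall : ∀ n : ℕ, ∀ᵐ x ∂μ, 2 ≤ n →
      Tendsto (fun R => AR m R (FF m n f) x) atTop (𝓝 (cn m n * ∫ y, f y ∂μ)) := by
    intro n
    by_cases hn : 2 ≤ n
    · have hreg := FF_reg hG hf hf0 hm n
      have hki := FF_ki hG hf hf0 hm n
      have hbd : ∀ y, FF m n f y ≤ cn m n * N := by
        intro y
        have h1 : FF m n f y ≤ ∫ g, wt n g * N ∂m := by
          refine integral_mono_of_nonneg (Filter.Eventually.of_forall fun g =>
            mul_nonneg (wt_pos n g).le (hf0 _)) ((wt_int hm hn).mul_const N)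
            (Filter.Eventually.of_forall fun g => ?_)
          exact mul_le_mul_of_nonneg_left (hN _) (wt_pos n g).le
        rw [integral_mul_const] at h1
        exact h1
      have h2 := tendsto_SS hG.act hgap hreg (by positivity) hki hbd
      rw [(FF_int hG hf hfi hm hn).2] at h2
      filter_upwards [h2] with x hx _
      exact tendsto_AR hG hreg (by positivity) hki hm hx
    · filter_upwards with x h
      exact absurd h hn
  rw [← ae_all_iff] at hall
  filter_upwards [hall] with x hx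
  have hN0 : 0 ≤ N := (hf0 x).trans (hN x)
  rw [Metric.tendsto_nhds]
  intro ε hε
  -- choice of η
  obtain ⟨η, hη, hη2⟩ : ∃ η : ℝ, 0 < η ∧ 2 * N * (exp (2 * η) - 1) < ε / 4 := by
    have hcont : Tendsto (fun η : ℝ => 2 * N * (exp (2 * η) - 1)) (𝓝[>] 0)
        (𝓝 (2 * N * (exp (2 * 0) - 1))) := by
      have : Continuous fun η : ℝ => 2 * N * (exp (2 * η) - 1) := by fun_prop
      exact (this.tendsto 0).mono_left nhdsWithin_le_nhds
    have hz : 2 * N * (exp (2 * 0) - 1) = 0 := by simp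
    rw [hz] at hcont
    have h3 := (hcont.eventually (gt_mem_nhds (show (0 : ℝ) < ε / 4 by positivity))).and
      self_mem_nhdsWithin
    obtain ⟨η, h4, h5⟩ := h3.exists
    exact ⟨η, h5, h4⟩
  have hlim := (Tn_tendsto hm (rr_gt hη)).const_mul N
  rw [mul_zero] at hlim
  obtain ⟨n, hn2, hn⟩ := ((eventually_ge_atTop 2).and
    (hlim.eventually (gt_mem_nhds (show (0 : ℝ) < ε / 4 by positivity)))).exists
  have hcn := cn_pos hm hn2
  have h6 := Metric.tendsto_nhds.1 (hx n hn2) (cn m n * (ε / 4)) (by positivity)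
  filter_upwards [h6, eventually_ge_atTop 4] with R hR1 hR4
  have h7 := AR_FF_close hG hf hf0 hN hm hn2 hη hR4 x
  rw [Real.dist_eq] at hR1 ⊢
  have h8 : cn m n * |AR m R f x - ∫ y, f y ∂μ| < cn m n * ε := by
    have h9 : cn m n * |AR m R f x - ∫ y, f y ∂μ| =
        |cn m n * AR m R f x - cn m n * ∫ y, f y ∂μ| := by
      rw [← mul_sub, abs_mul, abs_of_pos hcn]
    rw [h9]
    have h10 : |cn m n * AR m R f x - cn m n * ∫ y, f y ∂μ| ≤
        |AR m R (FF m n f) x - cn m n * AR m R f x| +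
        |AR m R (FF m n f) x - cn m n * ∫ y, f y ∂μ| := by
      have := abs_sub_le (cn m n * AR m R f x) (AR m R (FF m n f) x) (cn m n * ∫ y, f y ∂μ)
      rw [abs_sub_comm (cn m n * AR m R f x) (AR m R (FF m n f) x)] at this
      exact this
    have h11 : N * Tn m n (rr η) < cn m n * (ε / 4) := by
      have : N * (Tn m n (rr η) / cn m n) = N * Tn m n (rr η) / cn m n := by ring
      rw [this, div_lt_iff₀ hcn] at hn
      linarith
    have h12 : 2 * N * (exp (2 * η) - 1) * cn m n < cn m n * (ε / 4) := by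
      rw [mul_comm (cn m n)]
      exact mul_lt_mul_of_pos_right hη2 hcn
    nlinarith
  exact lt_of_mul_lt_mul_left h8 hcn.le

/-- the theorem for bounded functions -/
theorem bdd_case [IsProbabilityMeasure μ] (hG : GAct μ) {B ε0 : ℝ} (hgap : Gap μ B ε0)
    (hf : Measurable f) {N : ℝ} (hN : ∀ y, |f y| ≤ N) {m : Measure SL2}
    {κ : ℝ} (hm : HM m κ) :
    ∀ᵐ x ∂μ, Tendsto (fun R => AR m R f x) atTop (𝓝 (∫ y, f y ∂μ)) := by
  have hfi : Integrable f μ := integrable_of_bdd' hf hN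
  have h := bdd_nonneg hG hgap (f := fun y => f y + N) (hf.add_const N)
    (fun y => by have := (abs_le.1 (hN y)).1; linarith) (N := 2 * N)
    (fun y => by have := (abs_le.1 (hN y)).2; linarith) hm
  have h1 : ∫ y, (f y + N) ∂μ = (∫ y, f y ∂μ) + N := by
    rw [integral_add hfi (integrable_const N)]
    simp
  rw [h1] at h
  filter_upwards [h] with x hx
  have h2 := hx.sub_const N
  rw [add_sub_cancel_right] at h2
  refine h2.congr' ?_
  filter_upwards [eventually_gt_atTop 2] with R hR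
  have hV0 : 0 < κ * (R - 2) := mul_pos hm.pos (by linarith)
  unfold AR
  have hi : IntegrableOn (fun g : SL2 => f (g • x)) (FR R) m :=
    Measure.integrableOn_of_bounded (M := N) (FR_fin hm R)
      (hf.comp (hG.meas_orbit x)).aestronglyMeasurable
      (Filter.Eventually.of_forall fun g => hN _)
  rw [integral_add hi (integrableOn_const (FR_fin hm R)), setIntegral_const, smul_eq_mul,
    Measure.real, FR_real hm hR, mul_add, inv_mul_cancel_left₀ hV0.ne']
  ring

lemma NN_inv_mul_le (g h : SL2) : NN (g⁻¹ * h) ≤ NN g * NN h := by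
  obtain ⟨θ₁, s, θ₂, hs, rfl⟩ := cartan g
  refine (NN_kdk_inv_mul θ₁ hs θ₂ h).trans ?_
  rw [NN_kdk]
  have := NN_pos h
  gcongr
  linarith [Real.exp_pos (-(2 * s))]

/-- comparison of the averages of a function with the averages of its smoothing -/
lemma max_compare (hG : GAct μ) (hf : Measurable f) (hf0 : ∀ y, 0 ≤ f y) {m : Measure SL2}
    {κ : ℝ} (hm : HM m κ) {x : X} (hx : ∀ᵐ h ∂m, Fe m 2 f (h • x) ≠ ⊤) {R : ℝ} (hR : 4 ≤ R) :
    AR m R f x ≤ 8 / (∫ g in FR 4, wt 2 g ∂m) * AR m (4 * R) (FF m 2 f) x := by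
  have := sfin hm
  have hκ := hm.pos
  set k2 := ∫ g in FR 4, wt 2 g ∂m with hk2
  have hk2p : 0 < k2 := by
    have h1 := set_wt_ge hm (n := 2) le_rfl (R := 4) (by norm_num)
    have h2 : (0 : ℝ) < 4⁻¹ ^ 2 * (κ * (4 - 2)) := by
      have : 0 < κ * (4 - 2) := mul_pos hκ (by norm_num)
      positivity
    linarith
  have hV : (m (FR R)).toReal = κ * (R - 2) := FR_real hm (by linarith)
  have hV4 : (m (FR (4 * R))).toReal = κ * (4 * R - 2) := FR_real hm (by linarith)
  have hV0 : 0 < κ * (R - 2) := mul_pos hκ (by linarith)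
  have hV40 : 0 < κ * (4 * R - 2) := mul_pos hκ (by linarith)
  have hum : Measurable fun h : SL2 => ENNReal.ofReal (f (h • x)) :=
    (hf.comp (hG.meas_orbit x)).ennreal_ofReal
  set L : ℝ≥0∞ := ∫⁻ h in FR R, ENNReal.ofReal (f (h • x)) ∂m with hL
  -- the key inequality
  have hjm : Measurable fun p : SL2 × SL2 => ENNReal.ofReal (wt 2 p.2 * f (p.2 • p.1 • x)) := by
    refine Measurable.ennreal_ofReal (((wt_meas 2).comp measurable_snd).mul
      (hf.comp (hG.meas.comp (measurable_snd.prodMk ?_))))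
    exact (hG.meas_orbit x).comp measurable_fst
  have hA : ENNReal.ofReal k2 * L ≤ ∫⁻ h in FR (4 * R), Fe m 2 f (h • x) ∂m := by
    unfold Fe
    rw [lintegral_lintegral_swap hjm.aemeasurable]
    have h1 : ∫⁻ g in FR 4, ENNReal.ofReal (wt 2 g) * L ∂m ≤
        ∫⁻ g, ∫⁻ h in FR (4 * R), ENNReal.ofReal (wt 2 g * f (g • h • x)) ∂m ∂m := by
      refine le_trans ?_ (setLIntegral_le_lintegral (FR 4) _)
      refine setLIntegral_mono' (FR_meas 4) fun g hg => ?_
      have h2 : ∫⁻ h in FR (4 * R), ENNReal.ofReal (wt 2 g * f (g • h • x)) ∂m =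
          ENNReal.ofReal (wt 2 g) * ∫⁻ h in FR (4 * R), ENNReal.ofReal (f (g • h • x)) ∂m := by
        rw [← lintegral_const_mul]
        · congr 1
          ext h
          rw [ENNReal.ofReal_mul (wt_pos 2 g).le]
        · exact (hf.comp ((hG.act.meas_g g).comp (hG.meas_orbit x))).ennreal_ofReal
      rw [h2]
      gcongr
      have h3 := (hm.left g).setLIntegral_comp_preimage
        (s := (fun h => g⁻¹ * h) ⁻¹' FR (4 * R)) (f := fun h : SL2 => ENNReal.ofReal (f (h • x)))
        ((measurable_const_mul g⁻¹) (FR_meas _)) hum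
      have h4 : (fun h : SL2 => g * h) ⁻¹' ((fun h => g⁻¹ * h) ⁻¹' FR (4 * R)) = FR (4 * R) := by
        ext h
        simp
      rw [h4] at h3
      simp only [mul_smul] at h3
      rw [h3]
      apply lintegral_mono_set
      intro h (hh : NN h < R)
      have h5 := NN_inv_mul_le g h
      have h6 : NN g < 4 := hg
      have h7 := NN_pos h
      have h8 := NN_pos g
      show NN (g⁻¹ * h) < 4 * R
      nlinarith
    refine le_trans (le_of_eq ?_) h1
    rw [lintegral_mul_const _ (wt_meas 2).ennreal_ofReal]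
    congr 1
    rw [hk2, ofReal_integral_eq_lintegral_ofReal (wt_int hm le_rfl).integrableOn
      (Filter.Eventually.of_forall fun g => (wt_pos 2 g).le)]
  have hreg := FF_reg hG hf hf0 hm 2
  have hki := FF_ki hG hf hf0 hm 2
  have hi4 := ioF hG hreg (by positivity) hki hm (4 * R) x
  have hB : ∫⁻ h in FR (4 * R), Fe m 2 f (h • x) ∂m =
      ENNReal.ofReal (∫ h in FR (4 * R), FF m 2 f (h • x) ∂m) := by
    rw [ofReal_integral_eq_lintegral_ofReal hi4
      (Filter.Eventually.of_forall fun h => hreg.nonneg _)]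
    apply lintegral_congr_ae
    filter_upwards [ae_restrict_of_ae hx] with h hh
    rw [FF_eq hG hf hf0, ENNReal.ofReal_toReal hh]
  rw [hB] at hA
  have hLfin : L ≠ ⊤ := by
    intro h
    rw [h, ENNReal.mul_top (ENNReal.ofReal_pos.2 hk2p).ne', top_le_iff] at hA
    exact ENNReal.ofReal_ne_top hA
  have h9 : k2 * L.toReal ≤ ∫ h in FR (4 * R), FF m 2 f (h • x) ∂m := by
    have h10 := ENNReal.toReal_mono ENNReal.ofReal_ne_top hA
    rwa [ENNReal.toReal_mul, ENNReal.toReal_ofReal hk2p.le,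
      ENNReal.toReal_ofReal (integral_nonneg fun h => hreg.nonneg _)] at h10
  have h11 : ∫ h in FR R, f (h • x) ∂m = L.toReal :=
    integral_eq_lintegral_of_nonneg_ae (Filter.Eventually.of_forall fun h => hf0 _)
      (hf.comp (hG.meas_orbit x)).aestronglyMeasurable
  unfold AR
  rw [hV, hV4, h11]
  set I := ∫ h in FR (4 * R), FF m 2 f (h • x) ∂m with hI
  have hI0 : 0 ≤ I := integral_nonneg fun h => hreg.nonneg _
  have h12 : (κ * (R - 2))⁻¹ ≤ 8 * (κ * (4 * R - 2))⁻¹ := by
    rw [← div_eq_mul_inv, le_div_iff₀ hV40, inv_mul_le_iff₀ hV0]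
    nlinarith
  have h13 : L.toReal ≤ I / k2 := by
    rw [le_div_iff₀ hk2p]
    linarith
  calc (κ * (R - 2))⁻¹ * L.toReal ≤ (8 * (κ * (4 * R - 2))⁻¹) * (I / k2) := by
        gcongr
    _ = _ := by ring

/-- the constant in the maximal inequality -/
def C4 (m : Measure SL2) : ℝ :=
  8 / (∫ g in FR 4, wt 2 g ∂m) * (4 * exp (2 * (2 * ((2 : ℕ) : ℝ))) * (cn m 2 + 1) + 1)

lemma C4_nonneg {m : Measure SL2} {κ : ℝ} (hm : HM m κ) : 0 ≤ C4 m := by
  have h1 : 0 ≤ ∫ g in FR 4, wt 2 g ∂m := integral_nonneg fun g => (wt_pos 2 g).le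
  have h2 := cn_pos hm (n := 2) le_rfl
  unfold C4
  positivity

/-- the maximal inequality -/
theorem max_ineq [IsProbabilityMeasure μ] (hG : GAct μ) {B ε0 : ℝ} (hgap : Gap μ B ε0)
    (hf : Measurable f) (hf0 : ∀ y, 0 ≤ f y) (hfi : Integrable f μ) {m : Measure SL2}
    {κ : ℝ} (hm : HM m κ) :
    ∀ᵐ x ∂μ, ∀ δ : ℝ, 0 < δ → ∀ᶠ R in atTop, AR m R f x ≤ C4 m * ((∫ y, f y ∂μ) + δ) := by
  have := sfin hm
  have hreg := FF_reg hG hf hf0 hm 2
  have hki := FF_ki hG hf hf0 hm 2
  obtain ⟨hFi, hFe⟩ := FF_int hG hf hfi hm (n := 2) le_rfl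
  have h1 := limsup_SS hG.act hgap hreg (by positivity) hki hFi
  rw [hFe] at h1
  have h2 : ∀ᵐ x ∂μ, ∀ᵐ h ∂m, Fe m 2 f (h • x) ≠ ⊤ := by
    have h3 : ∀ᵐ y ∂μ, Fe m 2 f y ≠ ⊤ := by
      have hp := (prodInt hG hf hfi hm (wt_meas 2) (wt_int hm le_rfl)).prod_right_ae
      filter_upwards [hp] with y hy
      have h4 := hy.2
      rw [hasFiniteIntegral_iff_ofReal (Filter.Eventually.of_forall fun g =>
        mul_nonneg (wt_pos 2 g).le (hf0 _))] at h4
      exact h4.ne
    exact qmp m (φ := fun p : SL2 × X => p.1 • p.2) hG.meas (fun t => hG.mp t) h3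
  filter_upwards [h1, h2] with x hx hx2 δ hδ
  have hS := hx δ hδ
  have h5 := limsup_AR hG hreg (by positivity) hki hm hS hδ
  have h4R : Tendsto (fun R : ℝ => 4 * R) atTop atTop := tendsto_id.const_mul_atTop (by norm_num)
  have h6 := h4R.eventually h5
  set I := ∫ y, f y ∂μ with hI
  have hI0 : 0 ≤ I := integral_nonneg hf0
  have hk2 : 0 ≤ ∫ g in FR 4, wt 2 g ∂m := integral_nonneg fun g => (wt_pos 2 g).le
  have hc2 := cn_pos hm (n := 2) le_rfl
  filter_upwards [h6, eventually_ge_atTop 4] with R hR hR4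
  refine (max_compare hG hf hf0 hm hx2 hR4).trans ?_
  have h7 : AR m (4 * R) (FF m 2 f) x ≤
      (4 * exp (2 * (2 * ((2 : ℕ) : ℝ))) * (cn m 2 + 1) + 1) * (I + δ) := by
    refine hR.trans ?_
    have he : 0 < exp (2 * (2 * ((2 : ℕ) : ℝ))) := exp_pos _
    have h8 : cn m 2 * I + δ ≤ (cn m 2 + 1) * (I + δ) := by nlinarith
    have h9 : 4 * exp (2 * (2 * ((2 : ℕ) : ℝ))) * (cn m 2 * I + δ) ≤
        4 * exp (2 * (2 * ((2 : ℕ) : ℝ))) * ((cn m 2 + 1) * (I + δ)) := by gcongr
    linarith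
  unfold C4
  rw [mul_assoc]
  gcongr

end

end Pool.Agent.W745
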