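import Pool.Agent.W745.Haar

/-! The properties of Haar measure which are used. -/

open MeasureTheory Set Filter Topology
open scoped ENNReal NNReal

namespace Pool.Agent.W745

noncomputable section

variable [MeasurableSpace SL2] [BorelSpace SL2]

/-- the properties of Haar measure that are used -/
structure HM (m : Measure SL2) (κ : ℝ) : Prop where
  pos : 0 < κ
  left : ∀ g : SL2, MeasurePreserving (fun h => g * h) m m
  right : ∀ g : SL2, MeasurePreserving (fun h => h * g) m m
  inv : MeasurePreserving (fun h : SL2 => h⁻¹) m m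
  vol : ∀ R, 2 < R → m (FR R) = ENNReal.ofReal (κ * (R - 2))

lemma cM_finite : IsFiniteMeasureOnCompacts (cM) := by
  constructor
  intro K hK
  obtain ⟨C, hC⟩ := (hK.image NN_continuous).bddAbove
  have hsub : K ⊆ FR (max C 2 + 1) := by
    intro g hg
    have h1 : NN g ≤ C := hC ⟨g, hg, rfl⟩
    show NN g < _
    linarith [le_max_left C 2]
  refine (measure_mono hsub).trans_lt ?_
  rw [cM_FR (by linarith [le_max_right C 2])]
  exact ENNReal.mul_lt_top ENNReal.ofReal_lt_top (lt_top_iff_ne_top.2 kap_ne_top)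

theorem hm_of_haar (m : Measure SL2) [m.IsHaarMeasure] : ∃ κ, HM m κ := by
  have := cM_finite
  have : (cM).IsMulLeftInvariant := ⟨fun g => (cM_left g).map_eq⟩
  have heq := Measure.isMulLeftInvariant_eq_smul cM m
  set c := cM.haarScalarFactor m with hc
  have hne : c ≠ 0 := by
    intro h
    rw [h, zero_smul] at heq
    have h1 := cM_FR (R := 3) (by norm_num)
    rw [heq] at h1
    have h2 : ENNReal.ofReal (3 - 2) * kap = 0 := by rw [← h1]; rfl
    rw [mul_eq_zero] at h2
    rcases h2 with h2 | h2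
    · rw [ENNReal.ofReal_eq_zero] at h2
      linarith
    · exact kap_ne_zero h2
  have hm : m = c⁻¹ • cM := by
    rw [heq, smul_smul, inv_mul_cancel₀ hne, one_smul]
  have hsm : ∀ {f : SL2 → SL2}, MeasurePreserving f cM cM → MeasurePreserving f m m := by
    intro f hf
    rw [hm]
    refine ⟨hf.measurable, ?_⟩
    rw [Measure.map_smul, hf.map_eq]
  have hl : ∀ g : SL2, MeasurePreserving (fun h => g * h) m m := fun g => hsm (cM_left g)
  have hi : MeasurePreserving (fun h : SL2 => h⁻¹) m m := hsm cM_inv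
  have hcpos : 0 < c := pos_iff_ne_zero.2 hne
  refine ⟨(c⁻¹ : ℝ≥0) * kap.toReal, ?_, hl, ?_, hi, ?_⟩
  · have : 0 < kap.toReal := ENNReal.toReal_pos kap_ne_zero kap_ne_top
    positivity
  · intro g
    have h1 := hi.comp ((hl g⁻¹).comp hi)
    have h2 : ((fun h : SL2 => h⁻¹) ∘ (fun h => g⁻¹ * h) ∘ fun h : SL2 => h⁻¹) =
        fun h => h * g := by
      ext1 h
      simp
    rwa [h2] at h1
  · intro R hR
    rw [hm]
    rw [Measure.smul_apply, cM_FR hR]
    have h1 : kap = ENNReal.ofReal kap.toReal := (ENNReal.ofReal_toReal kap_ne_top).symm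
    have h2 : (c⁻¹ • (ENNReal.ofReal (R - 2) * kap) : ℝ≥0∞) =
        ENNReal.ofReal ((c⁻¹ : ℝ≥0) : ℝ) * (ENNReal.ofReal (R - 2) * kap) := by
      rw [ENNReal.ofReal_coe_nnreal]
      rfl
    rw [h2]
    conv_lhs => rw [h1]
    rw [← ENNReal.ofReal_mul (by linarith), ← ENNReal.ofReal_mul (by positivity)]
    congr 1
    ring

end

end Pool.Agent.W745
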