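import Pool.Agent.W745.Mautner

/-! The Haar measure of `SL(2,ℝ)` as a cone measure, and the volume of the balls. -/

open MeasureTheory Set Filter Topology
open scoped ENNReal

namespace Pool.Agent.W745

noncomputable section

/-- the matrix space -/
abbrev Mt := Matrix (Fin 2) (Fin 2) ℝ

instance instLCMt : LocallyCompactSpace Mt := inferInstanceAs (LocallyCompactSpace (Fin 2 → Fin 2 → ℝ))
instance instSCMt : SecondCountableTopology Mt :=
  inferInstanceAs (SecondCountableTopology (Fin 2 → Fin 2 → ℝ))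

lemma closedEmb : IsClosedEmbedding (fun g : SL2 => (g : Mt)) := by
  refine ⟨Topology.IsEmbedding.subtypeVal, ?_⟩
  have h : range (fun g : SL2 => (g : Mt)) = {A : Mt | A.det = 1} := by
    ext A
    constructor
    · rintro ⟨g, rfl⟩
      exact g.2
    · intro h
      exact ⟨⟨A, h⟩, rfl⟩
  rw [h]
  exact isClosed_eq (Continuous.matrix_det continuous_id) continuous_const

instance instLCSL : LocallyCompactSpace SL2 := closedEmb.locallyCompactSpace
instance instSCSL : SecondCountableTopology SL2 :=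
  Topology.IsInducing.subtypeVal.secondCountableTopology

/-- complex coordinates on the matrix space -/
def ec : (ℂ × ℂ) ≃ₗ[ℝ] Mt where
  toFun p := !![p.1.re + p.2.re, p.2.im - p.1.im; p.1.im + p.2.im, p.1.re - p.2.re]
  map_add' p r := by
    ext i j
    fin_cases i <;> fin_cases j <;> simp <;> ring
  map_smul' c p := by
    ext i j
    fin_cases i <;> fin_cases j <;> simp <;> ring
  invFun A := (⟨(A 0 0 + A 1 1) / 2, (A 1 0 - A 0 1) / 2⟩, ⟨(A 0 0 - A 1 1) / 2, (A 1 0 + A 0 1) / 2⟩)
  left_inv p := by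
    ext <;> simp <;> ring
  right_inv A := by
    ext i j
    fin_cases i <;> fin_cases j <;> simp <;> ring

/-- the determinant in complex coordinates -/
def dd (p : ℂ × ℂ) : ℝ := Complex.normSq p.1 - Complex.normSq p.2

lemma det_ec (p : ℂ × ℂ) : (ec p).det = dd p := by
  simp only [ec, dd, LinearEquiv.coe_mk, LinearMap.coe_mk, AddHom.coe_mk, Matrix.det_fin_two_of,
    Complex.normSq_apply]
  ring

lemma dd_continuous : Continuous dd := by
  unfold dd
  exact (Complex.continuous_normSq.comp continuous_fst).sub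
    (Complex.continuous_normSq.comp continuous_snd)

/-- squared Frobenius norm of a matrix -/
def fr (A : Mt) : ℝ := A 0 0 ^ 2 + A 0 1 ^ 2 + A 1 0 ^ 2 + A 1 1 ^ 2

lemma fr_ec (p : ℂ × ℂ) : fr (ec p) = 2 * (Complex.normSq p.1 + Complex.normSq p.2) := by
  simp only [ec, fr, LinearEquiv.coe_mk, LinearMap.coe_mk, AddHom.coe_mk, Complex.normSq_apply]
  simp
  ring

/-- the projection to `SL(2,ℝ)` -/
def pj (p : ℂ × ℂ) : SL2 :=
  if h : 0 < dd p then ⟨(Real.sqrt (dd p))⁻¹ • ec p, by
    rw [Matrix.det_smul, det_ec]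
    simp only [Fintype.card_fin, inv_pow, Real.sq_sqrt h.le]
    exact inv_mul_cancel₀ h.ne'⟩ else 1

lemma pj_coe {p : ℂ × ℂ} (h : 0 < dd p) : (pj p : Mt) = (Real.sqrt (dd p))⁻¹ • ec p := by
  unfold pj
  rw [dif_pos h]

variable [MeasurableSpace SL2] [BorelSpace SL2]

omit [MeasurableSpace SL2] [BorelSpace SL2] in
lemma ec_continuous : Continuous ec := LinearMap.continuous_of_finiteDimensional ec.toLinearMap

lemma pj_measurable : Measurable pj := by
  classical
  have hU : MeasurableSet {p : ℂ × ℂ | 0 < dd p} :=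
    (isOpen_lt continuous_const dd_continuous).measurableSet
  have h1 : ContinuousOn pj {p : ℂ × ℂ | 0 < dd p} := by
    rw [closedEmb.isInducing.continuousOn_iff]
    have h2 : ContinuousOn (fun p : ℂ × ℂ => (Real.sqrt (dd p))⁻¹ • ec p)
        {p : ℂ × ℂ | 0 < dd p} := by
      have h4 : ContinuousOn (fun p : ℂ × ℂ => Real.sqrt (dd p)) {p : ℂ × ℂ | 0 < dd p} :=
        (Real.continuous_sqrt.comp dd_continuous).continuousOn
      exact (h4.inv₀ fun p hp => (Real.sqrt_pos.2 hp).ne').smul ec_continuous.continuousOn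
    refine h2.congr fun p hp => ?_
    exact pj_coe hp
  have h3 := h1.measurable_piecewise (g := fun _ => (1 : SL2)) continuousOn_const hU
  convert h3 using 1
  ext1 p
  by_cases hp : 0 < dd p
  · rw [Set.piecewise_eq_of_mem _ _ _ (show p ∈ {p : ℂ × ℂ | 0 < dd p} from hp)]
  · rw [Set.piecewise_eq_of_notMem _ _ _ (show p ∉ {p : ℂ × ℂ | 0 < dd p} from hp)]
    unfold pj
    rw [dif_neg hp]

/-- Lebesgue measure on the coordinate space -/
def vv : Measure (ℂ × ℂ) := (volume : Measure ℂ).prod volume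

instance : (vv).IsAddHaarMeasure := by unfold vv; infer_instance

/-- the truncated cone -/
def cone : Set (ℂ × ℂ) := {p | 0 < dd p ∧ dd p ≤ 1}

lemma cone_meas : MeasurableSet cone :=
  (isOpen_lt continuous_const dd_continuous).measurableSet.inter
    (isClosed_le dd_continuous continuous_const).measurableSet

/-- the cone measure -/
def cM : Measure SL2 := (vv.restrict cone).map pj

/-- linear action on the coordinate space -/
def la (A : Mt) : (ℂ × ℂ) →ₗ[ℝ] (ℂ × ℂ) :=
  ec.symm.toLinearMap ∘ₗ LinearMap.mulLeft ℝ A ∘ₗ ec.toLinearMap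

lemma ec_la (A : Mt) (p : ℂ × ℂ) : ec (la A p) = A * ec p := by
  simp [la]

lemma la_mul (A B : Mt) : la (A * B) = la A ∘ₗ la B := by
  ext1
  all_goals
    ext1
    simp [la, mul_assoc]

lemma la_one : la 1 = LinearMap.id := by
  ext1
  all_goals
    ext1
    simp [la]

lemma det_la_mul (A B : Mt) : LinearMap.det (la (A * B)) = LinearMap.det (la A) * LinearMap.det (la B) := by
  rw [la_mul, LinearMap.det_comp]

lemma det_la_one : LinearMap.det (la 1) = 1 := by rw [la_one, LinearMap.det_id]

lemma det_la_ne (g : SL2) : LinearMap.det (la g.1) ≠ 0 := by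
  intro h
  have h1 := det_la_mul g.1 (g⁻¹).1
  have h2 : g.1 * (g⁻¹).1 = 1 := by
    have := Matrix.SpecialLinearGroup.coe_mul g g⁻¹
    rw [mul_inv_cancel] at this
    exact this.symm
  rw [h2, det_la_one, h, zero_mul] at h1
  exact one_ne_zero h1

/-- determinant of the action as a function on the group -/
def dl (g : SL2) : ℝ := LinearMap.det (la g.1)

lemma dl_mul (g h : SL2) : dl (g * h) = dl g * dl h := by
  unfold dl
  rw [← det_la_mul]
  rfl

lemma dl_one : dl 1 = 1 := det_la_one

lemma dl_ne (g : SL2) : dl g ≠ 0 := det_la_ne g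

lemma dl_conj (g h : SL2) : dl (g * h * g⁻¹) = dl h := by
  have h1 : dl g * dl g⁻¹ = 1 := by rw [← dl_mul, mul_inv_cancel, dl_one]
  rw [dl_mul, dl_mul]
  linear_combination (dl h) * h1

lemma dl_nn (t : ℝ) : dl (nn t) = 1 := by
  have h1 : dl (nn (2 * t)) = dl (nn t) * dl (nn t) := by
    rw [two_mul, nn_add, dl_mul]
  have h2 : nn (2 * t) = dg (Real.log 2 / 2) * nn t * (dg (Real.log 2 / 2))⁻¹ := by
    rw [dg_nn, mul_assoc, mul_inv_cancel, mul_one]
    congr 1
    rw [show 2 * (Real.log 2 / 2) = Real.log 2 by ring, Real.exp_log (by norm_num)]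
  have h3 : dl (nn (2 * t)) = dl (nn t) := by rw [h2, dl_conj]
  rw [h3] at h1
  exact mul_left_cancel₀ (dl_ne (nn t)) (h1.symm.trans (mul_one _).symm)

lemma dl_nm (t : ℝ) : dl (nm t) = 1 := by
  have h1 : dl (nm (2 * t)) = dl (nm t) * dl (nm t) := by
    rw [two_mul, nm_add, dl_mul]
  have h2 : nm (2 * t) = dg (-(Real.log 2 / 2)) * nm t * (dg (-(Real.log 2 / 2)))⁻¹ := by
    rw [dg_nm, mul_assoc, mul_inv_cancel, mul_one]
    congr 1
    rw [show -2 * -(Real.log 2 / 2) = Real.log 2 by ring, Real.exp_log (by norm_num)]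
  have h3 : dl (nm (2 * t)) = dl (nm t) := by rw [h2, dl_conj]
  rw [h3] at h1
  exact mul_left_cancel₀ (dl_ne (nm t)) (h1.symm.trans (mul_one _).symm)

lemma dl_eq (g : SL2) : dl g = 1 := by
  set B := max 1 (max (max |g.1 0 0| |g.1 0 1|) (max |g.1 1 0| |g.1 1 1|))
  obtain ⟨x, v, y, s, -, -, -, -, h⟩ := exists_decomp (B := B) (le_max_left _ _) g
    ((le_max_left _ _).trans ((le_max_left _ _).trans (le_max_right _ _)))
    ((le_max_right _ _).trans ((le_max_left _ _).trans (le_max_right _ _)))
    ((le_max_left _ _).trans ((le_max_right _ _).trans (le_max_right _ _)))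
    ((le_max_right _ _).trans ((le_max_right _ _).trans (le_max_right _ _)))
  rw [h, dl_mul, dl_mul, dl_mul, dl_nn, dl_nm, dl_nn, dl_nm]
  norm_num

lemma la_mp (g : SL2) : MeasurePreserving (la g.1) vv vv := by
  refine ⟨(LinearMap.continuous_of_finiteDimensional _).measurable, ?_⟩
  rw [Measure.map_linearMap_addHaar_eq_smul_addHaar vv (det_la_ne g)]
  have := dl_eq g
  unfold dl at this
  rw [this]
  simp

lemma dd_la (g : SL2) (p : ℂ × ℂ) : dd (la g.1 p) = dd p := by
  rw [← det_ec, ec_la, Matrix.det_mul, g.2, one_mul, det_ec]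

lemma pj_la (g : SL2) {p : ℂ × ℂ} (h : 0 < dd p) : pj (la g.1 p) = g * pj p := by
  apply Subtype.ext
  have h2 : 0 < dd (la g.1 p) := by rwa [dd_la]
  have e : ((g * pj p : SL2) : Mt) = (g : Mt) * (pj p : Mt) := Matrix.SpecialLinearGroup.coe_mul _ _
  rw [pj_coe h2, dd_la, ec_la, e, pj_coe h, Matrix.mul_smul]

lemma cM_left (g : SL2) : MeasurePreserving (fun h => g * h) cM cM := by
  have hgm : Measurable fun h : SL2 => g * h := measurable_const_mul g
  refine ⟨hgm, ?_⟩
  unfold cM
  rw [Measure.map_map hgm pj_measurable]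
  have h1 : MeasurePreserving (la g.1) (vv.restrict cone) (vv.restrict cone) := by
    have := (la_mp g).restrict_preimage cone_meas
    have h2 : (la g.1) ⁻¹' cone = cone := by
      ext p
      simp only [cone, mem_preimage, mem_ofPred_eq, dd_la]
    rwa [h2] at this
  have h3 : Measure.map pj (vv.restrict cone) =
      Measure.map (pj ∘ la g.1) (vv.restrict cone) := by
    rw [← Measure.map_map pj_measurable h1.measurable, h1.map_eq]
  rw [h3]
  apply Measure.map_congr
  filter_upwards [ae_restrict_mem cone_meas] with p hp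
  exact (pj_la g hp.1).symm

/-- the adjugate in coordinates -/
def adj (p : ℂ × ℂ) : ℂ × ℂ := Prod.map (fun z => (starRingEnd ℂ) z) (fun w => -w) p

lemma adj_mp : MeasurePreserving adj vv vv := by
  unfold adj vv
  refine MeasurePreserving.prod ?_ (Measure.measurePreserving_neg _)
  exact Complex.conjLIE.measurePreserving

lemma dd_adj (p : ℂ × ℂ) : dd (adj p) = dd p := by
  simp [dd, adj]

lemma pj_adj {p : ℂ × ℂ} (h : 0 < dd p) : pj (adj p) = (pj p)⁻¹ := by
  have h2 : 0 < dd (adj p) := by rwa [dd_adj]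
  apply sl2_ext
  · rw [inv_00, pj_coe h2, pj_coe h, dd_adj]
    simp [ec, adj]
    left; ring
  · rw [inv_01, pj_coe h2, pj_coe h, dd_adj]
    simp [ec, adj]
    ring
  · rw [inv_10, pj_coe h2, pj_coe h, dd_adj]
    simp [ec, adj]
    ring
  · rw [inv_11, pj_coe h2, pj_coe h, dd_adj]
    simp [ec, adj]

lemma cM_inv : MeasurePreserving (fun h : SL2 => h⁻¹) cM cM := by
  have hgm : Measurable fun h : SL2 => h⁻¹ := measurable_inv
  refine ⟨hgm, ?_⟩
  unfold cM
  rw [Measure.map_map hgm pj_measurable]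
  have h1 : MeasurePreserving adj (vv.restrict cone) (vv.restrict cone) := by
    have := adj_mp.restrict_preimage cone_meas
    have h2 : adj ⁻¹' cone = cone := by
      ext p
      simp only [cone, mem_preimage, mem_ofPred_eq, dd_adj]
    rwa [h2] at this
  have h3 : Measure.map pj (vv.restrict cone) =
      Measure.map (pj ∘ adj) (vv.restrict cone) := by
    rw [← Measure.map_map pj_measurable h1.measurable, h1.map_eq]
  rw [h3]
  apply Measure.map_congr
  filter_upwards [ae_restrict_mem cone_meas] with p hp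
  exact (pj_adj hp.1).symm

/-- squared Frobenius norm on the group -/
def NN (g : SL2) : ℝ := fr g.1

omit [MeasurableSpace SL2] [BorelSpace SL2] in
lemma NN_continuous : Continuous NN := by
  unfold NN fr
  have h : ∀ i j, Continuous fun g : SL2 => g.1 i j := fun i j =>
    (continuous_apply_apply i j).comp closedEmb.continuous
  exact ((((h 0 0).pow 2).add ((h 0 1).pow 2)).add ((h 1 0).pow 2)).add ((h 1 1).pow 2)

lemma NN_pj {p : ℂ × ℂ} (h : 0 < dd p) : NN (pj p) * dd p = fr (ec p) := by
  unfold NN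
  rw [pj_coe h]
  unfold fr
  simp only [Matrix.smul_apply, smul_eq_mul, mul_pow, inv_pow, Real.sq_sqrt h.le]
  field_simp

/-- the balls -/
def FR (R : ℝ) : Set SL2 := {g | NN g < R}

lemma FR_meas (R : ℝ) : MeasurableSet (FR R) :=
  (isOpen_lt NN_continuous continuous_const).measurableSet

lemma cM_FR_eq (R : ℝ) : cM (FR R) = vv {p : ℂ × ℂ | p ∈ cone ∧ fr (ec p) < R * dd p} := by
  unfold cM
  rw [Measure.map_apply pj_measurable (FR_meas R),
    Measure.restrict_apply (pj_measurable (FR_meas R))]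
  congr 1
  ext p
  simp only [FR, mem_inter_iff, mem_preimage, mem_ofPred_eq]
  constructor
  · rintro ⟨h1, h2⟩
    refine ⟨h2, ?_⟩
    rw [← NN_pj h2.1]
    exact mul_lt_mul_of_pos_right h1 h2.1
  · rintro ⟨h1, h2⟩
    refine ⟨?_, h1⟩
    rw [← NN_pj h1.1] at h2
    exact lt_of_mul_lt_mul_right h2 h1.1.le

/-- the constant in the volume formula -/
def kap : ℝ≥0∞ := ∫⁻ w : ℂ, ENNReal.ofReal (Real.pi * (1 - 4 * Complex.normSq w))

lemma slice {R : ℝ} (hR : 2 < R) (w : ℂ) :
    volume ((fun z : ℂ => (z, w)) ⁻¹' {p : ℂ × ℂ | p ∈ cone ∧ fr (ec p) < R * dd p}) =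
      ENNReal.ofReal (Real.pi * (1 - 4 * (Complex.normSq w / (R - 2)))) := by
  have hR2 : 0 < R - 2 := by linarith
  set a := Complex.normSq w with ha
  have ha0 : 0 ≤ a := Complex.normSq_nonneg w
  set r1 := Real.sqrt (1 + a) with hr1
  set r2 := Real.sqrt ((R + 2) / (R - 2) * a) with hr2
  have hs1 : r1 ^ 2 = 1 + a := Real.sq_sqrt (by linarith)
  have hs2 : r2 ^ 2 = (R + 2) / (R - 2) * a := Real.sq_sqrt (by positivity)
  have hr10 : 0 ≤ r1 := Real.sqrt_nonneg _
  have hr20 : 0 ≤ r2 := Real.sqrt_nonneg _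
  have hset : (fun z : ℂ => (z, w)) ⁻¹' {p : ℂ × ℂ | p ∈ cone ∧ fr (ec p) < R * dd p} =
      Metric.closedBall (0 : ℂ) r1 \ Metric.closedBall (0 : ℂ) r2 := by
    ext z
    simp only [mem_preimage, mem_ofPred_eq, cone, fr_ec, dd, Set.mem_sdiff, Metric.mem_closedBall,
      dist_zero_right, not_le]
    rw [← abs_of_nonneg hr10, ← abs_of_nonneg hr20, ← abs_of_nonneg (norm_nonneg z),
      ← sq_le_sq, ← sq_lt_sq, hs1, hs2, ← Complex.normSq_eq_norm_sq, ← ha, div_mul_eq_mul_div,
      div_lt_iff₀ hR2]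
    set b := Complex.normSq z
    constructor
    · rintro ⟨⟨h1, h2⟩, h3⟩
      exact ⟨by linarith, by linarith⟩
    · rintro ⟨h1, h2⟩
      refine ⟨⟨?_, by linarith⟩, by linarith⟩
      have h3 : (R - 2) * a < (R - 2) * b := by nlinarith
      have := lt_of_mul_lt_mul_left h3 hR2.le
      linarith
  rw [hset]
  have hval : Real.pi * (1 - 4 * (a / (R - 2))) = Real.pi * r1 ^ 2 - Real.pi * r2 ^ 2 := by
    rw [hs1, hs2]
    field_simp
    ring
  rcases le_or_gt r2 r1 with h | h
  · rw [measure_sdiff (Metric.closedBall_subset_closedBall h) measurableSet_closedBall.nullMeasurableSet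
      (by rw [Complex.volume_closedBall]; exact ENNReal.mul_ne_top (by simp) (by simp))]
    rw [Complex.volume_closedBall, Complex.volume_closedBall, hval,
      ENNReal.ofReal_sub _ (by positivity)]
    have h3 : ∀ r : ℝ, 0 ≤ r → ENNReal.ofReal r ^ 2 * (NNReal.pi : ℝ≥0∞) =
        ENNReal.ofReal (Real.pi * r ^ 2) := by
      intro r hr
      rw [mul_comm Real.pi, ENNReal.ofReal_mul (by positivity), ENNReal.ofReal_pow hr]
      congr 1
      rw [← NNReal.coe_real_pi, ENNReal.ofReal_coe_nnreal]
    rw [h3 _ hr10, h3 _ hr20]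
  · have h1 : Metric.closedBall (0 : ℂ) r1 \ Metric.closedBall (0 : ℂ) r2 = ∅ := by
      rw [sdiff_eq_empty]
      exact Metric.closedBall_subset_closedBall h.le
    rw [h1, measure_empty, eq_comm, ENNReal.ofReal_eq_zero, hval]
    have : r1 ^ 2 ≤ r2 ^ 2 := by gcongr
    have := Real.pi_pos
    nlinarith

lemma cM_FR {R : ℝ} (hR : 2 < R) : cM (FR R) = ENNReal.ofReal (R - 2) * kap := by
  have hR2 : 0 < R - 2 := by linarith
  rw [cM_FR_eq]
  have hm : MeasurableSet {p : ℂ × ℂ | p ∈ cone ∧ fr (ec p) < R * dd p} := by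
    refine cone_meas.inter ?_
    have hfr : Continuous fun p : ℂ × ℂ => fr (ec p) := by
      have : (fun p : ℂ × ℂ => fr (ec p)) =
          fun p => 2 * (Complex.normSq p.1 + Complex.normSq p.2) := funext fr_ec
      rw [this]
      exact (((Complex.continuous_normSq.comp continuous_fst).add
        (Complex.continuous_normSq.comp continuous_snd))).const_mul 2 |>.congr fun _ => rfl
    exact (isOpen_lt hfr (dd_continuous.const_mul R)).measurableSet
  unfold vv
  rw [Measure.prod_apply_symm hm]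
  simp only [slice hR]
  have hs : 0 < Real.sqrt (R - 2) := Real.sqrt_pos.2 hR2
  have hr : (Real.sqrt (R - 2))⁻¹ ≠ 0 := by positivity
  have h1 := Measure.map_addHaar_smul (volume : Measure ℂ) hr
  have hmeas : Measurable fun w : ℂ => ENNReal.ofReal (Real.pi * (1 - 4 * Complex.normSq w)) := by
    refine ENNReal.measurable_ofReal.comp ?_
    exact ((Complex.continuous_normSq.measurable.const_mul 4).const_sub 1).const_mul _
  have h2 : ∫⁻ w : ℂ, ENNReal.ofReal (Real.pi * (1 - 4 * (Complex.normSq w / (R - 2)))) =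
      ∫⁻ w : ℂ, ENNReal.ofReal (Real.pi * (1 - 4 * Complex.normSq w))
        ∂(Measure.map (fun x : ℂ => (Real.sqrt (R - 2))⁻¹ • x) volume) := by
    rw [lintegral_map hmeas (measurable_const_smul _)]
    congr 1
    ext1 w
    congr 3
    rw [Complex.normSq_eq_norm_sq, Complex.normSq_eq_norm_sq, norm_smul, mul_pow, norm_inv, inv_pow,
      Real.norm_eq_abs, sq_abs, Real.sq_sqrt hR2.le]
    field_simp
  rw [h2, h1, lintegral_smul_measure, Complex.finrank_real_complex]
  unfold kap
  rw [smul_eq_mul]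
  congr 2
  rw [inv_pow, inv_inv, Real.sq_sqrt hR2.le, abs_of_pos hR2]

lemma kap_ne_top : kap ≠ ⊤ := by
  unfold kap
  have h : ∫⁻ w : ℂ, ENNReal.ofReal (Real.pi * (1 - 4 * Complex.normSq w)) ≤
      ∫⁻ w in Metric.closedBall (0 : ℂ) 1, ENNReal.ofReal Real.pi := by
    rw [← lintegral_indicator measurableSet_closedBall]
    apply lintegral_mono
    intro w
    simp only [indicator, Metric.mem_closedBall, dist_zero_right]
    split_ifs with h
    · apply ENNReal.ofReal_le_ofReal
      have := Complex.normSq_nonneg w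
      have := Real.pi_pos
      nlinarith
    · rw [nonpos_iff_eq_zero, ENNReal.ofReal_eq_zero]
      push Not at h
      have h1 : 1 ≤ Complex.normSq w := by
        rw [Complex.normSq_eq_norm_sq]
        nlinarith [norm_nonneg w]
      have := Real.pi_pos
      nlinarith
  refine ne_top_of_le_ne_top ?_ h
  rw [lintegral_const, Measure.restrict_apply_univ, Complex.volume_closedBall]
  exact ENNReal.mul_ne_top ENNReal.ofReal_ne_top (ENNReal.mul_ne_top (by simp) (by simp))

lemma kap_ne_zero : kap ≠ 0 := by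
  unfold kap
  have h : ∫⁻ w in Metric.closedBall (0 : ℂ) (1 / 4), ENNReal.ofReal (Real.pi / 2) ≤
      ∫⁻ w : ℂ, ENNReal.ofReal (Real.pi * (1 - 4 * Complex.normSq w)) := by
    rw [← lintegral_indicator measurableSet_closedBall]
    apply lintegral_mono
    intro w
    simp only [indicator, Metric.mem_closedBall, dist_zero_right]
    split_ifs with h
    · apply ENNReal.ofReal_le_ofReal
      have h1 : Complex.normSq w ≤ 1 / 16 := by
        rw [Complex.normSq_eq_norm_sq]
        nlinarith [norm_nonneg w]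
      have := Real.pi_pos
      nlinarith
    · simp
  intro h0
  rw [h0, lintegral_const, Measure.restrict_apply_univ, Complex.volume_closedBall,
    nonpos_iff_eq_zero, mul_eq_zero, mul_eq_zero] at h
  have := Real.pi_pos
  rcases h with h | h | h
  · rw [ENNReal.ofReal_eq_zero] at h
    linarith
  · have h2 : ENNReal.ofReal (1 / 4) = 0 := by simpa using h
    rw [ENNReal.ofReal_eq_zero] at h2
    linarith
  · simp [NNReal.pi_ne_zero] at h

end

end Pool.Agent.W745
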