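import Pool.Agent.W745.Basic

/-! Elementary facts on `L²` norms of bounded functions, and the convex functions used in the
energy argument. -/

open MeasureTheory Real Set
open scoped ENNReal

namespace Pool.Agent.W745

noncomputable section

variable {X : Type} [MeasurableSpace X] {μ : Measure X}

/-- the `L²` norm as a real number -/
def nr (μ : Measure X) (f : X → ℝ) : ℝ := (eLpNorm f 2 μ).toReal

lemma nr_nonneg (f : X → ℝ) : 0 ≤ nr μ f := ENNReal.toReal_nonneg

lemma nr_sq {f : X → ℝ} (hf : MemLp f 2 μ) : nr μ f ^ 2 = ∫ x, f x ^ 2 ∂μ := by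
  unfold nr
  rw [hf.eLpNorm_eq_integral_rpow_norm (by norm_num) (by norm_num)]
  have h0 : 0 ≤ ∫ a, ‖f a‖ ^ (2 : ℝ≥0∞).toReal ∂μ := integral_nonneg fun _ => by positivity
  rw [ENNReal.toReal_ofReal (by positivity)]
  have h2 : (2 : ℝ≥0∞).toReal = 2 := by norm_num
  rw [h2] at h0 ⊢
  rw [← Real.rpow_natCast, ← Real.rpow_mul h0]
  norm_num

lemma nr_add_le {f g : X → ℝ} (hf : MemLp f 2 μ) (hg : MemLp g 2 μ) :
    nr μ (fun x => f x + g x) ≤ nr μ f + nr μ g := by
  unfold nr
  rw [← ENNReal.toReal_add hf.2.ne hg.2.ne]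
  exact ENNReal.toReal_mono (ENNReal.add_ne_top.2 ⟨hf.2.ne, hg.2.ne⟩)
    (eLpNorm_add_le hf.1 hg.1 (by norm_num))

lemma nr_sub_comm (f g : X → ℝ) : nr μ (fun x => f x - g x) = nr μ (fun x => g x - f x) := by
  unfold nr
  congr 1
  have : (fun x => g x - f x) = -(fun x => f x - g x) := by
    ext x; simp
  rw [this, eLpNorm_neg]

lemma nr_tri {f g h : X → ℝ} (hf : MemLp f 2 μ) (hg : MemLp g 2 μ) (hh : MemLp h 2 μ) :
    nr μ (fun x => f x - h x) ≤ nr μ (fun x => f x - g x) + nr μ (fun x => g x - h x) := by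
  have := nr_add_le (hf.sub hg) (hg.sub hh)
  have h2 : (fun x => (f - g) x + (g - h) x) = fun x => f x - h x := by
    ext x; simp
  rw [h2] at this
  exact this

lemma nr_comp {f : X → ℝ} (hf : AEStronglyMeasurable f μ) {T : X → X}
    (hT : MeasurePreserving T μ μ) : nr μ (fun x => f (T x)) = nr μ f := by
  unfold nr
  congr 1
  exact eLpNorm_comp_measurePreserving hf hT

lemma memLp_of_bdd [IsFiniteMeasure μ] {f : X → ℝ} (hf : Measurable f) {C : ℝ}
    (hC : ∀ x, |f x| ≤ C) : MemLp f 2 μ :=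
  MemLp.of_bound hf.aestronglyMeasurable C (Filter.Eventually.of_forall hC)

lemma integrable_of_bdd' [IsFiniteMeasure μ] {f : X → ℝ} (hf : Measurable f) {C : ℝ}
    (hC : ∀ x, |f x| ≤ C) : Integrable f μ :=
  Integrable.of_bound hf.aestronglyMeasurable C (Filter.Eventually.of_forall hC)

/-- Lower bound for the distance of a function to the constants. -/
lemma var_lower [IsProbabilityMeasure μ] {g : X → ℝ} (hg : Measurable g) {C : ℝ}
    (hC : ∀ x, |g x| ≤ C) {A B : Set X} (hA : MeasurableSet A) (hB : MeasurableSet B) {β : ℝ}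
    (hβ : 0 < β) (hAg : ∀ x ∈ A, g x = β) (hBg : ∀ x ∈ B, g x = 0) (e : ℝ) :
    μ.real A * μ.real B * β ^ 2 ≤ nr μ (fun x => g x - e) ^ 2 := by
  have hm : Measurable fun x => g x - e := hg.sub_const e
  have hbd : ∀ x, |g x - e| ≤ C + |e| := fun x => (abs_sub _ _).trans (by gcongr; exact hC x)
  rw [nr_sq (memLp_of_bdd hm hbd)]
  have hint : Integrable (fun x => (g x - e) ^ 2) μ := by
    refine integrable_of_bdd' (hm.pow_const 2) (C := (C + |e|) ^ 2) fun x => ?_
    rw [abs_pow]
    exact pow_le_pow_left₀ (abs_nonneg _) (hbd x) 2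
  have hdisj : Disjoint A B := by
    rw [Set.disjoint_left]
    intro x h1 h2
    have := hAg x h1
    rw [hBg x h2] at this
    exact hβ.ne this
  have h1 : ∫ x in A ∪ B, (g x - e) ^ 2 ∂μ ≤ ∫ x, (g x - e) ^ 2 ∂μ :=
    setIntegral_le_integral hint (Filter.Eventually.of_forall fun x => sq_nonneg _)
  have h2 : ∫ x in A ∪ B, (g x - e) ^ 2 ∂μ = μ.real A * (β - e) ^ 2 + μ.real B * e ^ 2 := by
    rw [setIntegral_union hdisj hB hint.integrableOn hint.integrableOn]
    congr 1
    · rw [setIntegral_congr_fun hA (g := fun _ => (β - e) ^ 2) (fun x hx => by simp [hAg x hx])]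
      simp [Measure.real]
    · rw [setIntegral_congr_fun hB (g := fun _ => e ^ 2) (fun x hx => by simp [hBg x hx])]
      simp [Measure.real]
  rw [h2] at h1
  have hab : μ.real A + μ.real B ≤ 1 := by
    rw [← measureReal_union hdisj hB]
    exact measureReal_le_one
  have ha0 : 0 ≤ μ.real A := measureReal_nonneg
  have hb0 : 0 ≤ μ.real B := measureReal_nonneg
  set a := μ.real A
  set b := μ.real B
  have h3 : a * b * β ^ 2 ≤ (a + b) * (a * (β - e) ^ 2 + b * e ^ 2) := by
    nlinarith [sq_nonneg (a * (β - e) - b * e)]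
  have h4 : 0 ≤ a * (β - e) ^ 2 + b * e ^ 2 := by positivity
  nlinarith

/-- the truncation function -/
def psi (α β z : ℝ) : ℝ := min (max (z - α) 0) β

/-- its primitive -/
def Phi (α β z : ℝ) : ℝ := psi α β z * (z - α) - psi α β z ^ 2 / 2

lemma psi_nonneg {α β : ℝ} (hβ : 0 ≤ β) (z : ℝ) : 0 ≤ psi α β z :=
  le_min (le_max_right _ _) hβ

lemma psi_le {α β : ℝ} (z : ℝ) : psi α β z ≤ β := min_le_right _ _

lemma abs_psi_le {α β : ℝ} (hβ : 0 ≤ β) (z : ℝ) : |psi α β z| ≤ β := by
  rw [abs_of_nonneg (psi_nonneg hβ z)]; exact psi_le z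

lemma psi_eq_zero {α β z : ℝ} (hβ : 0 ≤ β) (h : z ≤ α) : psi α β z = 0 := by
  unfold psi
  rw [max_eq_right (by linarith), min_eq_left hβ]

lemma psi_eq_top {α β z : ℝ} (h : α + β ≤ z) : psi α β z = β := by
  unfold psi
  exact min_eq_right (le_max_of_le_left (by linarith))

lemma abs_psi_sub_le (α β x z : ℝ) : |psi α β x - psi α β z| ≤ |x - z| := by
  unfold psi
  refine (abs_min_sub_min_le_max _ _ _ _).trans ?_
  refine max_le ((abs_max_sub_max_le_max _ _ _ _).trans (max_le ?_ ?_)) ?_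
  · rw [sub_sub_sub_cancel_right]
  · simp
  · simp

lemma psi_mono (α β : ℝ) : Monotone (psi α β) := fun x y h => by
  unfold psi; gcongr

lemma psi_continuous (α β : ℝ) : Continuous (psi α β) := by
  unfold psi; fun_prop

lemma Phi_continuous (α β : ℝ) : Continuous (Phi α β) := by
  unfold Phi
  have := psi_continuous α β
  fun_prop

/-- the Bregman divergence is at least half the squared difference of the gradients -/
lemma bregman {α β : ℝ} (hβ : 0 ≤ β) (x z : ℝ) :
    (psi α β x - psi α β z) ^ 2 / 2 ≤ Phi α β x - Phi α β z - psi α β z * (x - z) := by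
  have key : 0 ≤ (psi α β x - psi α β z) * ((x - α) - psi α β x) := by
    rcases le_total x α with h | h
    · rw [psi_eq_zero hβ h]
      have := psi_nonneg hβ (α := α) z
      nlinarith
    · rcases le_total x (α + β) with h2 | h2
      · have : psi α β x = x - α := by
          unfold psi
          rw [max_eq_left (by linarith), min_eq_left (by linarith)]
        rw [this]
        simp
      · rw [psi_eq_top h2]
        have := psi_le (α := α) (β := β) z
        apply mul_nonneg <;> linarith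
  unfold Phi
  nlinarith

lemma Phi_nonneg {α β : ℝ} (hβ : 0 ≤ β) (z : ℝ) : 0 ≤ Phi α β z := by
  have h := bregman (α := α) hβ z α
  rw [psi_eq_zero hβ (le_refl α)] at h
  have h2 : Phi α β α = 0 := by
    unfold Phi; rw [psi_eq_zero hβ (le_refl α)]; ring
  rw [h2] at h
  nlinarith [sq_nonneg (psi α β z - 0)]

lemma Phi_le {α β z : ℝ} (hα : 0 ≤ α) (hβ : 0 ≤ β) (hz : 0 ≤ z) : Phi α β z ≤ β * z := by
  unfold Phi
  have h1 := psi_nonneg hβ (α := α) z
  have h2 := psi_le (α := α) (β := β) z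
  nlinarith [mul_nonneg h1 hα, mul_le_mul_of_nonneg_right h2 hz, sq_nonneg (psi α β z)]

/-- the gap in Jensen's inequality for the weights `1/4, 1/2, 1/4` -/
lemma jensen3 {α β : ℝ} (hβ : 0 ≤ β) (a b c : ℝ) :
    ((psi α β a - psi α β ((a + 2 * b + c) / 4)) ^ 2
      + 2 * (psi α β b - psi α β ((a + 2 * b + c) / 4)) ^ 2
      + (psi α β c - psi α β ((a + 2 * b + c) / 4)) ^ 2) / 8 ≤
    (Phi α β a + 2 * Phi α β b + Phi α β c) / 4 - Phi α β ((a + 2 * b + c) / 4) := by
  set z := (a + 2 * b + c) / 4 with hz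
  have h1 := bregman (α := α) hβ a z
  have h2 := bregman (α := α) hβ b z
  have h3 := bregman (α := α) hβ c z
  have h4 : psi α β z * (a - z) + 2 * (psi α β z * (b - z)) + psi α β z * (c - z) = 0 := by
    rw [hz]; ring
  linarith

end

end Pool.Agent.W745
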