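import Pool.Agent.W745.Regular

/-! The inequality at one level. -/

open MeasureTheory Real Set
open scoped ENNReal

namespace Pool.Agent.W745

noncomputable section

variable {X : Type} [MeasurableSpace X] {μ : Measure X} [MulAction SL2 X]
variable {q : ℝ} {F : X → ℝ}

/-- spectral gap witnessed by a bounded set of group elements -/
structure Gap (μ : Measure X) (B ε0 : ℝ) : Prop where
  one_le : 1 ≤ B
  pos : 0 < ε0
  gap : ∀ f : X → ℝ, MemLp f 2 μ → ∫ y, f y ∂μ = 0 → eLpNorm f 2 μ = 1 →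
    ∃ g : SL2, (|g.1 0 0| ≤ B ∧ |g.1 0 1| ≤ B ∧ |g.1 1 0| ≤ B ∧ |g.1 1 1| ≤ B) ∧
      ENNReal.ofReal ε0 ≤ eLpNorm (fun y => f (g • y) - f y) 2 μ

lemma gap_apply [IsProbabilityMeasure μ] (hA : Act μ) {B ε0 : ℝ} (hG : Gap μ B ε0) {g : X → ℝ}
    (hg : Measurable g) {C : ℝ} (hC : ∀ x, |g x| ≤ C) :
    ∃ h : SL2, (|h.1 0 0| ≤ B ∧ |h.1 0 1| ≤ B ∧ |h.1 1 0| ≤ B ∧ |h.1 1 1| ≤ B) ∧
      ε0 * nr μ (fun y => g y - ∫ x, g x ∂μ) ≤ disp μ g h := by
  set e := ∫ x, g x ∂μ with he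
  set N := nr μ (fun y => g y - e) with hN
  have hN0 : 0 ≤ N := nr_nonneg _
  have hml : MemLp (fun y => g y - e) 2 μ :=
    memLp_of_bdd (hg.sub_const e) (C := C + |e|) fun x => (abs_sub _ _).trans (by gcongr; exact hC x)
  have hgi : Integrable g μ := integrable_of_bdd' hg hC
  rcases hN0.eq_or_lt with h0 | hpos
  · refine ⟨1, ?_, ?_⟩
    · rw [one_00, one_01, one_10, one_11]
      have := hG.one_le
      simp only [abs_one, abs_zero]
      refine ⟨this, by linarith, by linarith, this⟩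
    · rw [← h0, mul_zero]
      exact nr_nonneg _
  · have hof : eLpNorm (fun y => g y - e) 2 μ = ENNReal.ofReal N := by
      rw [hN, nr, ENNReal.ofReal_toReal hml.2.ne]
    have hsm : ∀ u : X → ℝ, eLpNorm (fun y => N⁻¹ * u y) 2 μ =
        ENNReal.ofReal N⁻¹ * eLpNorm u 2 μ := by
      intro u
      have h := eLpNorm_const_smul (N⁻¹) u 2 μ
      have h2 : (N⁻¹ • u) = fun y => N⁻¹ * u y := by ext y; simp
      rw [h2] at h
      rw [h, Real.enorm_eq_ofReal (by positivity)]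
    obtain ⟨h, hent, hgap⟩ := hG.gap (fun y => N⁻¹ * (g y - e)) (hml.const_mul _) (by
      rw [integral_const_mul, integral_sub hgi (integrable_const e)]
      simp [he]) (by
      rw [hsm, hof, ← ENNReal.ofReal_mul (by positivity), inv_mul_cancel₀ hpos.ne',
        ENNReal.ofReal_one])
    refine ⟨h, hent, ?_⟩
    have h3 : (fun y => N⁻¹ * (g (h • y) - e) - N⁻¹ * (g y - e)) =
        fun y => N⁻¹ * (g (h • y) - g y) := by
      ext y; ring
    rw [h3, hsm] at hgap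
    have hfin : eLpNorm (fun y => g (h • y) - g y) 2 μ ≠ ⊤ :=
      ((memLp_of_bdd (hg.comp (hA.meas_g h)) fun x => hC _).sub (memLp_of_bdd hg hC)).2.ne
    have h4 := ENNReal.toReal_mono (ENNReal.mul_ne_top ENNReal.ofReal_ne_top hfin) hgap
    rw [ENNReal.toReal_ofReal hG.pos.le, ENNReal.toReal_mul,
      ENNReal.toReal_ofReal (by positivity)] at h4
    unfold disp nr
    rw [inv_mul_eq_div, le_div_iff₀ hpos] at h4
    exact h4

lemma gap_var [IsProbabilityMeasure μ] (hA : Act μ) {B ε0 : ℝ} (hG : Gap μ B ε0) {g : X → ℝ}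
    (hg : Measurable g) {C : ℝ} (hC : ∀ x, |g x| ≤ C) {i0 c m : ℕ} (hc : 2 ≤ c)
    (hcB : 12 * B ^ 2 ≤ 2 ^ (c - 1))
    (hm : m = 2 * i0 + c) {δ1 δ2 : ℝ} (hδ1 : 0 ≤ δ1) (hδ2 : 0 ≤ δ2)
    (ha : ∀ i < m, disp μ g (nn (2 ^ i)) ≤ δ1)
    (hb : ∀ r : ℝ, |r| ≤ (1 / 4) ^ i0 → disp μ g (nn r) ≤ δ2)
    (hd : ∀ r : ℝ, |r| ≤ (1 / 4) ^ i0 → disp μ g (nm r) ≤ δ2) :
    ε0 * nr μ (fun y => g y - ∫ x, g x ∂μ) ≤ 20 * m * (δ1 + δ2) := by
  obtain ⟨h, ⟨h1, h2, h3, h4⟩, hh⟩ := gap_apply hA hG hg hC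
  refine hh.trans ?_
  have hE := disp_lenFn hA hg hC
  obtain ⟨mn, mm⟩ := mautner hE disp_one hc hm hδ1 hδ2 ha hb hd
  obtain ⟨x, v, y, s, hx, hv, hy, hs, rfl⟩ := exists_decomp hG.one_le h h1 h2 h3 h4
  have e1 := hE.mul (nn x * nm v * nn y) (nm s)
  have e2 := hE.mul (nn x * nm v) (nn y)
  have e3 := hE.mul (nn x) (nm v)
  have a1 := mn x (hx.trans hcB)
  have a2 := mm v (hv.trans hcB)
  have a3 := mn y (hy.trans hcB)
  have a4 := mm s (hs.trans hcB)
  linarith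

/-- the indicator of a superlevel set -/
def II (P : X → ℝ) (z : ℝ) (y : X) : ℝ := indicator {w | z < P w} (fun _ => (1 : ℝ)) y

lemma II_nonneg (P : X → ℝ) (z : ℝ) (y : X) : 0 ≤ II P z y :=
  indicator_nonneg (fun _ _ => zero_le_one) _

lemma II_one {P : X → ℝ} {z : ℝ} {y : X} (h : z < P y) : II P z y = 1 := by
  unfold II
  exact indicator_of_mem (s := {w | z < P w}) h _

lemma II_int [IsProbabilityMeasure μ] {P : X → ℝ} (hP : Measurable P) (z : ℝ) :
    Integrable (II P z) μ ∧ ∫ y, II P z y ∂μ = μ.real {w | z < P w} := by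
  have hs : MeasurableSet {w | z < P w} := measurableSet_lt measurable_const hP
  refine ⟨(integrable_const (1 : ℝ)).indicator hs, ?_⟩
  unfold II
  rw [integral_indicator hs]
  simp [Measure.real]

/-- sum over five translates -/
def J5 (u : X → ℝ) (y : X) : ℝ :=
  u (nn (-2) • y) + u (nn (-1) • y) + u (nn 0 • y) + u (nn 1 • y) + u (nn 2 • y)

lemma J5_int (hA : Act μ) {u : X → ℝ} (hu : Integrable u μ) :
    Integrable (J5 u) μ ∧ ∫ y, J5 u y ∂μ = 5 * ∫ y, u y ∂μ := by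
  have i1 := int_comp hA (nn (-2)) hu
  have i2 := int_comp hA (nn (-1)) hu
  have i3 := int_comp hA (nn 0) hu
  have i4 := int_comp hA (nn 1) hu
  have i5 := int_comp hA (nn 2) hu
  have i12 := i1.add i2
  have i123 := i12.add i3
  have i1234 := i123.add i4
  have i12345 := i1234.add i5
  refine ⟨i12345, ?_⟩
  unfold J5
  have e0 := integral_add i1 i2
  have e1 := integral_add i12 i3
  have e2 := integral_add i123 i4
  have e3 := integral_add i1234 i5
  simp only [Pi.add_apply] at e0 e1 e2 e3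
  rw [e3, e2, e1, e0, integral_comp_g hA _ hu.1, integral_comp_g hA _ hu.1,
    integral_comp_g hA _ hu.1, integral_comp_g hA _ hu.1, integral_comp_g hA _ hu.1]
  ring

lemma J5_II {P : X → ℝ} {K : ℝ} {y : X} (h : K < J5 P y) : 1 ≤ J5 (II P (K / 5)) y := by
  have n1 := II_nonneg P (K / 5) (nn (-2) • y)
  have n2 := II_nonneg P (K / 5) (nn (-1) • y)
  have n3 := II_nonneg P (K / 5) (nn 0 • y)
  have n4 := II_nonneg P (K / 5) (nn 1 • y)
  have n5 := II_nonneg P (K / 5) (nn 2 • y)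
  unfold J5 at h ⊢
  by_cases h1 : K / 5 < P (nn (-2) • y)
  · rw [II_one h1]; linarith
  by_cases h2 : K / 5 < P (nn (-1) • y)
  · rw [II_one h2]; linarith
  by_cases h3 : K / 5 < P (nn 0 • y)
  · rw [II_one h3]; linarith
  by_cases h4 : K / 5 < P (nn 1 • y)
  · rw [II_one h4]; linarith
  by_cases h5 : K / 5 < P (nn 2 • y)
  · rw [II_one h5]; linarith
  · push Not at h1 h2 h3 h4 h5
    linarith

lemma disp_small [IsProbabilityMeasure μ] (hA : Act μ) {P : X → ℝ} (hP : Measurable P)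
    {α β η K T : ℝ} (hβ : 0 ≤ β) (hη : 0 ≤ η) (hK : 0 ≤ K) (hT : 1 ≤ T) (h : SL2)
    (hbd : ∀ y, |P (h • y) - P y| ≤ η * J5 P y) :
    disp μ (fun y => psi α β (P y)) h ^ 2 ≤ 2 * (η * K) ^ 2 * μ.real {w | α < P w} +
      5 * (η * (K * T)) ^ 2 * μ.real {w | K / 5 < P w} +
      5 * β ^ 2 * μ.real {w | K * T / 5 < P w} := by
  have hgm : Measurable fun y => psi α β (P y) := (psi_continuous α β).measurable.comp hP
  have m1 : MemLp (fun y => psi α β (P (h • y))) 2 μ :=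
    memLp_of_bdd (hgm.comp (hA.meas_g h)) fun y => abs_psi_le hβ _
  have m2 : MemLp (fun y => psi α β (P y)) 2 μ := memLp_of_bdd hgm fun y => abs_psi_le hβ _
  unfold disp
  change nr μ ((fun y => psi α β (P (h • y))) - fun y => psi α β (P y)) ^ 2 ≤ _
  rw [nr_sq (m1.sub m2)]
  simp only [Pi.sub_apply]
  obtain ⟨iα, eα⟩ := II_int (μ := μ) hP α
  obtain ⟨iK, eK⟩ := II_int (μ := μ) hP (K / 5)
  obtain ⟨iT, eT⟩ := II_int (μ := μ) hP (K * T / 5)
  obtain ⟨jK, fK⟩ := J5_int hA iK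
  obtain ⟨jT, fT⟩ := J5_int hA iT
  have iαh := int_comp hA h iα
  have eαh := integral_comp_g hA h iα.1
  have tot : ∫ y, ((η * K) ^ 2 * (II P α (h • y) + II P α y) +
      (η * (K * T)) ^ 2 * J5 (II P (K / 5)) y + β ^ 2 * J5 (II P (K * T / 5)) y) ∂μ =
      2 * (η * K) ^ 2 * μ.real {w | α < P w} +
      5 * (η * (K * T)) ^ 2 * μ.real {w | K / 5 < P w} +
      5 * β ^ 2 * μ.real {w | K * T / 5 < P w} := by
    have a1 := integral_add (((iαh.add iα).const_mul ((η * K) ^ 2)).add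
      (jK.const_mul ((η * (K * T)) ^ 2))) (jT.const_mul (β ^ 2))
    have a2 := integral_add ((iαh.add iα).const_mul ((η * K) ^ 2))
      (jK.const_mul ((η * (K * T)) ^ 2))
    have a3 := integral_add iαh iα
    simp only [Pi.add_apply] at a1 a2 a3
    rw [a1, a2, integral_const_mul, integral_const_mul, integral_const_mul, a3, eαh, eα, fK, fT,
      eK, eT]
    ring
  rw [← tot]
  refine integral_mono_of_nonneg (Filter.Eventually.of_forall fun y => sq_nonneg _)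
    ((((iαh.add iα).const_mul ((η * K) ^ 2)).add
      (jK.const_mul ((η * (K * T)) ^ 2))).add (jT.const_mul (β ^ 2)))
    (Filter.Eventually.of_forall fun y => ?_)
  simp only
  have n1 := II_nonneg P α (h • y)
  have n2 := II_nonneg P α y
  have nK : 0 ≤ J5 (II P (K / 5)) y := by
    unfold J5
    have n1 := II_nonneg P (K / 5) (nn (-2) • y)
    have n2 := II_nonneg P (K / 5) (nn (-1) • y)
    have n3 := II_nonneg P (K / 5) (nn 0 • y)
    have n4 := II_nonneg P (K / 5) (nn 1 • y)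
    have n5 := II_nonneg P (K / 5) (nn 2 • y)
    positivity
  have nT : 0 ≤ J5 (II P (K * T / 5)) y := by
    unfold J5
    have n1 := II_nonneg P (K * T / 5) (nn (-2) • y)
    have n2 := II_nonneg P (K * T / 5) (nn (-1) • y)
    have n3 := II_nonneg P (K * T / 5) (nn 0 • y)
    have n4 := II_nonneg P (K * T / 5) (nn 1 • y)
    have n5 := II_nonneg P (K * T / 5) (nn 2 • y)
    positivity
  have hdiff : (psi α β (P (h • y)) - psi α β (P y)) ^ 2 ≤ (η * J5 P y) ^ 2 := by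
    rw [← sq_abs]
    exact pow_le_pow_left₀ (abs_nonneg _) ((abs_psi_sub_le _ _ _ _).trans (hbd y)) 2
  have hJ0 : 0 ≤ η * J5 P y := (abs_nonneg _).trans (hbd y)
  have b1 : 0 ≤ (η * K) ^ 2 * (II P α (h • y) + II P α y) := by positivity
  have b2 : 0 ≤ (η * (K * T)) ^ 2 * J5 (II P (K / 5)) y := by positivity
  have b3 : 0 ≤ β ^ 2 * J5 (II P (K * T / 5)) y := by positivity
  rcases le_or_gt (J5 P y) K with c1 | c1
  · -- small majorant
    by_cases c2 : P (h • y) ≤ α ∧ P y ≤ α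
    · rw [psi_eq_zero hβ c2.1, psi_eq_zero hβ c2.2]
      have : ((0 : ℝ) - 0) ^ 2 = 0 := by norm_num
      rw [this]
      positivity
    · have h1 : 1 ≤ II P α (h • y) + II P α y := by
        rw [not_and_or] at c2
        rcases c2 with c2 | c2
        · rw [II_one (not_le.1 c2)]; linarith
        · rw [II_one (not_le.1 c2)]; linarith
      have h2 : (η * J5 P y) ^ 2 ≤ (η * K) ^ 2 := by
        apply pow_le_pow_left₀ hJ0
        gcongr
      have h3 : (η * K) ^ 2 ≤ (η * K) ^ 2 * (II P α (h • y) + II P α y) :=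
        le_mul_of_one_le_right (sq_nonneg _) h1
      linarith
  · rcases le_or_gt (J5 P y) (K * T) with c2 | c2
    · have h1 := J5_II c1
      have h2 : (η * J5 P y) ^ 2 ≤ (η * (K * T)) ^ 2 := by
        apply pow_le_pow_left₀ hJ0
        gcongr
      have h3 : (η * (K * T)) ^ 2 ≤ (η * (K * T)) ^ 2 * J5 (II P (K / 5)) y :=
        le_mul_of_one_le_right (sq_nonneg _) h1
      linarith
    · have h1 := J5_II c2
      have h2 : (psi α β (P (h • y)) - psi α β (P y)) ^ 2 ≤ β ^ 2 := by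
        rw [← sq_abs]
        apply pow_le_pow_left₀ (abs_nonneg _)
        have p1 := psi_nonneg hβ (α := α) (P (h • y))
        have p2 := psi_nonneg hβ (α := α) (P y)
        have p3 := psi_le (α := α) (β := β) (P (h • y))
        have p4 := psi_le (α := α) (β := β) (P y)
        rw [abs_le]
        constructor <;> linarith
      have h3 : β ^ 2 ≤ β ^ 2 * J5 (II P (K * T / 5)) y :=
        le_mul_of_one_le_right (sq_nonneg _) h1
      linarith

/-- the measure of the superlevel set -/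
def XX (μ : Measure X) (s : ℝ) (F : X → ℝ) (z : ℝ) : ℝ := μ.real {w | z ≤ PP s F w}

lemma XX_nonneg (s : ℝ) (F : X → ℝ) (z : ℝ) : 0 ≤ XX μ s F z := measureReal_nonneg

lemma XX_le_one [IsProbabilityMeasure μ] (s : ℝ) (F : X → ℝ) (z : ℝ) : XX μ s F z ≤ 1 :=
  measureReal_le_one

lemma XX_anti [IsProbabilityMeasure μ] (s : ℝ) (F : X → ℝ) : Antitone (XX μ s F) :=
  fun a b h => measureReal_mono (fun w (hw : b ≤ PP s F w) => h.trans hw)

lemma lt_XX [IsProbabilityMeasure μ] (s : ℝ) (F : X → ℝ) {z w : ℝ} (h : w ≤ z) :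
    μ.real {x | z < PP s F x} ≤ XX μ s F w :=
  measureReal_mono (fun x (hx : z < PP s F x) => h.trans hx.le)

lemma XX_markov [IsProbabilityMeasure μ] (hA : Act μ) (hF : Reg q F) (hFi : Integrable F μ)
    (h1 : ∫ y, F y ∂μ = 1) (s : ℝ) {z : ℝ} (hz : 0 < z) : XX μ s F z ≤ 1 / z := by
  have h := mul_meas_ge_le_integral_of_nonneg (μ := μ) (f := PP s F)
    (Filter.Eventually.of_forall fun y => hF.PP_nonneg s y) (PP_integrable hA hF hFi s) z
  rw [PP_integral hA hF hFi s, h1] at h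
  unfold XX
  rw [le_div_iff₀ hz, mul_comm]
  exact h

theorem level_ineq [IsProbabilityMeasure μ] (hA : Act μ) {B ε0 : ℝ} (hG : Gap μ B ε0)
    (hF : Reg q F) (hq : 0 ≤ q) (hFi : Integrable F μ) (hF1 : ∫ y, F y ∂μ = 1)
    {c : ℕ} (hc : 2 ≤ c) (hcB : 12 * B ^ 2 ≤ 2 ^ (c - 1)) {s : ℝ} (hs : 0 ≤ s) {τ : ℝ}
    (hτ : 0 < τ) {i1 m : ℕ} (hi1 : 1 ≤ i1) (hm : m = 4 * i1 + c) {D : ℝ}
    (hD : en μ (1 + τ / 4) (3 / 4 * τ) (exp (2 * s)) F -
      en μ (1 + τ / 4) (3 / 4 * τ) (2 ^ m * exp (2 * s)) F ≤ D) (hD0 : 0 ≤ D) :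
    XX μ s F (1 + τ) * (τ / 4 / (1 + τ / 4)) * (3 / 4 * τ) ^ 2 ≤
      800 * m ^ 2 / ε0 ^ 2 * (81 * m ^ 2 * D + (1 + τ) ^ 2 *
        (200 * C1 q ^ 2 * (1 / 256) ^ i1 * XX μ s F (1 + τ / 4) +
         500 * C1 q ^ 2 * (1 / 16) ^ i1 * XX μ s F (2 * (1 + τ)) +
         5 * XX μ s F (4 ^ i1 * (2 * (1 + τ))))) := by
  set α := 1 + τ / 4 with hα
  set β := 3 / 4 * τ with hβd
  have hα0 : 0 ≤ α := by positivity
  have hβ : 0 < β := by positivity
  set g : X → ℝ := fun y => psi α β (PP s F y) with hg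
  have hPm : Measurable (PP s F) := meas_PP hA hF.meas s
  have hgm : Measurable g := (psi_continuous α β).measurable.comp hPm
  have hgb : ∀ x, |g x| ≤ β := fun x => abs_psi_le hβ.le _
  have hC1 := C1_pos hq
  set i0 := 2 * i1 with hi0
  set Δ := (1 + τ) ^ 2 *
        (200 * C1 q ^ 2 * (1 / 256) ^ i1 * XX μ s F (1 + τ / 4) +
         500 * C1 q ^ 2 * (1 / 16) ^ i1 * XX μ s F (2 * (1 + τ)) +
         5 * XX μ s F (4 ^ i1 * (2 * (1 + τ)))) with hΔ
  have hX1 := XX_nonneg (μ := μ) s F (1 + τ / 4)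
  have hX2 := XX_nonneg (μ := μ) s F (2 * (1 + τ))
  have hX3 := XX_nonneg (μ := μ) s F (4 ^ i1 * (2 * (1 + τ)))
  have hΔ0 : 0 ≤ Δ := by positivity
  have hρ : ((1 : ℝ) / 4) ^ i0 ≤ 1 / 4 := by
    calc ((1 : ℝ) / 4) ^ i0 ≤ (1 / 4) ^ 1 := pow_le_pow_of_le_one (by norm_num) (by norm_num)
          (by omega)
      _ = 1 / 4 := pow_one _
  have hρ0 : 0 ≤ ((1 : ℝ) / 4) ^ i0 := by positivity
  -- small perturbations
  have hsm : ∀ h : SL2, (∀ y, |PP s F (h • y) - PP s F y| ≤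
      C1 q * (1 / 4) ^ i0 * J5 (PP s F) y) → disp μ g h ≤ √Δ := by
    intro h hh
    apply Real.le_sqrt_of_sq_le
    have hK : 0 ≤ 10 * (1 + τ) := by positivity
    have hT : (1 : ℝ) ≤ 4 ^ i1 := one_le_pow₀ (by norm_num)
    have h1 := disp_small hA hPm (α := α) (β := β) hβ.le (by positivity) hK hT h hh
    refine h1.trans ?_
    have e1 : ((1 : ℝ) / 4) ^ i0 * ((1 : ℝ) / 4) ^ i0 = (1 / 256) ^ i1 := by
      rw [hi0, ← mul_pow, pow_mul]; norm_num
    have e2 : ((1 : ℝ) / 4) ^ i0 * 4 ^ i1 * (((1 : ℝ) / 4) ^ i0 * 4 ^ i1) = (1 / 16) ^ i1 := by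
      rw [hi0, pow_mul, ← mul_pow, ← mul_pow]; norm_num
    have t1 : 2 * (C1 q * (1 / 4) ^ i0 * (10 * (1 + τ))) ^ 2 =
        (1 + τ) ^ 2 * (200 * C1 q ^ 2 * (1 / 256) ^ i1) := by
      rw [← e1]; ring
    have t2 : 5 * (C1 q * (1 / 4) ^ i0 * (10 * (1 + τ) * 4 ^ i1)) ^ 2 =
        (1 + τ) ^ 2 * (500 * C1 q ^ 2 * (1 / 16) ^ i1) := by
      rw [← e2]; ring
    have t3 : 5 * β ^ 2 ≤ (1 + τ) ^ 2 * 5 := by
      rw [hβd]; nlinarith
    have u1 : μ.real {w | α < PP s F w} ≤ XX μ s F (1 + τ / 4) := lt_XX s F le_rfl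
    have u2 : μ.real {w | 10 * (1 + τ) / 5 < PP s F w} ≤ XX μ s F (2 * (1 + τ)) :=
      lt_XX s F (by linarith)
    have u3 : μ.real {w | 10 * (1 + τ) * 4 ^ i1 / 5 < PP s F w} ≤
        XX μ s F (4 ^ i1 * (2 * (1 + τ))) := lt_XX s F (by linarith)
    have v1 : 2 * (C1 q * (1 / 4) ^ i0 * (10 * (1 + τ))) ^ 2 * μ.real {w | α < PP s F w} ≤
        (1 + τ) ^ 2 * (200 * C1 q ^ 2 * (1 / 256) ^ i1) * XX μ s F (1 + τ / 4) := by
      rw [t1]; gcongr
    have v2 : 5 * (C1 q * (1 / 4) ^ i0 * (10 * (1 + τ) * 4 ^ i1)) ^ 2 *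
        μ.real {w | 10 * (1 + τ) / 5 < PP s F w} ≤
        (1 + τ) ^ 2 * (500 * C1 q ^ 2 * (1 / 16) ^ i1) * XX μ s F (2 * (1 + τ)) := by
      rw [t2]; gcongr
    have v3 : 5 * β ^ 2 * μ.real {w | 10 * (1 + τ) * 4 ^ i1 / 5 < PP s F w} ≤
        (1 + τ) ^ 2 * 5 * XX μ s F (4 ^ i1 * (2 * (1 + τ))) := by
      gcongr
    rw [hΔ]
    linarith
  have hb : ∀ r : ℝ, |r| ≤ (1 / 4) ^ i0 → disp μ g (nn r) ≤ √Δ := by
    intro r hr
    apply hsm
    intro y
    have h1 := PP_nn_sub hA hF hq s y (hr.trans (by linarith))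
    have h0 : 0 ≤ J5 (PP s F) y := by
      unfold J5
      have := hF.PP_nonneg s
      have n1 := this (nn (-2) • y)
      have n2 := this (nn (-1) • y)
      have n3 := this (nn 0 • y)
      have n4 := this (nn 1 • y)
      have n5 := this (nn 2 • y)
      positivity
    refine h1.trans ?_
    change |r| * J5 (PP s F) y ≤ _
    gcongr
    nlinarith
  have hd : ∀ r : ℝ, |r| ≤ (1 / 4) ^ i0 → disp μ g (nm r) ≤ √Δ := by
    intro r hr
    apply hsm
    intro y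
    have h1 := PP_nm_sub hA hF hq hs y (hr.trans hρ)
    have h0 : 0 ≤ J5 (PP s F) y := by
      unfold J5
      have := hF.PP_nonneg s
      have n1 := this (nn (-2) • y)
      have n2 := this (nn (-1) • y)
      have n3 := this (nn 0 • y)
      have n4 := this (nn 1 • y)
      have n5 := this (nn 2 • y)
      positivity
    refine h1.trans ?_
    change C1 q * |r| * J5 (PP s F) y ≤ _
    gcongr
  have ha : ∀ i < m, disp μ g (nn (2 ^ i)) ≤ 9 * m * √D := fun i hi =>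
    chain' hA hF hq hFi hα0 hβ.le s hD i hi
  have hvar := gap_var hA hG hgm hgb hc hcB (by omega : m = 2 * i0 + c)
    (by positivity : (0 : ℝ) ≤ 9 * m * √D) (Real.sqrt_nonneg Δ) ha hb hd
  set e := ∫ x, g x ∂μ
  -- lower bound for the variance
  have hAm : MeasurableSet {w | 1 + τ ≤ PP s F w} := measurableSet_le measurable_const hPm
  have hBm : MeasurableSet {w | PP s F w ≤ α} := measurableSet_le hPm measurable_const
  have hlow := var_lower (μ := μ) hgm hgb hAm hBm hβ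
    (fun x hx => psi_eq_top (by rw [hα, hβd]; have : 1 + τ ≤ PP s F x := hx; linarith))
    (fun x hx => psi_eq_zero hβ.le hx) e
  have hBl : τ / 4 / (1 + τ / 4) ≤ μ.real {w | PP s F w ≤ α} := by
    have h1 : {w | PP s F w ≤ α} = {w | α < PP s F w}ᶜ := by
      ext w; simp
    rw [h1, measureReal_compl (measurableSet_lt measurable_const hPm)]
    have h2 := (lt_XX (μ := μ) s F (le_refl α)).trans (XX_markov hA hF hFi hF1 s
      (by positivity : 0 < α))
    have h3 : μ.real univ = 1 := by simp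
    rw [h3]
    have h4 : τ / 4 / (1 + τ / 4) = 1 - 1 / α := by
      rw [hα]; field_simp; ring
    rw [h4]
    linarith
  have hN0 := nr_nonneg (μ := μ) (fun x => g x - e)
  have h5 : XX μ s F (1 + τ) * (τ / 4 / (1 + τ / 4)) * β ^ 2 ≤ nr μ (fun x => g x - e) ^ 2 := by
    refine le_trans ?_ hlow
    have := XX_nonneg (μ := μ) s F (1 + τ)
    unfold XX
    gcongr
  refine h5.trans ?_
  have h6 : (ε0 * nr μ (fun x => g x - e)) ^ 2 ≤ (20 * m * (9 * m * √D + √Δ)) ^ 2 := by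
    apply pow_le_pow_left₀ _ hvar
    have := hG.pos
    positivity
  have h7 : (9 * m * √D + √Δ) ^ 2 ≤ 2 * (81 * m ^ 2 * D + Δ) := by
    have h8 := add_sq_le (a := 9 * (m : ℝ) * √D) (b := √Δ)
    rw [mul_pow, Real.sq_sqrt hD0, Real.sq_sqrt hΔ0] at h8
    refine h8.trans (le_of_eq ?_)
    ring
  have h8 : ε0 ^ 2 * nr μ (fun x => g x - e) ^ 2 ≤ 800 * m ^ 2 * (81 * m ^ 2 * D + Δ) := by
    calc ε0 ^ 2 * nr μ (fun x => g x - e) ^ 2 = (ε0 * nr μ (fun x => g x - e)) ^ 2 := by ring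
      _ ≤ (20 * m * (9 * m * √D + √Δ)) ^ 2 := h6
      _ = 400 * m ^ 2 * (9 * m * √D + √Δ) ^ 2 := by ring
      _ ≤ 400 * m ^ 2 * (2 * (81 * m ^ 2 * D + Δ)) := by gcongr
      _ = _ := by ring
  have hε := hG.pos
  rw [div_mul_eq_mul_div, le_div_iff₀ (by positivity)]
  linarith

end

end Pool.Agent.W745
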