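import Pool.Agent.W745.Level

/-! The recursion over the levels. -/

open MeasureTheory Real Set Filter Topology
open scoped ENNReal

namespace Pool.Agent.W745

noncomputable section

/-- the scale `2 ^ j` -/
def sj (j : ℕ) : ℝ := j * (log 2 / 2)

lemma sj_nonneg (j : ℕ) : 0 ≤ sj j := by
  unfold sj
  have := Real.log_nonneg (show (1 : ℝ) ≤ 2 by norm_num)
  positivity

lemma exp_sj (j : ℕ) : exp (2 * sj j) = 2 ^ j := by
  unfold sj
  have : 2 * (j * (log 2 / 2)) = j * log 2 := by ring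
  rw [this, mul_comm, Real.exp_mul, Real.exp_log (by norm_num), Real.rpow_natCast]

/-- levels -/
def tau : Bool × ℕ → ℝ
  | (true, n) => 4 ^ n
  | (false, n) => (1 / 4) ^ n

/-- weights -/
def om : Bool × ℕ → ℝ
  | (true, n) => 2 ^ n
  | (false, n) => (1 / 32) ^ n

/-- the depth below one -/
def ell : Bool × ℕ → ℕ
  | (true, _) => 0
  | (false, n) => n

lemma tau_pos (p : Bool × ℕ) : 0 < tau p := by
  obtain ⟨b, n⟩ := p
  cases b <;> simp only [tau] <;> positivity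

lemma om_pos (p : Bool × ℕ) : 0 < om p := by
  obtain ⟨b, n⟩ := p
  cases b <;> simp only [om] <;> positivity

lemma ell_le (p : Bool × ℕ) : ell p ≤ p.2 := by
  obtain ⟨b, n⟩ := p
  cases b <;> simp [ell]

/-- the coefficient -/
def aa (τ : ℝ) : ℝ := (4 + τ) * (16 / 9) / τ ^ 3

lemma aa_pos {τ : ℝ} (h : 0 < τ) : 0 < aa τ := by unfold aa; positivity

lemma fact1 (p : Bool × ℕ) : om p * aa (tau p) * (1 + tau p) ^ 2 ≤ 36 * 2 ^ p.2 := by
  obtain ⟨b, n⟩ := p
  cases b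
  · simp only [om, tau, aa]
    have h1 : ((1 : ℝ) / 4) ^ n ≤ 1 := pow_le_one₀ (by norm_num) (by norm_num)
    have h0 : 0 < ((1 : ℝ) / 4) ^ n := by positivity
    set t := ((1 : ℝ) / 4) ^ n with ht
    have e : ((1 : ℝ) / 32) ^ n = 2 ^ n * t ^ 3 := by
      rw [ht, ← pow_mul, mul_comm n 3, pow_mul, ← mul_pow]; norm_num
    rw [e]
    have h2 : (4 + t) * (16 / 9) * (1 + t) ^ 2 ≤ 36 := by nlinarith [sq_nonneg t, mul_pos h0 h0]
    have h3 : 2 ^ n * t ^ 3 * ((4 + t) * (16 / 9) / t ^ 3) * (1 + t) ^ 2 =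
        2 ^ n * ((4 + t) * (16 / 9) * (1 + t) ^ 2) := by
      field_simp
    rw [h3]
    have : (0 : ℝ) < 2 ^ n := by positivity
    nlinarith
  · simp only [om, tau, aa]
    have h1 : (1 : ℝ) ≤ 4 ^ n := one_le_pow₀ (by norm_num)
    set t := (4 : ℝ) ^ n with ht
    have h0 : 0 < t := by positivity
    have h3 : 2 ^ n * ((4 + t) * (16 / 9) / t ^ 3) * (1 + t) ^ 2 =
        2 ^ n * ((4 + t) * (16 / 9) * (1 + t) ^ 2 / t ^ 3) := by
      field_simp
    rw [h3]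
    have h2 : (4 + t) * (16 / 9) * (1 + t) ^ 2 / t ^ 3 ≤ 36 := by
      rw [div_le_iff₀ (by positivity)]
      have a1 : (1 + t) ^ 2 ≤ 4 * t ^ 2 := by nlinarith
      have a2 : (4 + t) * (1 + t) ^ 2 ≤ 5 * t * (4 * t ^ 2) := by
        gcongr
        linarith
      nlinarith [pow_pos h0 3]
    have : (0 : ℝ) < 2 ^ n := by positivity
    nlinarith

lemma fact2 (p : Bool × ℕ) : om p * aa (tau p) * tau p ≤ 9 * (1 / 2) ^ p.2 := by
  obtain ⟨b, n⟩ := p
  cases b
  · simp only [om, tau, aa]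
    have h1 : ((1 : ℝ) / 4) ^ n ≤ 1 := pow_le_one₀ (by norm_num) (by norm_num)
    have h0 : 0 < ((1 : ℝ) / 4) ^ n := by positivity
    set t := ((1 : ℝ) / 4) ^ n with ht
    have e : ((1 : ℝ) / 32) ^ n = (1 / 2) ^ n * t ^ 2 := by
      rw [ht, ← pow_mul, mul_comm n 2, pow_mul, ← mul_pow]; norm_num
    rw [e]
    have h3 : (1 / 2) ^ n * t ^ 2 * ((4 + t) * (16 / 9) / t ^ 3) * t =
        (1 / 2) ^ n * ((4 + t) * (16 / 9)) := by
      field_simp
    rw [h3]
    have : (0 : ℝ) < (1 / 2) ^ n := by positivity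
    nlinarith
  · simp only [om, tau, aa]
    have h1 : (1 : ℝ) ≤ 4 ^ n := one_le_pow₀ (by norm_num)
    have h0 : (0 : ℝ) < 4 ^ n := by positivity
    have e : (2 : ℝ) ^ n = (1 / 2) ^ n * 4 ^ n := by
      rw [← mul_pow]; norm_num
    rw [e]
    set t := (4 : ℝ) ^ n with ht
    have h3 : (1 / 2) ^ n * t * ((4 + t) * (16 / 9) / t ^ 3) * t =
        (1 / 2) ^ n * ((4 + t) * (16 / 9) / t) := by
      field_simp
    rw [h3]
    have h2 : (4 + t) * (16 / 9) / t ≤ 9 := by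
      rw [div_le_iff₀ h0]
      linarith
    have : (0 : ℝ) < (1 / 2) ^ n := by positivity
    nlinarith

/-- the choice of the constant `A` -/
lemma exists_A (c : ℕ) (K : ℝ) : ∃ A : ℕ, 1 ≤ A ∧ ∀ x : ℕ, A ≤ x →
    K * (16 * x + c) ^ 2 * (1 / 8) ^ x ≤ 1 / 2 := by
  have h : ∀ i : ℕ, Tendsto (fun x : ℕ => (x : ℝ) ^ i * (1 / 8) ^ x) atTop (𝓝 0) := fun i => by
    have := tendsto_pow_const_mul_const_pow_of_abs_lt_one i (r := (1 : ℝ) / 8)
      (by rw [abs_of_pos] <;> norm_num)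
    exact this
  have h2 := (((h 2).const_mul (K * 256)).add ((h 1).const_mul (K * 32 * c))).add
    ((h 0).const_mul (K * c ^ 2))
  have h3 : Tendsto (fun x : ℕ => K * (16 * x + c) ^ 2 * (1 / 8 : ℝ) ^ x) atTop (𝓝 0) := by
    convert h2 using 2
    · ring
    · ring
  have h4 := h3.eventually (ge_mem_nhds (show (0 : ℝ) < 1 / 2 by norm_num))
  obtain ⟨A, hA⟩ := eventually_atTop.1 h4
  exact ⟨max A 1, le_max_right _ _, fun x hx => hA x ((le_max_left _ _).trans hx)⟩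

lemma iterate {ι : Type} {u : ι → ℝ} {S : ℝ} (h1 : ∀ i, u i ≤ 1)
    (h : ∀ Z : ℝ, 0 ≤ Z → (∀ i, u i ≤ Z) → ∀ i, u i ≤ S + Z / 2) (hS : 0 ≤ S) (i : ι) :
    u i ≤ 2 * S := by
  have key : ∀ n : ℕ, ∀ i, u i ≤ 2 * S + (1 / 2) ^ n := by
    intro n
    induction n with
    | zero => intro i; simp; linarith [h1 i]
    | succ n ih =>
      intro i
      have := h (2 * S + (1 / 2) ^ n) (by positivity) ih i
      rw [pow_succ]
      linarith
  have h2 : Tendsto (fun n : ℕ => 2 * S + ((1 : ℝ) / 2) ^ n) atTop (𝓝 (2 * S + 0)) :=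
    tendsto_const_nhds.add (tendsto_pow_atTop_nhds_zero_of_lt_one (by norm_num) (by norm_num))
  rw [add_zero] at h2
  exact ge_of_tendsto h2 (Eventually.of_forall fun n => key n i)

lemma telescope {e : ℕ → ℝ} (he : Antitone e) (h0 : ∀ j, 0 ≤ e j) (m J : ℕ) :
    ∑ j ∈ Finset.range J, (e j - e (j + m)) ≤ m * e 0 := by
  induction m with
  | zero => simp
  | succ m ih =>
    have h1 : ∀ j, e j - e (j + (m + 1)) = (e j - e (j + m)) + (e (j + m) - e (j + 1 + m)) := by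
      intro j
      rw [show j + (m + 1) = j + 1 + m by ring]
      ring
    simp only [h1]
    rw [Finset.sum_add_distrib, Finset.sum_range_sub' (fun j => e (j + m))]
    have h2 := he (Nat.zero_le (0 + m))
    have h3 := h0 (J + m)
    push_cast
    linarith

variable {X : Type} [MeasurableSpace X] {μ : Measure X} [MulAction SL2 X]
variable {q : ℝ} {F : X → ℝ}

/-- the index -/
def mk (A c : ℕ) (p : Bool × ℕ) : ℕ := 16 * (A * (ell p + 1)) + c

/-- the energy difference -/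
def DD (μ : Measure X) (F : X → ℝ) (A c : ℕ) (p : Bool × ℕ) (j : ℕ) : ℝ :=
  en μ (1 + tau p / 4) (3 / 4 * tau p) (2 ^ j) F -
    en μ (1 + tau p / 4) (3 / 4 * tau p) (2 ^ (j + mk A c p)) F

/-- the coefficient of the energy -/
def KK (ε0 : ℝ) (A c : ℕ) (p : Bool × ℕ) : ℝ :=
  om p * aa (tau p) * (800 * mk A c p ^ 2 / ε0 ^ 2 * (81 * mk A c p ^ 2))

lemma KK_nonneg {ε0 : ℝ} (hε : 0 < ε0) (A c : ℕ) (p : Bool × ℕ) : 0 ≤ KK ε0 A c p := by
  unfold KK
  have := om_pos p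
  have := aa_pos (tau_pos p)
  positivity

lemma one_step [IsProbabilityMeasure μ] (hA : Act μ) {B ε0 : ℝ} (hG : Gap μ B ε0)
    (hF : Reg q F) (hq : 0 ≤ q) (hFi : Integrable F μ) (hF1 : ∫ y, F y ∂μ = 1)
    {c : ℕ} (hc : 2 ≤ c) (hcB : 12 * B ^ 2 ≤ 2 ^ (c - 1)) {A : ℕ} (hA1 : 1 ≤ A)
    (hAx : ∀ x : ℕ, A ≤ x → (36 * (800 / ε0 ^ 2) * (6400 * C1 q ^ 2 + 500 * C1 q ^ 2 + 5)) *
      (16 * x + c) ^ 2 * (1 / 8) ^ x ≤ 1 / 2) (j : ℕ) {Z : ℝ} (hZ : 0 ≤ Z)
    (hyp : ∀ p : Bool × ℕ, om p * XX μ (sj j) F (1 + tau p) ≤ Z) (p : Bool × ℕ) :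
    om p * XX μ (sj j) F (1 + tau p) ≤ KK ε0 A c p * DD μ F A c p j + Z / 2 := by
  set x := A * (ell p + 1) with hx
  have hAx' : A ≤ x := by rw [hx]; exact Nat.le_mul_of_pos_right _ (by omega)
  have hlx : ell p ≤ x := by
    rw [hx]
    nlinarith
  set m := mk A c p with hm
  have hmx : m = 4 * (4 * x) + c := by rw [hm, mk]; ring
  have hmR : (m : ℝ) = 16 * x + c := by rw [hmx]; push_cast; ring
  have hτ := tau_pos p
  have hω := om_pos p
  have haa := aa_pos hτ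
  have hε := hG.pos
  set τ := tau p with hτd
  have hanti := en_anti_pow hA hF hq hFi (α := 1 + τ / 4) (β := 3 / 4 * τ) (by positivity)
    (by positivity) (L := 1) one_pos
  simp only [mul_one] at hanti
  have hD0 : 0 ≤ DD μ F A c p j := by
    unfold DD
    have := hanti (Nat.le_add_right j (mk A c p))
    simp only at this
    linarith
  have hlev := level_ineq hA hG hF hq hFi hF1 hc hcB (sj_nonneg j) hτ (i1 := 4 * x) (m := m)
    (by omega) hmx (D := DD μ F A c p j) (by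
      rw [exp_sj, ← pow_add, add_comm m j]
      exact le_rfl) hD0
  set Y := XX μ (sj j) F with hY
  -- rewriting the left-hand side
  have hlhs : Y (1 + τ) * (τ / 4 / (1 + τ / 4)) * (3 / 4 * τ) ^ 2 = Y (1 + τ) / aa τ := by
    unfold aa
    field_simp
    ring
  rw [hlhs, div_le_iff₀ haa] at hlev
  -- the three bounds
  have hYn : ∀ z, 0 ≤ Y z := fun z => XX_nonneg _ _ _
  have hanY : Antitone Y := XX_anti _ _
  have hU : ∀ n : ℕ, 2 ^ n * Y (1 + 4 ^ n) ≤ Z := fun n => hyp (true, n)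
  have hV : ∀ n : ℕ, (1 / 32) ^ n * Y (1 + (1 / 4) ^ n) ≤ Z := fun n => hyp (false, n)
  have b1 : 2 ^ p.2 * Y (1 + τ / 4) ≤ 32 * 64 ^ ell p * Z := by
    rw [hτd]
    obtain ⟨b, n⟩ := p
    cases b
    · simp only [tau, ell]
      have h1 := hV (n + 1)
      have h2 : ((1 : ℝ) / 4) ^ (n + 1) = (1 / 4) ^ n / 4 := by rw [pow_succ]; ring
      rw [h2] at h1
      set y := Y (1 + (1 / 4) ^ n / 4)
      have h3 : (2 : ℝ) ^ n * y = 32 * 64 ^ n * ((1 / 32) ^ (n + 1) * y) := by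
        have : (32 : ℝ) * 64 ^ n * (1 / 32) ^ (n + 1) = 2 ^ n := by
          rw [pow_succ]
          calc (32 : ℝ) * 64 ^ n * ((1 / 32) ^ n * (1 / 32)) = 64 ^ n * (1 / 32) ^ n := by ring
            _ = 2 ^ n := by rw [← mul_pow]; norm_num
        rw [← mul_assoc, this]
      rw [h3]
      gcongr
    · simp only [tau, ell, pow_zero, mul_one]
      rcases n with _ | n
      · have h1 := hV 1
        simp only [pow_one, pow_zero] at h1 ⊢
        linarith
      · have h1 := hU n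
        have h2 : (4 : ℝ) ^ (n + 1) / 4 = 4 ^ n := by rw [pow_succ]; ring
        rw [h2, pow_succ]
        nlinarith
  have b2 : 2 ^ p.2 * Y (2 * (1 + τ)) ≤ 2 ^ ell p * Z := by
    rw [hτd]
    obtain ⟨b, n⟩ := p
    cases b
    · simp only [tau, ell]
      have h1 := hU 0
      simp only [pow_zero, one_mul] at h1
      have h2 : Y (2 * (1 + (1 / 4) ^ n)) ≤ Y (1 + 1) := by
        apply hanY
        have : (0 : ℝ) < (1 / 4) ^ n := by positivity
        linarith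
      gcongr
      exact h2.trans h1
    · simp only [tau, ell, pow_zero, one_mul]
      have h1 := hU n
      have h2 : Y (2 * (1 + 4 ^ n)) ≤ Y (1 + 4 ^ n) := by
        apply hanY
        have : (0 : ℝ) < 4 ^ n := by positivity
        linarith
      have : (0 : ℝ) < 2 ^ n := by positivity
      nlinarith
  have b3 : 2 ^ p.2 * Y (4 ^ (4 * x) * (2 * (1 + τ))) ≤ 2 ^ ell p * (1 / 2) ^ (4 * x) * Z := by
    rw [hτd]
    have g4 : (1 : ℝ) ≤ 4 ^ (4 * x) := one_le_pow₀ (by norm_num)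
    obtain ⟨b, n⟩ := p
    cases b
    · simp only [tau, ell]
      have h1 := hU (4 * x)
      have h2 : Y (4 ^ (4 * x) * (2 * (1 + (1 / 4) ^ n))) ≤ Y (1 + 4 ^ (4 * x)) := by
        apply hanY
        have : (0 : ℝ) < (1 / 4) ^ n := by positivity
        nlinarith
      have h3 : Y (4 ^ (4 * x) * (2 * (1 + (1 / 4) ^ n))) ≤ (1 / 2) ^ (4 * x) * Z := by
        refine h2.trans ?_
        have h4 : ((1 : ℝ) / 2) ^ (4 * x) * (2 ^ (4 * x) * Y (1 + 4 ^ (4 * x))) =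
            Y (1 + 4 ^ (4 * x)) := by
          rw [← mul_assoc, ← mul_pow]
          norm_num
        rw [← h4]
        gcongr
      rw [mul_assoc]
      gcongr
    · simp only [tau, ell, pow_zero, one_mul]
      have h1 := hU (4 * x + n)
      have h2 : Y (4 ^ (4 * x) * (2 * (1 + 4 ^ n))) ≤ Y (1 + 4 ^ (4 * x + n)) := by
        apply hanY
        rw [pow_add]
        have : (0 : ℝ) < 4 ^ n := by positivity
        nlinarith
      have h4 : ((1 : ℝ) / 2) ^ (4 * x) * (2 ^ (4 * x + n) * Y (1 + 4 ^ (4 * x + n))) =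
          2 ^ n * Y (1 + 4 ^ (4 * x + n)) := by
        rw [pow_add, ← mul_assoc, ← mul_assoc, ← mul_pow]
        norm_num
      calc 2 ^ n * Y (4 ^ (4 * x) * (2 * (1 + 4 ^ n))) ≤ 2 ^ n * Y (1 + 4 ^ (4 * x + n)) := by
            gcongr
        _ = ((1 : ℝ) / 2) ^ (4 * x) * (2 ^ (4 * x + n) * Y (1 + 4 ^ (4 * x + n))) := h4.symm
        _ ≤ (1 / 2) ^ (4 * x) * Z := by gcongr
  -- the smallness
  have pl : ∀ a : ℝ, 1 ≤ a → a ^ ell p ≤ a ^ x := fun a ha => pow_le_pow_right₀ ha hlx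
  have c1 : ((1 : ℝ) / 256) ^ (4 * x) * 64 ^ ell p ≤ (1 / 8) ^ x := by
    calc ((1 : ℝ) / 256) ^ (4 * x) * 64 ^ ell p ≤ (1 / 256) ^ (4 * x) * 64 ^ x := by
          gcongr
          · norm_num
      _ = ((1 / 256) ^ 4 * 64) ^ x := by rw [pow_mul, ← mul_pow]
      _ ≤ (1 / 8) ^ x := by
          apply pow_le_pow_left₀ <;> norm_num
  have c2 : ((1 : ℝ) / 16) ^ (4 * x) * 2 ^ ell p ≤ (1 / 8) ^ x := by
    calc ((1 : ℝ) / 16) ^ (4 * x) * 2 ^ ell p ≤ (1 / 16) ^ (4 * x) * 2 ^ x := by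
          gcongr
          · norm_num
      _ = ((1 / 16) ^ 4 * 2) ^ x := by rw [pow_mul, ← mul_pow]
      _ ≤ (1 / 8) ^ x := by
          apply pow_le_pow_left₀ <;> norm_num
  have c3 : ((1 : ℝ) / 2) ^ (4 * x) * 2 ^ ell p ≤ (1 / 8) ^ x := by
    calc ((1 : ℝ) / 2) ^ (4 * x) * 2 ^ ell p ≤ (1 / 2) ^ (4 * x) * 2 ^ x := by
          gcongr
          · norm_num
      _ = ((1 / 2) ^ 4 * 2) ^ x := by rw [pow_mul, ← mul_pow]
      _ ≤ (1 / 8) ^ x := by
          apply pow_le_pow_left₀ <;> norm_num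
  have hAxx := hAx x hAx'
  -- combination
  set T := 200 * C1 q ^ 2 * (1 / 256) ^ (4 * x) * Y (1 + τ / 4) +
         500 * C1 q ^ 2 * (1 / 16) ^ (4 * x) * Y (2 * (1 + τ)) +
         5 * Y (4 ^ (4 * x) * (2 * (1 + τ))) with hT
  have hTb : 2 ^ p.2 * T ≤ (6400 * C1 q ^ 2 + 500 * C1 q ^ 2 + 5) * (1 / 8) ^ x * Z := by
    have d1 : 200 * C1 q ^ 2 * (1 / 256) ^ (4 * x) * (2 ^ p.2 * Y (1 + τ / 4)) ≤
        6400 * C1 q ^ 2 * (1 / 8) ^ x * Z := by
      calc 200 * C1 q ^ 2 * (1 / 256) ^ (4 * x) * (2 ^ p.2 * Y (1 + τ / 4)) ≤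
            200 * C1 q ^ 2 * (1 / 256) ^ (4 * x) * (32 * 64 ^ ell p * Z) := by gcongr
        _ = 6400 * C1 q ^ 2 * ((1 / 256) ^ (4 * x) * 64 ^ ell p) * Z := by ring
        _ ≤ _ := by gcongr
    have d2 : 500 * C1 q ^ 2 * (1 / 16) ^ (4 * x) * (2 ^ p.2 * Y (2 * (1 + τ))) ≤
        500 * C1 q ^ 2 * (1 / 8) ^ x * Z := by
      calc 500 * C1 q ^ 2 * (1 / 16) ^ (4 * x) * (2 ^ p.2 * Y (2 * (1 + τ))) ≤
            500 * C1 q ^ 2 * (1 / 16) ^ (4 * x) * (2 ^ ell p * Z) := by gcongr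
        _ = 500 * C1 q ^ 2 * ((1 / 16) ^ (4 * x) * 2 ^ ell p) * Z := by ring
        _ ≤ _ := by gcongr
    have d3 : 5 * (2 ^ p.2 * Y (4 ^ (4 * x) * (2 * (1 + τ)))) ≤ 5 * (1 / 8) ^ x * Z := by
      calc 5 * (2 ^ p.2 * Y (4 ^ (4 * x) * (2 * (1 + τ)))) ≤
            5 * (2 ^ ell p * (1 / 2) ^ (4 * x) * Z) := by gcongr
        _ = 5 * ((1 / 2) ^ (4 * x) * 2 ^ ell p) * Z := by ring
        _ ≤ _ := by gcongr
    rw [hT]
    linarith
  have hT0 : 0 ≤ T := by
    have := hYn (1 + τ / 4)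
    have := hYn (2 * (1 + τ))
    have := hYn (4 ^ (4 * x) * (2 * (1 + τ)))
    positivity
  have f1 := fact1 p
  rw [← hτd] at f1
  have e1 : om p * Y (1 + τ) ≤ KK ε0 A c p * DD μ F A c p j +
      800 * m ^ 2 / ε0 ^ 2 * (om p * aa τ * (1 + τ) ^ 2 * T) := by
    have h1 := mul_le_mul_of_nonneg_left hlev hω.le
    refine h1.trans (le_of_eq ?_)
    rw [KK, ← hm, ← hτd]
    ring
  have e2 : om p * aa τ * (1 + τ) ^ 2 * T ≤ 36 * (2 ^ p.2 * T) := by
    calc om p * aa τ * (1 + τ) ^ 2 * T ≤ 36 * 2 ^ p.2 * T := by gcongr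
      _ = _ := by ring
  have e3 : 800 * m ^ 2 / ε0 ^ 2 * (om p * aa τ * (1 + τ) ^ 2 * T) ≤ Z / 2 := by
    calc 800 * m ^ 2 / ε0 ^ 2 * (om p * aa τ * (1 + τ) ^ 2 * T) ≤
          800 * m ^ 2 / ε0 ^ 2 * (36 * ((6400 * C1 q ^ 2 + 500 * C1 q ^ 2 + 5) *
            (1 / 8) ^ x * Z)) := by
          apply mul_le_mul_of_nonneg_left _ (by positivity)
          exact e2.trans (mul_le_mul_of_nonneg_left hTb (by norm_num))
      _ = (36 * (800 / ε0 ^ 2) * (6400 * C1 q ^ 2 + 500 * C1 q ^ 2 + 5)) *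
          (16 * x + c) ^ 2 * (1 / 8) ^ x * Z := by
          rw [hmR]; ring
      _ ≤ 1 / 2 * Z := by gcongr
      _ = Z / 2 := by ring
  linarith

/-- the superlevel sets at scales `2 ^ j` have summable measures -/
lemma summable_XX [IsProbabilityMeasure μ] (hA : Act μ) {B ε0 : ℝ} (hG : Gap μ B ε0)
    (hF : Reg q F) (hq : 0 ≤ q) (hFi : Integrable F μ) (hF1 : ∫ y, F y ∂μ = 1)
    (p : Bool × ℕ) : ∑' j : ℕ, ENNReal.ofReal (om p * XX μ (sj j) F (1 + tau p)) ≠ ⊤ := by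
  obtain ⟨c, hc, hcB⟩ : ∃ c : ℕ, 2 ≤ c ∧ 12 * B ^ 2 ≤ 2 ^ (c - 1) := by
    obtain ⟨n, hn⟩ := pow_unbounded_of_one_lt (12 * B ^ 2) (show (1 : ℝ) < 2 by norm_num)
    refine ⟨n + 2, by omega, ?_⟩
    have : (2 : ℝ) ^ n ≤ 2 ^ (n + 2 - 1) := pow_le_pow_right₀ (by norm_num) (by omega)
    linarith
  have hε := hG.pos
  obtain ⟨A, hA1, hAx⟩ := exists_A c
    (36 * (800 / ε0 ^ 2) * (6400 * C1 q ^ 2 + 500 * C1 q ^ 2 + 5))
  have hanti : ∀ p : Bool × ℕ, Antitone fun i : ℕ =>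
      en μ (1 + tau p / 4) (3 / 4 * tau p) (2 ^ i) F := fun p => by
    have hτ := tau_pos p
    have := en_anti_pow hA hF hq hFi (α := 1 + tau p / 4) (β := 3 / 4 * tau p) (by positivity)
      (by positivity) (L := 1) one_pos
    simpa using this
  have hDD0 : ∀ p j, 0 ≤ DD μ F A c p j := fun p j => by
    unfold DD
    have := hanti p (Nat.le_add_right j (mk A c p))
    simp only at this
    linarith
  have hKD0 : ∀ p j, 0 ≤ KK ε0 A c p * DD μ F A c p j := fun p j =>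
    mul_nonneg (KK_nonneg hε A c p) (hDD0 p j)
  -- bound by the series
  set S : ℕ → ℝ≥0∞ := fun j => ∑' p : Bool × ℕ, ENNReal.ofReal (KK ε0 A c p * DD μ F A c p j)
    with hS
  have hbound : ∀ j p, ENNReal.ofReal (om p * XX μ (sj j) F (1 + tau p)) ≤ 2 * S j := by
    intro j p
    rcases eq_or_ne (S j) ⊤ with h | h
    · rw [h]
      simp
    · have h1 : ∀ p, KK ε0 A c p * DD μ F A c p j ≤ (S j).toReal := fun p => by
        rw [← ENNReal.ofReal_le_iff_le_toReal h]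
        exact ENNReal.le_tsum p
      have h2 := iterate (u := fun p => om p * XX μ (sj j) F (1 + tau p)) (S := (S j).toReal)
        (fun p => by
          have h3 := XX_markov hA hF hFi hF1 (sj j) (z := 1 + tau p) (by linarith [tau_pos p])
          have h4 := XX_le_one (μ := μ) (sj j) F (1 + tau p)
          have h5 := XX_nonneg (μ := μ) (sj j) F (1 + tau p)
          obtain ⟨b, n⟩ := p
          cases b
          · simp only [om, tau] at *
            have : ((1 : ℝ) / 32) ^ n ≤ 1 := pow_le_one₀ (by norm_num) (by norm_num)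
            nlinarith
          · simp only [om, tau] at *
            have h6 : (2 : ℝ) ^ n ≤ 1 + 4 ^ n := by
              have : (4 : ℝ) ^ n = 2 ^ n * 2 ^ n := by rw [← mul_pow]; norm_num
              rw [this]
              nlinarith [sq_nonneg ((2 : ℝ) ^ n - 1)]
            have h7 : (0 : ℝ) < 1 + 4 ^ n := by positivity
            rw [le_div_iff₀ h7] at h3
            nlinarith)
        (fun Z hZ hyp p => by
          have h3 := one_step hA hG hF hq hFi hF1 hc hcB hA1 hAx j hZ hyp p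
          linarith [h1 p]) ENNReal.toReal_nonneg p
      rw [← ENNReal.ofReal_toReal h, ← ENNReal.ofReal_ofNat 2, ← ENNReal.ofReal_mul (by norm_num)]
      exact ENNReal.ofReal_le_ofReal h2
  -- the series is finite
  have hinner : ∀ p, ∑' j : ℕ, ENNReal.ofReal (KK ε0 A c p * DD μ F A c p j) ≤
      ENNReal.ofReal (KK ε0 A c p * (mk A c p * tau p)) := by
    intro p
    rw [ENNReal.tsum_eq_iSup_nat]
    refine iSup_le fun J => ?_
    rw [← ENNReal.ofReal_sum_of_nonneg fun j _ => hKD0 p j]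
    apply ENNReal.ofReal_le_ofReal
    rw [← Finset.mul_sum]
    refine mul_le_mul_of_nonneg_left ?_ (KK_nonneg hε A c p)
    have hτ := tau_pos p
    refine (telescope (hanti p) (fun j => en_nonneg (by positivity) _) (mk A c p) J).trans ?_
    refine mul_le_mul_of_nonneg_left ?_ (Nat.cast_nonneg _)
    have h1 := en_le hA hF hFi (α := 1 + tau p / 4) (β := 3 / 4 * tau p) (by positivity)
      (by positivity) (L := 2 ^ 0) (by norm_num)
    rw [hF1] at h1
    linarith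
  set M : ℝ := 16 * A + c with hM
  have hM0 : 0 ≤ M := by positivity
  have hterm : ∀ p : Bool × ℕ, KK ε0 A c p * (mk A c p * tau p) ≤
      9 * (800 / ε0 ^ 2 * 81) * M ^ 5 * (((p.2 : ℝ) + 1) ^ 5 * (1 / 2) ^ p.2) := by
    intro p
    have hm : (mk A c p : ℝ) ≤ M * (p.2 + 1) := by
      have h1 : (mk A c p : ℝ) = 16 * (A * (ell p + 1)) + c := by unfold mk; push_cast; ring
      have h2 : (ell p : ℝ) ≤ p.2 := by exact_mod_cast ell_le p
      rw [h1, hM]
      have h3 : (0 : ℝ) ≤ A := Nat.cast_nonneg A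
      have h4 : (0 : ℝ) ≤ c := Nat.cast_nonneg c
      have h5 : (0 : ℝ) ≤ p.2 := Nat.cast_nonneg _
      have h6 : (A : ℝ) * (ell p + 1) ≤ A * (p.2 + 1) := by gcongr
      nlinarith
    have hτ := tau_pos p
    have hω := om_pos p
    have haa := aa_pos hτ
    have f2 := fact2 p
    calc KK ε0 A c p * (mk A c p * tau p) =
          (om p * aa (tau p) * tau p) * (800 / ε0 ^ 2 * 81) * (mk A c p : ℝ) ^ 5 := by
          unfold KK; ring
      _ ≤ (9 * (1 / 2) ^ p.2) * (800 / ε0 ^ 2 * 81) * (M * (p.2 + 1)) ^ 5 := by gcongr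
      _ = _ := by ring
  have hsumm : Summable fun n : ℕ => ((n : ℝ) + 1) ^ 5 * (1 / 2) ^ n := by
    have h := summable_pow_mul_geometric_of_norm_lt_one 5 (r := (1 : ℝ) / 2) (by norm_num)
    have h2 := (summable_nat_add_iff 1).2 h
    have h3 := h2.mul_left 2
    refine h3.congr fun n => ?_
    push_cast
    rw [pow_succ ((1 : ℝ) / 2)]
    ring
  have hfin : ∑' j, S j ≠ ⊤ := by
    have h1 : ∑' j, S j = ∑' p : Bool × ℕ, ∑' j : ℕ,
        ENNReal.ofReal (KK ε0 A c p * DD μ F A c p j) := ENNReal.tsum_comm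
    rw [h1]
    have h2 : ∑' p : Bool × ℕ, ∑' j : ℕ, ENNReal.ofReal (KK ε0 A c p * DD μ F A c p j) ≤
        ∑' p : Bool × ℕ, ENNReal.ofReal (9 * (800 / ε0 ^ 2 * 81) * M ^ 5 *
          (((p.2 : ℝ) + 1) ^ 5 * (1 / 2) ^ p.2)) :=
      ENNReal.tsum_le_tsum fun p => (hinner p).trans (ENNReal.ofReal_le_ofReal (hterm p))
    refine ne_top_of_le_ne_top ?_ h2
    rw [ENNReal.tsum_prod (f := fun (_ : Bool) (n : ℕ) => ENNReal.ofReal
      (9 * (800 / ε0 ^ 2 * 81) * M ^ 5 * (((n : ℝ) + 1) ^ 5 * (1 / 2) ^ n))), tsum_fintype]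
    refine ENNReal.sum_ne_top.2 fun b _ => ?_
    exact (hsumm.mul_left (9 * (800 / ε0 ^ 2 * 81) * M ^ 5)).tsum_ofReal_ne_top
  refine ne_top_of_le_ne_top ?_ (ENNReal.tsum_le_tsum fun j => hbound j p)
  rw [ENNReal.tsum_mul_left]
  exact ENNReal.mul_ne_top (by norm_num) hfin

/-- the limsup along the scales `2 ^ j` -/
theorem limsup_one [IsProbabilityMeasure μ] (hA : Act μ) {B ε0 : ℝ} (hG : Gap μ B ε0)
    (hF : Reg q F) (hq : 0 ≤ q) (hFi : Integrable F μ) (hF1 : ∫ y, F y ∂μ = 1) :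
    ∀ᵐ y ∂μ, ∀ δ : ℝ, 0 < δ → ∀ᶠ j : ℕ in atTop, PP (sj j) F y < 1 + δ := by
  have h : ∀ l : ℕ, ∀ᵐ y ∂μ, ∀ᶠ j : ℕ in atTop, PP (sj j) F y < 1 + (1 / 4) ^ l := by
    intro l
    have h1 := summable_XX hA hG hF hq hFi hF1 (false, l)
    have h2 : ∑' j : ℕ, μ {y | 1 + (1 / 4) ^ l ≤ PP (sj j) F y} ≠ ⊤ := by
      have h3 : ∀ j : ℕ, ENNReal.ofReal (om (false, l) * XX μ (sj j) F (1 + tau (false, l))) =
          ENNReal.ofReal (om (false, l)) * μ {y | 1 + (1 / 4) ^ l ≤ PP (sj j) F y} := by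
        intro j
        rw [ENNReal.ofReal_mul (om_pos _).le]
        congr 1
        unfold XX
        rw [Measure.real, ENNReal.ofReal_toReal (measure_ne_top _ _)]
        rfl
      simp only [h3, ENNReal.tsum_mul_left] at h1
      intro h4
      rw [h4] at h1
      apply h1
      rw [ENNReal.mul_top]
      exact (ENNReal.ofReal_pos.2 (om_pos _)).ne'
    filter_upwards [ae_eventually_notMem h2] with y hy
    filter_upwards [hy] with j hj
    exact not_le.1 hj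
  rw [← ae_all_iff] at h
  filter_upwards [h] with y hy δ hδ
  obtain ⟨l, hl⟩ := exists_pow_lt_of_lt_one hδ (show ((1 : ℝ) / 4) < 1 by norm_num)
  filter_upwards [hy l] with j hj
  linarith

end

end Pool.Agent.W745
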