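import Pool.Agent.W745.Energy

/-! Small perturbations of the renormalised averages. -/

open MeasureTheory Real Set
open scoped ENNReal

namespace Pool.Agent.W745

noncomputable section

variable {X : Type} [MeasurableSpace X] {μ : Measure X} [MulAction SL2 X]
variable {q : ℝ} {F : X → ℝ}

lemma PP_nn (s : ℝ) (F : X → ℝ) (r : ℝ) (y : X) :
    PP s F (nn r • y) = ∫ t, tent (t - r) * F (dg s • nn t • y) := by
  unfold PP
  rw [← integral_sub_right_eq_self _ r]
  congr 1
  ext t
  rw [← mul_smul (nn (t - r)), ← nn_add, sub_add_cancel]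

lemma int_PPr (hA : Act μ) (hF : Reg q F) (hq : 0 ≤ q) (s r : ℝ) (y : X) :
    Integrable fun t => tent (t - r) * F (dg s • nn t • y) := by
  have := (hF.int_PP hA hq s (nn r • y)).comp_sub_right r
  refine this.congr (Filter.Eventually.of_forall fun t => ?_)
  simp only
  rw [← mul_smul (nn (t - r)), ← nn_add, sub_add_cancel]

lemma tent_cover {t : ℝ} (ht : |t| ≤ 2) :
    1 ≤ tent (t - -2) + tent (t - -1) + tent (t - 0) + tent (t - 1) + tent (t - 2) := by
  obtain ⟨h1, h2⟩ := abs_le.1 ht
  have n1 := tent_nonneg (t - -2)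
  have n2 := tent_nonneg (t - -1)
  have n3 := tent_nonneg (t - 0)
  have n4 := tent_nonneg (t - 1)
  have n5 := tent_nonneg (t - 2)
  have lo : ∀ z : ℝ, 1 - z ≤ tent z ∨ z < 0 := fun z => by
    rcases le_or_gt 0 z with h | h
    · left; unfold tent; rw [abs_of_nonneg h]; exact le_max_left _ _
    · right; exact h
  have a1 : ∀ z : ℝ, 1 - z ≤ tent z ∨ z ≤ 0 := fun z => (lo z).imp id le_of_lt
  have b1 : ∀ z : ℝ, 0 ≤ z → 1 - z ≤ tent z := fun z hz => by
    unfold tent; rw [abs_of_nonneg hz]; exact le_max_left _ _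
  have b2 : ∀ z : ℝ, z ≤ 0 → 1 + z ≤ tent z := fun z hz => by
    unfold tent; rw [abs_of_nonpos hz]; exact le_max_of_le_left (by linarith)
  rcases le_total t (-1) with c | c
  · have := b1 (t - -2) (by linarith)
    have := b2 (t - -1) (by linarith)
    linarith
  rcases le_total t 0 with c' | c'
  · have := b1 (t - -1) (by linarith)
    have := b2 (t - 0) (by linarith)
    linarith
  rcases le_total t 1 with c'' | c''
  · have := b1 (t - 0) (by linarith)
    have := b2 (t - 1) (by linarith)
    linarith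
  · have := b1 (t - 1) (by linarith)
    have := b2 (t - 2) (by linarith)
    linarith

/-- the majorant -/
def Pt (s : ℝ) (F : X → ℝ) (y : X) : ℝ :=
  PP s F (nn (-2) • y) + PP s F (nn (-1) • y) + PP s F (nn 0 • y) + PP s F (nn 1 • y) +
    PP s F (nn 2 • y)

lemma Pt_eq (hA : Act μ) (hF : Reg q F) (hq : 0 ≤ q) (s : ℝ) (y : X) :
    Integrable (fun t => (tent (t - -2) + tent (t - -1) + tent (t - 0) + tent (t - 1) +
      tent (t - 2)) * F (dg s • nn t • y)) ∧
    Pt s F y = ∫ t, (tent (t - -2) + tent (t - -1) + tent (t - 0) + tent (t - 1) +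
      tent (t - 2)) * F (dg s • nn t • y) := by
  have i1 := int_PPr hA hF hq s (-2) y
  have i2 := int_PPr hA hF hq s (-1) y
  have i3 := int_PPr hA hF hq s 0 y
  have i4 := int_PPr hA hF hq s 1 y
  have i5 := int_PPr hA hF hq s 2 y
  have i12 := i1.add i2
  have i123 := i12.add i3
  have i1234 := i123.add i4
  have i12345 := i1234.add i5
  have e : (fun t => (tent (t - -2) + tent (t - -1) + tent (t - 0) + tent (t - 1) +
      tent (t - 2)) * F (dg s • nn t • y)) = fun t => tent (t - -2) * F (dg s • nn t • y) +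
      tent (t - -1) * F (dg s • nn t • y) + tent (t - 0) * F (dg s • nn t • y) +
      tent (t - 1) * F (dg s • nn t • y) + tent (t - 2) * F (dg s • nn t • y) := by
    ext t; ring
  rw [e]
  refine ⟨i12345, ?_⟩
  unfold Pt
  rw [PP_nn, PP_nn, PP_nn, PP_nn, PP_nn, ← integral_add i1 i2]
  have e1 := integral_add i12 i3
  have e2 := integral_add i123 i4
  have e3 := integral_add i1234 i5
  simp only [Pi.add_apply] at e1 e2 e3
  rw [e3, e2, e1]

lemma kernel_bound (hA : Act μ) (hF : Reg q F) (hq : 0 ≤ q) (s : ℝ) (y : X) {H : ℝ → ℝ} {C : ℝ}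
    (hC : 0 ≤ C) (h1 : ∀ t, |t| ≤ 2 → |H t| ≤ C * F (dg s • nn t • y))
    (h2 : ∀ t, 2 < |t| → H t = 0) : |∫ t, H t| ≤ C * Pt s F y := by
  obtain ⟨i, e⟩ := Pt_eq hA hF hq s y
  rw [e, ← integral_const_mul, ← norm_eq_abs]
  refine norm_integral_le_of_norm_le (i.const_mul C) (Filter.Eventually.of_forall fun t => ?_)
  rw [norm_eq_abs]
  have hFn := hF.nonneg (dg s • nn t • y)
  rcases le_or_gt |t| 2 with h | h
  · refine (h1 t h).trans ?_
    have := tent_cover h
    have h3 : F (dg s • nn t • y) ≤ (tent (t - -2) + tent (t - -1) + tent (t - 0) + tent (t - 1) +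
      tent (t - 2)) * F (dg s • nn t • y) := by nlinarith
    gcongr
  · rw [h2 t h, abs_zero]
    have := tent_nonneg (t - -2)
    have := tent_nonneg (t - -1)
    have := tent_nonneg (t - 0)
    have := tent_nonneg (t - 1)
    have := tent_nonneg (t - 2)
    positivity

lemma PP_nn_sub (hA : Act μ) (hF : Reg q F) (hq : 0 ≤ q) (s : ℝ) (y : X) {r : ℝ} (hr : |r| ≤ 1) :
    |PP s F (nn r • y) - PP s F y| ≤ |r| * Pt s F y := by
  have i1 := int_PPr hA hF hq s r y
  have i2 := hF.int_PP hA hq s y
  rw [PP_nn]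
  unfold PP
  rw [← integral_sub i1 i2]
  refine kernel_bound hA hF hq s y (abs_nonneg r) (fun t ht => ?_) fun t ht => ?_
  · rw [← sub_mul, abs_mul, abs_of_nonneg (hF.nonneg _)]
    refine mul_le_mul_of_nonneg_right ?_ (hF.nonneg _)
    refine (tent_lip _ _).trans ?_
    rw [sub_sub_cancel_left, abs_neg]
  · have h1 : 1 ≤ |t - r| := by
      have := abs_sub_abs_le_abs_sub t r
      linarith
    rw [tent_zero_of h1, tent_zero_of (by linarith : 1 ≤ |t|)]
    simp

lemma nn_nm' {t v : ℝ} (h : 0 < 1 - t * v) :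
    nn (t / (1 - t * v)) * nm v = nm (v * (1 - t * v)) * dg (-log (1 - t * v)) * nn t := by
  have hne : (1 - t * v) ≠ 0 := h.ne'
  have e : 1 + t / (1 - t * v) * v = (1 - t * v)⁻¹ := by
    field_simp
    ring
  have hp : 0 < 1 + t / (1 - t * v) * v := by rw [e]; positivity
  rw [nn_nm hp, e, Real.log_inv]
  congr 3
  · field_simp
  · field_simp

lemma Reg.two (hF : Reg q F) (hq : 0 ≤ q) (a b : ℝ) (z : X) {d : ℝ} (hd : |a| + |b| ≤ d) :
    |F (nm a • dg b • z) - F z| ≤ (exp (q * d) - 1) * F z := by
  have h0 := hF.nonneg z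
  have h1 : F (nm a • dg b • z) ≤ exp (q * d) * F z := by
    refine (hF.hnm a _).trans ?_
    have h2 := mul_le_mul_of_nonneg_left (hF.hdg b z) (exp_pos (q * |a|)).le
    refine h2.trans ?_
    rw [← mul_assoc, ← Real.exp_add]
    gcongr
    nlinarith
  have h2 : F z ≤ exp (q * d) * F (nm a • dg b • z) := by
    have e : z = dg (-b) • nm (-a) • nm a • dg b • z := by
      rw [nm_neg, dg_neg, inv_smul_smul, inv_smul_smul]
    conv_lhs => rw [e]
    refine (hF.hdg _ _).trans ?_
    have h2 := mul_le_mul_of_nonneg_left (hF.hnm (-a) (nm a • dg b • z)) (exp_pos (q * |(-b)|)).le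
    refine h2.trans ?_
    rw [← mul_assoc, ← Real.exp_add, abs_neg, abs_neg]
    have := hF.nonneg (nm a • dg b • z)
    gcongr
    nlinarith
  set E := exp (q * d) with hE
  have hE1 : 1 ≤ E := by
    rw [hE]
    apply Real.one_le_exp
    have : 0 ≤ d := le_trans (by positivity) hd
    positivity
  rw [abs_le]
  constructor
  · have h3 : (2 - E) * F z ≤ F (nm a • dg b • z) := by
      have h4 : E⁻¹ * F z ≤ F (nm a • dg b • z) := by
        rw [inv_mul_le_iff₀ (by linarith)]
        exact h2
      refine le_trans ?_ h4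
      gcongr
      rw [← one_div, le_div_iff₀ (by linarith)]
      nlinarith [sq_nonneg (E - 1)]
    linarith
  · linarith

lemma exp_sub_one_le {x : ℝ} (hx : 0 ≤ x) : exp x - 1 ≤ x * exp x := by
  have h := Real.add_one_le_exp (-x)
  have h2 : exp (-x) * exp x = 1 := by rw [← Real.exp_add]; simp
  have h3 : (1 - x) * exp x ≤ exp (-x) * exp x := by
    gcongr
    linarith
  nlinarith

/-- the constant -/
def C1 (q : ℝ) : ℝ := 24 * q * exp (2 * q) + 52

lemma C1_pos (hq : 0 ≤ q) : 1 ≤ C1 q := by
  unfold C1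
  have : 0 ≤ 24 * q * exp (2 * q) := by positivity
  linarith

lemma PP_nm_sub (hA : Act μ) (hF : Reg q F) (hq : 0 ≤ q) {s : ℝ} (hs : 0 ≤ s) (y : X) {v : ℝ}
    (hv : |v| ≤ 1 / 4) : |PP s F (nm v • y) - PP s F y| ≤ C1 q * |v| * Pt s F y := by
  have hpos : ∀ t : ℝ, |t| ≤ 2 → |t * v| ≤ 2 * |v| ∧ 1 / 2 ≤ 1 - t * v ∧ 1 - t * v ≤ 3 / 2 := by
    intro t ht
    have h1 : |t * v| ≤ 2 * |v| := by rw [abs_mul]; gcongr
    have h2 := abs_le.1 (h1.trans (by linarith : 2 * |v| ≤ 1 / 2))
    exact ⟨h1, by linarith [h2.2], by linarith [h2.1]⟩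
  set S : Set ℝ := Icc (-2) 2 with hS
  have memS : ∀ t, t ∈ S ↔ |t| ≤ 2 := fun t => by rw [hS, mem_Icc, abs_le]
  set f : ℝ → ℝ := fun t => t / (1 - t * v) with hf
  set f' : ℝ → ℝ := fun t => 1 / (1 - t * v) ^ 2 with hf'
  have hder : ∀ t ∈ S, HasDerivWithinAt f (f' t) S t := by
    intro t ht
    have hne : 1 - t * v ≠ 0 := by
      have := (hpos t ((memS t).1 ht)).2.1
      linarith
    have h1 : HasDerivAt (fun t : ℝ => 1 - t * v) (-v) t := by
      have := ((hasDerivAt_id t).mul_const v).const_sub 1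
      simpa using this
    have h2 := (hasDerivAt_id t).div h1 hne
    have h3 : (1 * (1 - t * v) - id t * -v) / (1 - t * v) ^ 2 = f' t := by
      rw [hf']
      simp only [id]
      congr 1
      ring
    rw [← h3]
    exact h2.hasDerivWithinAt
  have hinj : InjOn f S := by
    intro a ha b hb hab
    have h1 : 1 - a * v ≠ 0 := by
      have := (hpos a ((memS a).1 ha)).2.1
      linarith
    have h2 : 1 - b * v ≠ 0 := by
      have := (hpos b ((memS b).1 hb)).2.1
      linarith
    simp only [hf] at hab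
    rw [div_eq_div_iff h1 h2] at hab
    linarith
  set g : ℝ → ℝ := fun t => tent t * F (dg s • nn t • nm v • y) with hg
  have e1 : PP s F (nm v • y) = ∫ t in S, f' t * g (f t) := by
    have h1 : ∫ t in f '' S, g t = ∫ t in S, |f' t| • g (f t) :=
      integral_image_eq_integral_abs_deriv_smul measurableSet_Icc hder hinj g
    have h2 : ∫ t in f '' S, g t = PP s F (nm v • y) := by
      unfold PP
      apply setIntegral_eq_integral_of_forall_compl_eq_zero
      intro t ht
      show tent t * _ = 0
      rw [tent_zero_of, zero_mul]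
      by_contra hlt
      push Not at hlt
      apply ht
      have h3 : 3 / 4 ≤ 1 + t * v := by
        have : |t * v| ≤ 1 / 4 := by
          rw [abs_mul]
          nlinarith [abs_nonneg t, abs_nonneg v]
        linarith [(abs_le.1 this).1]
      have h4 : 1 + t * v ≠ 0 := by linarith
      refine ⟨t / (1 + t * v), ?_, ?_⟩
      · rw [memS, abs_div, abs_of_pos (by linarith : 0 < 1 + t * v), div_le_iff₀ (by linarith)]
        nlinarith
      · simp only [hf]
        have h5 : 1 - t / (1 + t * v) * v = 1 / (1 + t * v) := by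
          field_simp
          ring
        rw [h5]
        field_simp
    rw [← h2, h1]
    refine setIntegral_congr_fun measurableSet_Icc fun t ht => ?_
    simp only [smul_eq_mul]
    rw [abs_of_nonneg]
    simp only [hf']
    positivity
  have hgf : ∀ t, |t| ≤ 2 → g (f t) = tent (f t) *
      F (nm (exp (-2 * s) * (v * (1 - t * v))) • dg (-log (1 - t * v)) • dg s • nn t • y) := by
    intro t ht
    have hp : 0 < 1 - t * v := by linarith [(hpos t ht).2.1]
    simp only [hg, hf]
    congr 2
    have h1 : dg s • nn (t / (1 - t * v)) • nm v • y =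
        (dg s * (nn (t / (1 - t * v)) * nm v)) • y := by
      simp only [mul_smul]
    rw [h1, nn_nm' hp]
    have h2 : dg s * (nm (v * (1 - t * v)) * dg (-log (1 - t * v)) * nn t) =
        nm (exp (-2 * s) * (v * (1 - t * v))) * (dg (-log (1 - t * v)) * (dg s * nn t)) := by
      rw [← mul_assoc, ← mul_assoc, dg_nm, mul_assoc (nm _) (dg s), ← dg_add, add_comm s, dg_add]
      simp only [mul_assoc]
    rw [h2]
    simp only [mul_smul]
  have hbd : ∀ t, |t| ≤ 2 →
      |F (nm (exp (-2 * s) * (v * (1 - t * v))) • dg (-log (1 - t * v)) • dg s • nn t • y) -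
        F (dg s • nn t • y)| ≤ (6 * q * exp (2 * q) * |v|) * F (dg s • nn t • y) := by
    intro t ht
    obtain ⟨h1, h2, h3⟩ := hpos t ht
    have hp : 0 < 1 - t * v := by linarith
    have ha : |exp (-2 * s) * (v * (1 - t * v))| ≤ 3 / 2 * |v| := by
      rw [abs_mul, abs_mul, abs_of_pos (exp_pos _), abs_of_pos hp]
      have : exp (-2 * s) ≤ 1 := Real.exp_le_one_iff.2 (by linarith)
      have h4 : |v| * (1 - t * v) ≤ 3 / 2 * |v| := by nlinarith [abs_nonneg v]
      have h5 : 0 ≤ |v| * (1 - t * v) := by positivity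
      nlinarith
    have hb : |-log (1 - t * v)| ≤ 4 * |v| := by
      rw [abs_neg, abs_le]
      constructor
      · have := Real.one_sub_inv_le_log_of_pos hp
        have h6 : 1 - (1 - t * v)⁻¹ = -(t * v) / (1 - t * v) := by field_simp; ring
        rw [h6] at this
        refine le_trans ?_ this
        rw [le_div_iff₀ hp]
        have := (abs_le.1 h1).2
        nlinarith [abs_nonneg v]
      · have := Real.log_le_sub_one_of_pos hp
        have := (abs_le.1 h1).1
        nlinarith [abs_nonneg v]
    have hab : |exp (-2 * s) * (v * (1 - t * v))| + |-log (1 - t * v)| ≤ 6 * |v| := by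
      linarith [abs_nonneg v]
    refine (hF.two hq _ _ (dg s • nn t • y) hab).trans ?_
    refine mul_le_mul_of_nonneg_right ?_ (hF.nonneg _)
    refine (exp_sub_one_le (by positivity)).trans ?_
    have : exp (q * (6 * |v|)) ≤ exp (2 * q) := by
      apply Real.exp_le_exp.2
      nlinarith
    have h7 : q * (6 * |v|) * exp (q * (6 * |v|)) ≤ q * (6 * |v|) * exp (2 * q) := by gcongr
    linarith
  have hker : ∀ t, |t| ≤ 2 → |f' t * tent (f t) - tent t| ≤ 52 * |v| ∧ 0 ≤ f' t * tent (f t) ∧
      f' t * tent (f t) ≤ 4 := by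
    intro t ht
    obtain ⟨h1, h2, h3⟩ := hpos t ht
    have hp : 0 < 1 - t * v := by linarith
    have hf'4 : f' t ≤ 4 := by
      simp only [hf']
      rw [div_le_iff₀ (by positivity)]
      nlinarith
    have hf'0 : 0 ≤ f' t := by simp only [hf']; positivity
    have h4 : |tent (f t) - tent t| ≤ 8 * |v| := by
      refine (tent_lip _ _).trans ?_
      have : f t - t = t * (t * v) / (1 - t * v) := by
        simp only [hf]
        field_simp
        ring
      rw [this, abs_div, abs_of_pos hp, div_le_iff₀ hp, abs_mul]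
      have h5 : |t| * |t * v| ≤ 2 * (2 * |v|) := by gcongr
      nlinarith [abs_nonneg v]
    have h6 : |f' t - 1| ≤ 20 * |v| := by
      have : f' t - 1 = (t * v) * (2 - t * v) / (1 - t * v) ^ 2 := by
        simp only [hf']
        field_simp
        ring
      rw [this, abs_div, abs_of_pos (by positivity : 0 < (1 - t * v) ^ 2),
        div_le_iff₀ (by positivity), abs_mul]
      have h7 : |2 - t * v| ≤ 5 / 2 := by
        rw [abs_le]
        constructor <;> linarith
      have h8 : |t * v| * |2 - t * v| ≤ 2 * |v| * (5 / 2) := by gcongr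
      have h9 : 1 / 4 ≤ (1 - t * v) ^ 2 := by nlinarith
      nlinarith [abs_nonneg v]
    have ht0 := tent_nonneg (f t)
    have ht1 := tent_le_one (f t)
    refine ⟨?_, by positivity, by nlinarith⟩
    have : f' t * tent (f t) - tent t = f' t * (tent (f t) - tent t) + tent t * (f' t - 1) := by
      ring
    rw [this]
    refine (abs_add_le _ _).trans ?_
    rw [abs_mul, abs_mul, abs_of_nonneg hf'0, abs_of_nonneg (tent_nonneg t)]
    have h10 : f' t * |tent (f t) - tent t| ≤ 4 * (8 * |v|) := by gcongr
    have h11 : tent t * |f' t - 1| ≤ 1 * (20 * |v|) := by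
      gcongr
      exact tent_le_one t
    linarith
  have key : ∀ t, |t| ≤ 2 → |f' t * g (f t) - tent t * F (dg s • nn t • y)| ≤
      C1 q * |v| * F (dg s • nn t • y) := by
    intro t ht
    rw [hgf t ht]
    have h1 := hbd t ht
    obtain ⟨h2, h3, h4⟩ := hker t ht
    set A := F (nm (exp (-2 * s) * (v * (1 - t * v))) • dg (-log (1 - t * v)) • dg s • nn t • y)
    set B := F (dg s • nn t • y) with hB
    have hB0 : 0 ≤ B := hF.nonneg _
    have : f' t * (tent (f t) * A) - tent t * B = (f' t * tent (f t)) * (A - B) +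
        (f' t * tent (f t) - tent t) * B := by ring
    rw [this]
    refine (abs_add_le _ _).trans ?_
    rw [abs_mul (f' t * tent (f t)), abs_mul _ B, abs_of_nonneg h3, abs_of_nonneg hB0]
    have h5 : f' t * tent (f t) * |A - B| ≤ 4 * (6 * q * exp (2 * q) * |v| * B) := by gcongr
    have h6 : |f' t * tent (f t) - tent t| * B ≤ 52 * |v| * B := by gcongr
    unfold C1
    linarith
  have hmg : Measurable g :=
    tent_continuous.measurable.mul (hF.meas.comp ((hA.meas_g _).comp (hA.meas_nn (nm v • y))))
  have hmf : Measurable f := by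
    simp only [hf]
    fun_prop
  have hmf' : Measurable f' := by
    simp only [hf']
    fun_prop
  have hm : Measurable fun t => f' t * g (f t) := hmf'.mul (hmg.comp hmf)
  have i2 := hF.int_PP hA hq s y
  have i1 : Integrable (indicator S fun t => f' t * g (f t)) := by
    have hbig : ∀ t, |t| ≤ 2 → |f' t * g (f t)| ≤
        (C1 q * |v| + 1) * (exp (q * |s|) * (exp (q * 2) * F y)) := by
      intro t ht
      have h1 := key t ht
      have h2 : |f' t * g (f t)| ≤ (C1 q * |v| + 1) * F (dg s • nn t • y) := by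
        have h3 := abs_sub_abs_le_abs_sub (f' t * g (f t)) (tent t * F (dg s • nn t • y))
        have h4 : |tent t * F (dg s • nn t • y)| ≤ F (dg s • nn t • y) := by
          rw [abs_of_nonneg (mul_nonneg (tent_nonneg _) (hF.nonneg _))]
          have := hF.nonneg (dg s • nn t • y)
          nlinarith [tent_le_one t]
        linarith
      refine h2.trans ?_
      have h5 := C1_pos hq
      refine mul_le_mul_of_nonneg_left ?_ (by positivity)
      refine (hF.hdg s _).trans ?_
      refine mul_le_mul_of_nonneg_left ?_ (exp_pos _).le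
      refine (hF.hnn t y).trans ?_
      have := hF.nonneg y
      gcongr
    refine integrable_of_bdd_supp (R := 2)
      (C := (C1 q * |v| + 1) * (exp (q * |s|) * (exp (q * 2) * F y)))
      (hm.indicator measurableSet_Icc) ?_ ?_
    · intro t ht
      exact indicator_of_notMem (fun h => absurd ((memS t).1 h) (not_le.2 ht)) _
    · intro t ht
      rw [indicator_of_mem ((memS t).2 ht)]
      exact hbig t ht
  rw [e1, ← integral_indicator measurableSet_Icc]
  conv_lhs => rw [PP]
  rw [← integral_sub i1 i2]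
  have hC1 := C1_pos hq
  refine kernel_bound hA hF hq s y (by positivity) (fun t ht => ?_) fun t ht => ?_
  · rw [indicator_of_mem ((memS t).2 ht)]
    exact key t ht
  · rw [indicator_of_notMem (fun h => absurd ((memS t).1 h) (not_le.2 ht)),
      tent_zero_of (by linarith : 1 ≤ |t|)]
    simp

end

end Pool.Agent.W745
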