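import Pool.Agent.W745.Ball

/-! Smoothing by powers of the norm. -/

open MeasureTheory Set Filter Topology Real
open scoped ENNReal NNReal

namespace Pool.Agent.W745

noncomputable section

variable {X : Type} [MeasurableSpace X] {μ : Measure X} [MulAction SL2 X]
variable {q : ℝ} {f : X → ℝ}

/-- the weight -/
def wt (n : ℕ) (g : SL2) : ℝ := (NN g)⁻¹ ^ n

lemma NN_pos (g : SL2) : 0 < NN g := by linarith [NN_ge_two g]

lemma wt_pos (n : ℕ) (g : SL2) : 0 < wt n g := by
  have := NN_pos g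
  unfold wt
  positivity

lemma inv_NN_le (g : SL2) : (NN g)⁻¹ ≤ 1 := by
  apply inv_le_one_of_one_le₀
  linarith [NN_ge_two g]

lemma wt_le_one (n : ℕ) (g : SL2) : wt n g ≤ 1 :=
  pow_le_one₀ (inv_nonneg.2 (NN_pos g).le) (inv_NN_le g)

lemma wt_anti {n k : ℕ} (h : n ≤ k) (g : SL2) : wt k g ≤ wt n g :=
  pow_le_pow_of_le_one (inv_nonneg.2 (NN_pos g).le) (inv_NN_le g) h

lemma wt_continuous (n : ℕ) : Continuous (wt n) := by
  unfold wt
  exact (NN_continuous.inv₀ fun g => (NN_pos g).ne').pow n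

lemma wt_shift (n : ℕ) {g h : SL2} {c : ℝ} (hN : NN h ≤ exp (2 * c) * NN g) :
    wt n g ≤ exp (2 * n * c) * wt n h := by
  unfold wt
  have h1 := NN_pos g
  have h2 := NN_pos h
  have h3 : (NN g)⁻¹ ≤ exp (2 * c) * (NN h)⁻¹ := by
    rw [inv_le_comm₀ h1 (by positivity), mul_inv, inv_inv, inv_mul_le_iff₀ (exp_pos _)]
    exact hN
  have h4 : exp (2 * n * c) = exp (2 * c) ^ n := by
    rw [← Real.exp_nat_mul]
    congr 1
    ring
  rw [h4, ← mul_pow]
  exact pow_le_pow_left₀ (by positivity) h3 n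

variable [MeasurableSpace SL2] [BorelSpace SL2]

lemma wt_meas (n : ℕ) : Measurable (wt n) := (wt_continuous n).measurable

lemma FR_le {m : Measure SL2} {κ : ℝ} (hm : HM m κ) (R : ℝ) (hR : 0 ≤ R) :
    m (FR R) ≤ ENNReal.ofReal (κ * R) := by
  rcases le_or_gt R 2 with h | h
  · have : FR R = ∅ := by
      rw [eq_empty_iff_forall_notMem]
      intro g (hg : NN g < R)
      linarith [NN_ge_two g]
    rw [this, measure_empty]
    exact zero_le
  · rw [hm.vol R h]
    apply ENNReal.ofReal_le_ofReal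
    have := hm.pos
    nlinarith

lemma wt_two_lint {m : Measure SL2} {κ : ℝ} (hm : HM m κ) :
    ∫⁻ g, ENNReal.ofReal (wt 2 g) ∂m ≠ ⊤ := by
  have hκ := hm.pos
  have h1 : ∀ g : SL2, ENNReal.ofReal (wt 2 g) ≤
      ∑' k : ℕ, indicator (FR (2 ^ (k + 1))) (fun _ => ENNReal.ofReal ((1 / 4) ^ k)) g := by
    intro g
    have hg := NN_ge_two g
    obtain ⟨k, hk1, hk2⟩ := exists_nat_pow_near (show (1 : ℝ) ≤ NN g by linarith)
      (show (1 : ℝ) < 2 by norm_num)
    refine le_trans ?_ (ENNReal.le_tsum k)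
    rw [indicator_of_mem (show g ∈ FR (2 ^ (k + 1)) from hk2)]
    apply ENNReal.ofReal_le_ofReal
    unfold wt
    have h2 : ((1 : ℝ) / 4) ^ k = ((2 ^ k)⁻¹) ^ 2 := by
      rw [← inv_pow, ← pow_mul, mul_comm k 2, pow_mul]
      norm_num
    rw [h2]
    have h3 : (0 : ℝ) < 2 ^ k := by positivity
    apply pow_le_pow_left₀ (inv_nonneg.2 (NN_pos g).le)
    exact inv_anti₀ h3 hk1
  have h2 : ∫⁻ g, ENNReal.ofReal (wt 2 g) ∂m ≤ ∑' k : ℕ, ENNReal.ofReal (2 * κ * (1 / 2) ^ k) := by
    refine (lintegral_mono h1).trans ?_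
    rw [lintegral_tsum fun k => (measurable_const.indicator (FR_meas _)).aemeasurable]
    apply ENNReal.tsum_le_tsum
    intro k
    rw [lintegral_indicator (FR_meas _), lintegral_const, Measure.restrict_apply_univ]
    calc ENNReal.ofReal ((1 / 4) ^ k) * m (FR (2 ^ (k + 1))) ≤
          ENNReal.ofReal ((1 / 4) ^ k) * ENNReal.ofReal (κ * 2 ^ (k + 1)) := by
          gcongr
          exact FR_le hm _ (by positivity)
      _ = ENNReal.ofReal ((1 / 4) ^ k * (κ * 2 ^ (k + 1))) :=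
          (ENNReal.ofReal_mul (by positivity)).symm
      _ = _ := by
          congr 1
          rw [pow_succ]
          have : ((1 : ℝ) / 4) ^ k * 2 ^ k = (1 / 2) ^ k := by rw [← mul_pow]; norm_num
          calc ((1 : ℝ) / 4) ^ k * (κ * (2 ^ k * 2)) = 2 * κ * ((1 / 4) ^ k * 2 ^ k) := by ring
            _ = _ := by rw [this]
  refine ne_top_of_le_ne_top ?_ h2
  exact ((summable_geometric_of_lt_one (by norm_num) (by norm_num)).mul_left
    (2 * κ)).tsum_ofReal_ne_top

lemma wt_int {m : Measure SL2} {κ : ℝ} (hm : HM m κ) {n : ℕ} (hn : 2 ≤ n) :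
    Integrable (wt n) m := by
  have h2 : Integrable (wt 2) m := by
    refine ⟨(wt_meas 2).aestronglyMeasurable, ?_⟩
    rw [hasFiniteIntegral_iff_ofReal (Filter.Eventually.of_forall fun g => (wt_pos 2 g).le)]
    exact lt_top_iff_ne_top.2 (wt_two_lint hm)
  refine h2.mono (wt_meas n).aestronglyMeasurable (Filter.Eventually.of_forall fun g => ?_)
  rw [norm_eq_abs, norm_eq_abs, abs_of_pos (wt_pos _ _), abs_of_pos (wt_pos _ _)]
  exact wt_anti hn g

/-- total mass of the weight -/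
def cn (m : Measure SL2) (n : ℕ) : ℝ := ∫ g, wt n g ∂m

lemma set_wt_ge {m : Measure SL2} {κ : ℝ} (hm : HM m κ) {n : ℕ} (hn : 2 ≤ n) {R : ℝ} (hR : 2 < R) :
    R⁻¹ ^ n * (κ * (R - 2)) ≤ ∫ g in FR R, wt n g ∂m := by
  have h1 : ∫ g in FR R, R⁻¹ ^ n ∂m ≤ ∫ g in FR R, wt n g ∂m := by
    refine setIntegral_mono_on (integrableOn_const (FR_fin hm R)) (wt_int hm hn).integrableOn
      (FR_meas R) fun g hg => ?_
    unfold wt
    apply pow_le_pow_left₀ (by positivity)
    exact inv_anti₀ (NN_pos g) (le_of_lt hg)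
  rw [setIntegral_const, smul_eq_mul, Measure.real, FR_real hm hR] at h1
  linarith

lemma cn_pos {m : Measure SL2} {κ : ℝ} (hm : HM m κ) {n : ℕ} (hn : 2 ≤ n) : 0 < cn m n := by
  have h1 := set_wt_ge hm hn (R := 3) (by norm_num)
  have h2 : ∫ g in FR 3, wt n g ∂m ≤ cn m n :=
    setIntegral_le_integral (wt_int hm hn) (Filter.Eventually.of_forall fun g => (wt_pos n g).le)
  have := hm.pos
  have h3 : (0 : ℝ) < 3⁻¹ ^ n * (κ * (3 - 2)) := by
    have : (0 : ℝ) < κ * (3 - 2) := by linarith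
    positivity
  linarith

/-- mass outside a neighbourhood of the rotations -/
def Tn (m : Measure SL2) (n : ℕ) (R : ℝ) : ℝ := ∫ g in (FR R)ᶜ, wt n g ∂m

lemma Tn_tendsto {m : Measure SL2} {κ : ℝ} (hm : HM m κ) {R : ℝ} (hR : 2 < R) :
    Tendsto (fun n : ℕ => Tn m n R / cn m n) atTop (𝓝 0) := by
  have hκ := hm.pos
  set r := (2 + R) / 2 with hr
  have hr2 : 2 < r := by rw [hr]; linarith
  have hrR : r < R := by rw [hr]; linarith
  have hc2 := cn_pos hm (n := 2) le_rfl
  set K := R ^ 2 * cn m 2 / (κ * (r - 2)) with hK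
  have hrr : 0 < κ * (r - 2) := mul_pos hκ (by linarith)
  have hlim : Tendsto (fun n : ℕ => K * (r / R) ^ n) atTop (𝓝 (K * 0)) :=
    (tendsto_pow_atTop_nhds_zero_of_lt_one (by positivity)
      ((div_lt_one (by linarith)).2 hrR)).const_mul K
  rw [mul_zero] at hlim
  refine squeeze_zero' ?_ ?_ hlim
  · filter_upwards [eventually_ge_atTop 2] with n hn
    refine div_nonneg ?_ (cn_pos hm hn).le
    exact integral_nonneg fun g => (wt_pos n g).le
  · filter_upwards [eventually_ge_atTop 2] with n hn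
    have h1 : Tn m n R ≤ R⁻¹ ^ (n - 2) * cn m 2 := by
      have h2 : Tn m n R ≤ ∫ g in (FR R)ᶜ, R⁻¹ ^ (n - 2) * wt 2 g ∂m := by
        refine setIntegral_mono_on (wt_int hm hn).integrableOn
          ((wt_int hm le_rfl).const_mul _).integrableOn (FR_meas R).compl fun g hg => ?_
        have h3 : R ≤ NN g := not_lt.1 hg
        have h4 : wt n g = (NN g)⁻¹ ^ (n - 2) * wt 2 g := by
          unfold wt
          rw [← pow_add]
          congr 1
          omega
        rw [h4]
        refine mul_le_mul_of_nonneg_right ?_ (wt_pos 2 g).le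
        apply pow_le_pow_left₀ (inv_nonneg.2 (NN_pos g).le)
        exact inv_anti₀ (by linarith) h3
      refine h2.trans ?_
      rw [integral_const_mul]
      have h5 : ∫ g in (FR R)ᶜ, wt 2 g ∂m ≤ cn m 2 :=
        setIntegral_le_integral (wt_int hm le_rfl)
          (Filter.Eventually.of_forall fun g => (wt_pos 2 g).le)
      have : 0 < R := by linarith
      gcongr
    have h6 : r⁻¹ ^ n * (κ * (r - 2)) ≤ cn m n := by
      refine (set_wt_ge hm hn hr2).trans ?_
      exact setIntegral_le_integral (wt_int hm hn)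
        (Filter.Eventually.of_forall fun g => (wt_pos n g).le)
    have hRp : 0 < R := by linarith
    have hrp : 0 < r := by linarith
    rw [div_le_iff₀ (cn_pos hm hn)]
    refine h1.trans ?_
    have h7 : K * (r / R) ^ n * (r⁻¹ ^ n * (κ * (r - 2))) = R⁻¹ ^ (n - 2) * cn m 2 := by
      have h8 : R⁻¹ ^ n * R ^ 2 = R⁻¹ ^ (n - 2) := by
        obtain ⟨k, rfl⟩ := Nat.exists_eq_add_of_le hn
        rw [show 2 + k - 2 = k by omega, pow_add]
        field_simp
      have h9 : r - 2 ≠ 0 := by linarith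
      rw [← h8, hK, div_pow, inv_pow, inv_pow]
      field_simp
    rw [← h7]
    gcongr

/-- smoothing -/
def FF (m : Measure SL2) (n : ℕ) (f : X → ℝ) (y : X) : ℝ := ∫ g, wt n g * f (g • y) ∂m

/-- extended version -/
def Fe (m : Measure SL2) (n : ℕ) (f : X → ℝ) (y : X) : ℝ≥0∞ :=
  ∫⁻ g, ENNReal.ofReal (wt n g * f (g • y)) ∂m

lemma orb_meas (hG : GAct μ) (hf : Measurable f) (n : ℕ) (y : X) :
    Measurable fun g : SL2 => wt n g * f (g • y) :=
  (wt_meas n).mul (hf.comp (hG.meas_orbit y))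

lemma FF_eq (hG : GAct μ) (hf : Measurable f) (hf0 : ∀ y, 0 ≤ f y) (m : Measure SL2) (n : ℕ)
    (y : X) : FF m n f y = (Fe m n f y).toReal :=
  integral_eq_lintegral_of_nonneg_ae
    (Filter.Eventually.of_forall fun g => mul_nonneg (wt_pos n g).le (hf0 _))
    (orb_meas hG hf n y).aestronglyMeasurable

lemma Fe_le (hG : GAct μ) (hf : Measurable f) (hf0 : ∀ y, 0 ≤ f y) {m : Measure SL2} {κ : ℝ}
    (hm : HM m κ) (n : ℕ) {h : SL2} {c : ℝ} (hc : ∀ g, NN (g * h) ≤ exp (2 * c) * NN g) (y : X) :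
    Fe m n f (h • y) ≤ ENNReal.ofReal (exp (2 * n * c)) * Fe m n f y := by
  unfold Fe
  rw [← lintegral_const_mul _ (orb_meas hG hf n y).ennreal_ofReal]
  have h1 := (hm.right h).lintegral_comp (f := fun g => ENNReal.ofReal (exp (2 * n * c)) *
    ENNReal.ofReal (wt n g * f (g • y)))
    ((orb_meas hG hf n y).ennreal_ofReal.const_mul _)
  rw [← h1]
  apply lintegral_mono
  intro g
  simp only
  rw [← ENNReal.ofReal_mul (exp_pos _).le]
  apply ENNReal.ofReal_le_ofReal
  rw [mul_smul]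
  have h2 := wt_shift n (hc g)
  have h3 := hf0 (g • h • y)
  calc wt n g * f (g • h • y) ≤ (exp (2 * n * c) * wt n (g * h)) * f (g • h • y) := by gcongr
    _ = _ := by ring

lemma FF_le (hG : GAct μ) (hf : Measurable f) (hf0 : ∀ y, 0 ≤ f y) {m : Measure SL2} {κ : ℝ}
    (hm : HM m κ) (n : ℕ) {h : SL2} {c : ℝ} (hc : ∀ g, NN (g * h) ≤ exp (2 * c) * NN g)
    (hc' : ∀ g, NN (g * h⁻¹) ≤ exp (2 * c) * NN g) (y : X) :
    FF m n f (h • y) ≤ exp (2 * n * c) * FF m n f y := by
  rw [FF_eq hG hf hf0, FF_eq hG hf hf0]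
  have h1 := Fe_le hG hf hf0 hm n hc y
  have h2 := Fe_le hG hf hf0 hm n hc' (h • y)
  rw [inv_smul_smul] at h2
  rcases eq_or_ne (Fe m n f y) ⊤ with ht | ht
  · have h3 : Fe m n f (h • y) = ⊤ := by
      by_contra hne
      rw [ht, top_le_iff] at h2
      exact ENNReal.mul_ne_top ENNReal.ofReal_ne_top hne h2
    rw [ht, h3]
    simp
  · have h3 := ENNReal.toReal_mono (ENNReal.mul_ne_top ENNReal.ofReal_ne_top ht) h1
    rwa [ENNReal.toReal_mul, ENNReal.toReal_ofReal (exp_pos _).le] at h3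

lemma FF_meas (hG : GAct μ) (hf : Measurable f) {m : Measure SL2} {κ : ℝ}
    (hm : HM m κ) (n : ℕ) : Measurable (FF m n f) := by
  have := sfin hm
  have h : Measurable fun p : X × SL2 => wt n p.2 * f (p.2 • p.1) :=
    ((wt_meas n).comp measurable_snd).mul (hf.comp (hG.meas.comp
      (measurable_snd.prodMk measurable_fst)))
  exact (h.stronglyMeasurable.integral_prod_right (ν := m)).measurable

lemma FF_reg (hG : GAct μ) (hf : Measurable f) (hf0 : ∀ y, 0 ≤ f y) {m : Measure SL2} {κ : ℝ}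
    (hm : HM m κ) (n : ℕ) : Reg (2 * n) (FF m n f) where
  meas := FF_meas hG hf hm n
  nonneg y := integral_nonneg fun g => mul_nonneg (wt_pos n g).le (hf0 _)
  hdg s y := FF_le hG hf hf0 hm n (fun g => NN_mul_dg g s) (fun g => by
    have := NN_mul_dg g (-s)
    rwa [dg_neg, abs_neg] at this) y
  hnm s y := FF_le hG hf hf0 hm n (fun g => NN_mul_nm g s) (fun g => by
    have := NN_mul_nm g (-s)
    rwa [nm_neg, abs_neg] at this) y
  hnn s y := FF_le hG hf hf0 hm n (fun g => NN_mul_nn g s) (fun g => by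
    have := NN_mul_nn g (-s)
    rwa [nn_neg, abs_neg] at this) y

lemma FF_ki (hG : GAct μ) (hf : Measurable f) (hf0 : ∀ y, 0 ≤ f y) {m : Measure SL2} {κ : ℝ}
    (hm : HM m κ) (n : ℕ) : KI (FF m n f) := by
  have key : ∀ θ y, FF m n f (kk θ • y) ≤ FF m n f y := by
    intro θ y
    have := FF_le hG hf hf0 hm n (h := kk θ) (c := 0) (fun g => by rw [NN_mul_kk]; simp)
      (fun g => by rw [← kk_neg, NN_mul_kk]; simp) y
    simpa using this
  intro θ y
  apply le_antisymm (key θ y)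
  have := key (-θ) (kk θ • y)
  rwa [kk_neg, inv_smul_smul] at this

lemma prodInt [IsProbabilityMeasure μ] (hG : GAct μ) (hf : Measurable f) (hfi : Integrable f μ)
    {m : Measure SL2} {κ : ℝ} (hm : HM m κ) {w : SL2 → ℝ} (hwm : Measurable w)
    (hwi : Integrable w m) :
    Integrable (fun p : X × SL2 => w p.2 * f (p.2 • p.1)) (μ.prod m) := by
  have := sfin hm
  have h : Measurable fun p : X × SL2 => w p.2 * f (p.2 • p.1) :=
    (hwm.comp measurable_snd).mul (hf.comp (hG.meas.comp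
      (measurable_snd.prodMk measurable_fst)))
  rw [integrable_prod_iff' h.aestronglyMeasurable]
  constructor
  · refine Filter.Eventually.of_forall fun g => ?_
    exact (int_comp hG.act g hfi).const_mul (w g)
  · have h2 : (fun g : SL2 => ∫ y, ‖w g * f (g • y)‖ ∂μ) = fun g => |w g| * ∫ y, |f y| ∂μ := by
      ext g
      rw [← integral_comp_g hG.act g hfi.abs.1, ← integral_const_mul]
      congr 1
      ext y
      rw [norm_eq_abs, abs_mul]
    simp only [h2]
    exact hwi.abs.mul_const _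

lemma FF_int [IsProbabilityMeasure μ] (hG : GAct μ) (hf : Measurable f) (hfi : Integrable f μ)
    {m : Measure SL2} {κ : ℝ} (hm : HM m κ) {n : ℕ} (hn : 2 ≤ n) :
    Integrable (FF m n f) μ ∧ ∫ y, FF m n f y ∂μ = cn m n * ∫ y, f y ∂μ := by
  have := sfin hm
  have hp := prodInt hG hf hfi hm (wt_meas n) (wt_int hm hn)
  refine ⟨hp.integral_prod_left, ?_⟩
  unfold FF
  rw [integral_integral_swap hp]
  have h2 : (fun g : SL2 => ∫ y, wt n g * f (g • y) ∂μ) = fun g => wt n g * ∫ y, f y ∂μ := by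
    ext g
    rw [← integral_comp_g hG.act g hfi.1, ← integral_const_mul]
  simp only [h2]
  rw [integral_mul_const]
  rfl

end

end Pool.Agent.W745
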